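import Mathlib

/-!
A general construction of spaces with a cocompact pretty base.

Data: a set `D`, an index set `I`, sets `R i` in `D` with pairwise countable intersections and
filters `u i` with `R i ∈ u i` containing all co-countable sets.  Points: countably supported
ultrafilters on `D` and on `I`.
-/

open Set Filter Topology TopologicalSpace

namespace Pool.Agent.Helper614.PB

variable {D I : Type}

/-- Hypotheses on the data. -/
structure Good (R : I → Set D) (u : I → Filter D) : Prop where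
  mem : ∀ i, R i ∈ u i
  cocount : ∀ i (C : Set D), C.Countable → Cᶜ ∈ u i
  nebot : ∀ i, (u i).NeBot
  ad : ∀ i j, i ≠ j → (R i ∩ R j).Countable

/-- The underlying set of the space. -/
def Sp (_u : I → Filter D) : Type :=
  {p : Ultrafilter D // ∃ C ∈ p, C.Countable} ⊕ {w : Ultrafilter I // ∃ S ∈ w, S.Countable}

variable (u : I → Filter D)

/-- The filter on `D` attached to a point. -/
def flt : Sp u → Filter D
  | Sum.inl p => (p.1 : Filter D)
  | Sum.inr w => Filter.bind (w.1 : Filter I) u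

/-- The basic sets. -/
def hat (E : Set D) : Set (Sp u) := {x | E ∈ flt u x}

instance : TopologicalSpace (Sp u) := generateFrom (Set.range (hat u))

/-- The isolated point attached to `d`. -/
def pt (d : D) : Sp u := Sum.inl ⟨(pure d : Ultrafilter D), {d}, by simp, countable_singleton d⟩

/-- The point attached to the index `i`. -/
def ix (i : I) : Sp u := Sum.inr ⟨(pure i : Ultrafilter I), {i}, by simp, countable_singleton i⟩

/-- The lattice of base sets. -/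
def Lat (R : I → Set D) : Set (Set D) :=
  {E | ∃ S : Set I, S.Countable ∧ (∀ i ∈ S, E ∈ u i) ∧ (E \ ⋃ i ∈ S, R i).Countable}

variable {u}

theorem mem_hat {E : Set D} {x : Sp u} : x ∈ hat u E ↔ E ∈ flt u x := Iff.rfl

theorem mem_hat_inl {E : Set D} {p} : (Sum.inl p : Sp u) ∈ hat u E ↔ E ∈ p.1 := Iff.rfl

theorem mem_hat_inr {E : Set D} {w} :
    (Sum.inr w : Sp u) ∈ hat u E ↔ {i | E ∈ u i} ∈ w.1 := Iff.rfl

theorem pt_mem_hat {E : Set D} {d : D} : pt u d ∈ hat u E ↔ d ∈ E := Iff.rfl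

theorem ix_mem_hat {E : Set D} {i : I} : ix u i ∈ hat u E ↔ E ∈ u i := Iff.rfl

theorem hat_inter (E F : Set D) : hat u (E ∩ F) = hat u E ∩ hat u F := by
  ext x; simp [mem_hat, Filter.inter_mem_iff]

theorem hat_mono {E F : Set D} (h : E ⊆ F) : hat u E ⊆ hat u F := fun _ hx =>
  Filter.mem_of_superset hx h

theorem hat_univ : hat u (univ : Set D) = univ := by ext x; simp [mem_hat]

theorem isOpen_hat (E : Set D) : IsOpen (hat u E) := isOpen_generateFrom_of_mem ⟨E, rfl⟩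

theorem flt_neBot (hu : ∀ i, (u i).NeBot) (x : Sp u) : (flt u x).NeBot := by
  rcases x with p | w
  · exact p.1.neBot
  · have : ∅ ∉ flt u (Sum.inr w : Sp u) := by
      intro h
      have h' : {i | (∅ : Set D) ∈ u i} ∈ w.1 := h
      have : {i | (∅ : Set D) ∈ u i} = ∅ := by
        ext i; simp only [mem_ofPred_eq, mem_empty_iff_false, iff_false]
        exact (hu i).ne ∘ Filter.empty_mem_iff_bot.1
      rw [this] at h'
      exact w.1.empty_notMem h'
    exact ⟨fun h => this (h ▸ Filter.mem_bot)⟩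

theorem hat_empty (hu : ∀ i, (u i).NeBot) : hat u (∅ : Set D) = ∅ := by
  ext x
  simp only [mem_hat, mem_empty_iff_false, iff_false]
  exact (flt_neBot hu x).ne ∘ Filter.empty_mem_iff_bot.1

theorem isBasis_range : IsTopologicalBasis (Set.range (hat u)) where
  exists_subset_inter := by
    rintro _ ⟨E, rfl⟩ _ ⟨F, rfl⟩ x hx
    exact ⟨_, ⟨E ∩ F, rfl⟩, by rwa [hat_inter], by rw [hat_inter]⟩
  sUnion_eq := eq_univ_of_univ_subset (subset_sUnion_of_mem ⟨univ, hat_univ⟩)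
  eq_generateFrom := rfl

theorem mem_nhds_iff' {x : Sp u} {U : Set (Sp u)} :
    U ∈ 𝓝 x ↔ ∃ E, E ∈ flt u x ∧ hat u E ⊆ U := by
  rw [isBasis_range.mem_nhds_iff]
  constructor
  · rintro ⟨_, ⟨E, rfl⟩, h1, h2⟩; exact ⟨E, h1, h2⟩
  · rintro ⟨E, h1, h2⟩; exact ⟨_, ⟨E, rfl⟩, h1, h2⟩

/-- `pt` converges to `x` along the filter of `x`. -/
theorem tendsto_pt (x : Sp u) : Tendsto (pt u) (flt u x) (𝓝 x) := by
  intro U hU
  obtain ⟨E, hE, hEU⟩ := mem_nhds_iff'.1 hU
  rw [Filter.mem_map]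
  refine Filter.mem_of_superset hE ?_
  intro d hd
  exact hEU (pt_mem_hat.2 hd)

/-- trace of an open set belongs to the filter of each of its points -/
theorem trace_mem {U : Set (Sp u)} (hU : IsOpen U) {x : Sp u} (hx : x ∈ U) :
    {d | pt u d ∈ U} ∈ flt u x := tendsto_pt x (hU.mem_nhds hx)

variable {R : I → Set D}

theorem Lat.of_countable {C : Set D} (hC : C.Countable) : C ∈ Lat u R :=
  ⟨∅, countable_empty, by simp, by simpa using hC⟩

theorem Lat.inter (h : Good R u) {E F : Set D} (hE : E ∈ Lat u R) (hF : F ∈ Lat u R) :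
    E ∩ F ∈ Lat u R := by
  obtain ⟨S, hS, hSE, hSC⟩ := hE
  obtain ⟨T, hT, hTF, hTC⟩ := hF
  refine ⟨S ∩ T, hS.mono inter_subset_left, fun i hi =>
    Filter.inter_mem (hSE i hi.1) (hTF i hi.2), ?_⟩
  have hcount : (⋃ i ∈ S, ⋃ j ∈ T, ⋃ (_ : i ≠ j), R i ∩ R j).Countable :=
    hS.biUnion fun i _ => hT.biUnion fun j _ => countable_iUnion fun hij => h.ad i j hij
  refine ((hSC.union hTC).union hcount).mono ?_
  rintro x ⟨⟨hxE, hxF⟩, hx⟩
  by_cases h1 : x ∈ ⋃ i ∈ S, R i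
  · by_cases h2 : x ∈ ⋃ i ∈ T, R i
    · right
      simp only [mem_iUnion, exists_prop] at h1 h2 hx ⊢
      obtain ⟨i, hi, hxi⟩ := h1
      obtain ⟨j, hj, hxj⟩ := h2
      refine ⟨i, hi, j, hj, ?_, hxi, hxj⟩
      rintro rfl
      exact hx ⟨i, ⟨hi, hj⟩, hxi⟩
    · left; right; exact ⟨hxF, h2⟩
  · left; left; exact ⟨hxE, h1⟩

theorem Lat.sUnion {𝒞 : Set (Set D)} (hc : 𝒞.Countable) (hL : ∀ E ∈ 𝒞, E ∈ Lat u R) :
    ⋃₀ 𝒞 ∈ Lat u R := by
  choose! S hS hSE hSC using hL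
  refine ⟨⋃ E ∈ 𝒞, S E, hc.biUnion hS, ?_, ?_⟩
  · intro i hi
    simp only [mem_iUnion, exists_prop] at hi
    obtain ⟨E, hE, hi⟩ := hi
    exact Filter.mem_of_superset (hSE E hE i hi) (subset_sUnion_of_mem hE)
  · refine (hc.biUnion hSC).mono ?_
    rintro x ⟨⟨E, hE, hxE⟩, hx⟩
    simp only [mem_iUnion, exists_prop, not_exists, not_and, Set.mem_sdiff] at hx ⊢
    exact ⟨E, hE, hxE, fun i hi => hx i ⟨E, hE, hi⟩⟩

/-- every filter of a point is generated by members of the lattice -/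
theorem exists_lat (h : Good R u) {x : Sp u} {E : Set D} (hE : E ∈ flt u x) :
    ∃ F ∈ Lat u R, F ∈ flt u x ∧ F ⊆ E := by
  rcases x with ⟨p, C, hC, hCc⟩ | ⟨w, S, hS, hSc⟩
  · exact ⟨E ∩ C, Lat.of_countable (hCc.mono inter_subset_right),
      p.inter_mem hE hC, inter_subset_left⟩
  · have hE' : {i | E ∈ u i} ∈ w := hE
    refine ⟨⋃ i ∈ S ∩ {i | E ∈ u i}, R i ∩ E, ?_, ?_, ?_⟩
    · refine ⟨S ∩ {i | E ∈ u i}, hSc.mono inter_subset_left, ?_, ?_⟩
      · intro i hi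
        exact Filter.mem_of_superset (Filter.inter_mem (h.mem i) hi.2)
          (subset_biUnion_of_mem (u := fun i => R i ∩ E) hi)
      · refine countable_empty.mono ?_
        rintro x ⟨hx, hx'⟩
        simp only [mem_iUnion, exists_prop, not_exists, not_and] at hx hx'
        obtain ⟨i, hi, hxi, -⟩ := hx
        exact (hx' i hi hxi).elim
    · change {i | (⋃ i ∈ S ∩ {i | E ∈ u i}, R i ∩ E) ∈ u i} ∈ w
      refine w.mem_of_superset (w.inter_mem hS hE') ?_
      intro i hi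
      exact Filter.mem_of_superset (Filter.inter_mem (h.mem i) hi.2)
          (subset_biUnion_of_mem (u := fun i => R i ∩ E) hi)
    · intro x hx
      simp only [mem_iUnion, exists_prop] at hx
      obtain ⟨i, -, -, hx⟩ := hx
      exact hx

theorem isBasis_lat (h : Good R u) : IsTopologicalBasis (hat u '' Lat u R) := by
  refine isTopologicalBasis_of_isOpen_of_nhds ?_ ?_
  · rintro _ ⟨E, -, rfl⟩; exact isOpen_hat E
  · intro x U hx hU
    obtain ⟨E, hE, hEU⟩ := mem_nhds_iff'.1 (hU.mem_nhds hx)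
    obtain ⟨F, hF, hFx, hFE⟩ := exists_lat h hE
    exact ⟨_, ⟨F, hF, rfl⟩, hFx, (hat_mono hFE).trans hEU⟩

/-- decided sets have clopen hats -/
theorem compl_hat (hu : ∀ i, (u i).NeBot) {E : Set D} (hE : ∀ i, E ∈ u i ∨ Eᶜ ∈ u i) :
    (hat u E)ᶜ = hat u Eᶜ := by
  ext x
  constructor
  · intro hx
    rcases x with p | w
    · exact (Ultrafilter.compl_mem_iff_notMem).2 hx
    · have hx' : {i | E ∈ u i} ∉ w.1 := hx
      change {i | Eᶜ ∈ u i} ∈ w.1
      refine w.1.mem_of_superset (Ultrafilter.compl_mem_iff_notMem.2 hx') ?_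
      intro i hi
      exact (hE i).resolve_left hi
  · intro hx hx'
    have : x ∈ hat u (E ∩ Eᶜ) := by rw [hat_inter]; exact ⟨hx', hx⟩
    rw [inter_compl_self, hat_empty hu] at this
    exact this

theorem isClopen_hat_of_decided (hu : ∀ i, (u i).NeBot) {E : Set D}
    (hE : ∀ i, E ∈ u i ∨ Eᶜ ∈ u i) : IsClopen (hat u E) :=
  ⟨⟨by rw [compl_hat hu hE]; exact isOpen_hat _⟩, isOpen_hat _⟩

theorem Lat.decided (h : Good R u) {E : Set D} (hE : E ∈ Lat u R) (i : I) :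
    E ∈ u i ∨ Eᶜ ∈ u i := by
  obtain ⟨S, hS, hSE, hSC⟩ := hE
  by_cases hi : i ∈ S
  · exact Or.inl (hSE i hi)
  · right
    have hc : (E ∩ R i).Countable := by
      have : (⋃ j ∈ S, ⋃ (_ : j ≠ i), R j ∩ R i).Countable :=
        hS.biUnion fun j _ => countable_iUnion fun hij => h.ad j i hij
      refine (hSC.union this).mono ?_
      rintro x ⟨hxE, hxi⟩
      by_cases h1 : x ∈ ⋃ j ∈ S, R j
      · right
        simp only [mem_iUnion, exists_prop] at h1 ⊢
        obtain ⟨j, hj, hxj⟩ := h1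
        exact ⟨j, hj, fun hji => hi (hji ▸ hj), hxj, hxi⟩
      · left; exact ⟨hxE, h1⟩
    refine Filter.mem_of_superset (Filter.inter_mem (h.mem i) (h.cocount i _ hc)) ?_
    rintro x ⟨hx, hx'⟩ hxE
    exact hx' ⟨hxE, hx⟩

theorem isClopen_hat (h : Good R u) {E : Set D} (hE : E ∈ Lat u R) : IsClopen (hat u E) :=
  isClopen_hat_of_decided h.nebot (Lat.decided h hE)

theorem disjoint_of_hat {E F : Set D} (h : Disjoint (hat u E) (hat u F)) : Disjoint E F := by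
  rw [Set.disjoint_left] at h ⊢
  intro d hd hd'
  exact h (pt_mem_hat.2 hd) (pt_mem_hat.2 hd')

theorem hat_disjoint (hu : ∀ i, (u i).NeBot) {E F : Set D} (h : Disjoint E F) :
    Disjoint (hat u E) (hat u F) := by
  rw [Set.disjoint_iff_inter_eq_empty] at h ⊢
  rw [← hat_inter, h, hat_empty hu]

theorem t2 (h : Good R u) : T2Space (Sp u) := by
  refine ⟨fun x y hxy => ?_⟩
  suffices ∃ E F : Set D, Disjoint E F ∧ E ∈ flt u x ∧ F ∈ flt u y by
    obtain ⟨E, F, hEF, hx, hy⟩ := this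
    exact ⟨hat u E, hat u F, isOpen_hat E, isOpen_hat F, hx, hy, hat_disjoint h.nebot hEF⟩
  rcases x with ⟨p, C, hC, hCc⟩ | ⟨w, S, hS, hSc⟩ <;>
    rcases y with ⟨q, C', hC', hCc'⟩ | ⟨w', S', hS', hSc'⟩
  · have hpq : p ≠ q := fun hpq => hxy (by subst hpq; rfl)
    obtain ⟨E, hE, hE'⟩ : ∃ E, E ∈ p ∧ E ∉ q := by
      by_contra hcon
      push Not at hcon
      exact hpq (Ultrafilter.coe_injective
        (le_antisymm (by
          have := Ultrafilter.eq_of_le (f := q) (g := p) hcon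
          rw [this]) hcon)).symm.symm
    exact ⟨E, Eᶜ, disjoint_compl_right, hE, Ultrafilter.compl_mem_iff_notMem.2 hE'⟩
  · refine ⟨C, Cᶜ, disjoint_compl_right, hC, ?_⟩
    change {i | Cᶜ ∈ u i} ∈ w'
    have : {i | Cᶜ ∈ u i} = univ := by ext i; simp [h.cocount i C hCc]
    rw [this]; exact w'.univ_mem
  · refine ⟨C'ᶜ, C', disjoint_compl_left, ?_, hC'⟩
    change {i | C'ᶜ ∈ u i} ∈ w
    have : {i | C'ᶜ ∈ u i} = univ := by ext i; simp [h.cocount i C' hCc']
    rw [this]; exact w.univ_mem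
  · have hww : w ≠ w' := fun hpq => hxy (by subst hpq; rfl)
    obtain ⟨T, hT, hT'⟩ : ∃ E, E ∈ w ∧ E ∉ w' := by
      by_contra hcon
      push Not at hcon
      exact hww (Ultrafilter.eq_of_le (f := w') (g := w) hcon).symm
    have hT'' : Tᶜ ∈ w' := Ultrafilter.compl_mem_iff_notMem.2 hT'
    have hc : (⋃ i ∈ S ∩ T, ⋃ j ∈ S' ∩ Tᶜ, R i ∩ R j).Countable := by
      refine (hSc.mono inter_subset_left).biUnion fun i hi =>
        (hSc'.mono inter_subset_left).biUnion fun j hj => h.ad i j ?_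
      rintro rfl
      exact hj.2 hi.2
    refine ⟨⋃ i ∈ S ∩ T, R i, (⋃ j ∈ S' ∩ Tᶜ, R j) \ (⋃ i ∈ S ∩ T, ⋃ j ∈ S' ∩ Tᶜ, R i ∩ R j),
      ?_, ?_, ?_⟩
    · rw [Set.disjoint_left]
      rintro x hx ⟨hx', hx''⟩
      apply hx''
      simp only [mem_iUnion, exists_prop] at hx hx' ⊢
      obtain ⟨i, hi, hxi⟩ := hx
      obtain ⟨j, hj, hxj⟩ := hx'
      exact ⟨i, hi, j, hj, hxi, hxj⟩
    · change {i | (⋃ i ∈ S ∩ T, R i) ∈ u i} ∈ w
      refine w.mem_of_superset (w.inter_mem hS hT) fun i hi => ?_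
      exact Filter.mem_of_superset (h.mem i) (subset_biUnion_of_mem (u := fun i => R i) hi)
    · change {i | _ ∈ u i} ∈ w'
      refine w'.mem_of_superset (w'.inter_mem hS' hT'') fun i hi => ?_
      refine Filter.inter_mem ?_ (h.cocount i _ hc)
      exact Filter.mem_of_superset (h.mem i) (subset_biUnion_of_mem (u := fun i => R i) hi)

theorem t35 (h : Good R u) : T35Space (Sp u) := by
  have := t2 h
  have : CompletelyRegularSpace (Sp u) :=
    CompletelyRegularSpace.of_isTopologicalBasis_clopens <| by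
      refine isTopologicalBasis_of_isOpen_of_nhds (fun U hU => hU.2) ?_
      intro x U hx hU
      obtain ⟨V, ⟨E, hE, rfl⟩, hxV, hVU⟩ := (isBasis_lat h).exists_subset_of_mem_open hx hU
      exact ⟨_, isClopen_hat h hE, hxV, hVU⟩
  constructor

/-- The nesting property of a pretty base. -/
theorem nested (h : Good R u) (𝒞 𝒟 : Set (Set (Sp u))) (h𝒞 : 𝒞 ⊆ hat u '' Lat u R)
    (h𝒟 : 𝒟 ⊆ hat u '' Lat u R) (hc : 𝒞.Countable)
    (hd : ∀ C ∈ 𝒞, ∀ D ∈ 𝒟, Disjoint C D) :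
    ∃ W ∈ hat u '' Lat u R, (∀ C ∈ 𝒞, C ⊆ W) ∧ ∀ D ∈ 𝒟, Disjoint W D := by
  have h1 : ∀ C : 𝒞, ∃ E ∈ Lat u R, hat u E = C := fun C => h𝒞 C.2
  choose e he1 he2 using h1
  have := hc.to_subtype
  refine ⟨hat u (⋃₀ Set.range e), ⟨_, Lat.sUnion (countable_range e) ?_, rfl⟩, ?_, ?_⟩
  · rintro _ ⟨C, rfl⟩; exact he1 C
  · intro C hC
    have h3 : hat u (e ⟨C, hC⟩) ⊆ hat u (⋃₀ Set.range e) :=
      hat_mono (subset_sUnion_of_mem ⟨_, rfl⟩)
    rwa [he2 ⟨C, hC⟩] at h3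
  · intro V hV
    obtain ⟨F, hF, rfl⟩ := h𝒟 hV
    refine hat_disjoint h.nebot ?_
    rw [Set.disjoint_sUnion_left]
    rintro _ ⟨C, rfl⟩
    exact disjoint_of_hat (he2 C ▸ hd C C.2 _ hV)

/-- Compactness: families of base sets with the finite intersection property have a common
point. -/
theorem fip [Nonempty D] (h : Good R u) (𝒢 : Set (Set D)) (h𝒢 : 𝒢 ⊆ Lat u R)
    (hf : ∀ 𝒯 ⊆ 𝒢, 𝒯.Finite → (⋂₀ 𝒯).Nonempty) : ∃ x : Sp u, ∀ E ∈ 𝒢, x ∈ hat u E := by
  have hne : (Filter.generate 𝒢).NeBot := by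
    rw [Filter.generate_neBot_iff]
    exact hf
  let P : Ultrafilter D := Ultrafilter.of (Filter.generate 𝒢)
  have hP : ∀ E ∈ 𝒢, E ∈ P := fun E hE =>
    Ultrafilter.of_le (Filter.generate 𝒢) (Filter.mem_generate_of_mem hE)
  by_cases hcc : ∃ C ∈ P, C.Countable
  · exact ⟨Sum.inl ⟨P, hcc⟩, fun E hE => hP E hE⟩
  push Not at hcc
  by_cases hemp : 𝒢 = ∅
  · obtain ⟨d⟩ := (inferInstance : Nonempty D)
    exact ⟨pt u d, by simp [hemp]⟩
  obtain ⟨E₀, hE₀⟩ := Set.nonempty_iff_ne_empty.2 hemp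
  obtain ⟨S, hS, hSE, hSC⟩ := h𝒢 hE₀
  -- the traces on S
  have key : ∀ E ∈ Lat u R, E ∈ P → ∃ i ∈ S, E ∈ u i := by
    intro E hE hEP
    obtain ⟨T, hT, hTE, hTC⟩ := Lat.inter h hE (h𝒢 hE₀)
    have hEP' : E ∩ E₀ ∈ P := P.inter_mem hEP (hP _ hE₀)
    have : ∃ i ∈ T, True := by
      by_contra hcon
      push Not at hcon
      have hT0 : T = ∅ := by
        ext i; simpa using fun hi => hcon i hi
      subst hT0
      exact hcc _ hEP' (by simpa using hTC)
    obtain ⟨i, hi, -⟩ := this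
    have h2 : E ∩ E₀ ∈ u i := hTE i hi
    refine ⟨i, ?_, Filter.mem_of_superset h2 inter_subset_left⟩
    by_contra hiS
    have h3 : E₀ ∈ u i := Filter.mem_of_superset h2 inter_subset_right
    have hc : (E₀ ∩ R i).Countable := by
      have : (⋃ j ∈ S, ⋃ (_ : j ≠ i), R j ∩ R i).Countable :=
        hS.biUnion fun j _ => countable_iUnion fun hij => h.ad j i hij
      refine (hSC.union this).mono ?_
      rintro x ⟨hxE, hxi⟩
      by_cases h1 : x ∈ ⋃ j ∈ S, R j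
      · right
        simp only [mem_iUnion, exists_prop] at h1 ⊢
        obtain ⟨j, hj, hxj⟩ := h1
        exact ⟨j, hj, fun hji => hiS (hji ▸ hj), hxj, hxi⟩
      · left; exact ⟨hxE, h1⟩
    have h4 := Filter.inter_mem (Filter.inter_mem h3 (h.mem i)) (h.cocount i _ hc)
    rw [inter_compl_self] at h4
    exact (h.nebot i).ne (Filter.empty_mem_iff_bot.1 h4)
  let 𝒲 : Set (Set I) := insert S ((fun E => {i | E ∈ u i}) '' 𝒢)
  have hne2 : (Filter.generate 𝒲).NeBot := by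
    rw [Filter.generate_neBot_iff]
    intro 𝒯 h𝒯 hfin
    -- choose finitely many members of 𝒢
    have h5 : ∀ A ∈ 𝒯 \ {S}, ∃ E ∈ 𝒢, {i | E ∈ u i} = A := by
      rintro A ⟨hA, hAS⟩
      rcases h𝒯 hA with h6 | h6
      · exact (hAS h6).elim
      · exact h6
    choose! e he1 he2 using h5
    have hfin' : (e '' (𝒯 \ {S})).Finite := (hfin.subset sdiff_subset).image e
    have h7 : ∀ (𝒰 : Set (Set D)), 𝒰.Finite → 𝒰 ⊆ 𝒢 → ⋂₀ 𝒰 ∩ E₀ ∈ Lat u R ∧ ⋂₀ 𝒰 ∩ E₀ ∈ P := by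
      intro 𝒰 h𝒰
      induction 𝒰, h𝒰 using Set.Finite.induction_on with
      | empty => intro _; simpa using ⟨h𝒢 hE₀, hP _ hE₀⟩
      | insert _ _ ih =>
        intro hsub
        obtain ⟨ih1, ih2⟩ := ih ((subset_insert _ _).trans hsub)
        rw [sInter_insert, inter_assoc]
        exact ⟨Lat.inter h (h𝒢 (hsub (mem_insert _ _))) ih1,
          P.inter_mem (hP _ (hsub (mem_insert _ _))) ih2⟩
    have h8 := h7 _ hfin' (by rintro _ ⟨A, hA, rfl⟩; exact he1 A hA)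
    obtain ⟨i, hiS, hi⟩ := key _ h8.1 h8.2
    refine ⟨i, ?_⟩
    intro A hA
    by_cases hAS : A = S
    · rw [hAS]; exact hiS
    · rw [← he2 A ⟨hA, hAS⟩]
      refine Filter.mem_of_superset hi ?_
      intro x hx
      exact hx.1 (e A) ⟨A, ⟨hA, hAS⟩, rfl⟩
  let W : Ultrafilter I := Ultrafilter.of (Filter.generate 𝒲)
  have hW : ∀ A ∈ 𝒲, A ∈ W := fun E hE =>
    Ultrafilter.of_le (Filter.generate 𝒲) (Filter.mem_generate_of_mem hE)
  refine ⟨Sum.inr ⟨W, S, hW S (mem_insert _ _), hS⟩, fun E hE => ?_⟩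
  exact hW _ (mem_insert_of_mem _ ⟨E, hE, rfl⟩)

/-- The same for families of hats. -/
theorem fip' [Nonempty D] (h : Good R u) (ℱ : Set (Set (Sp u))) (hℱ : ℱ ⊆ hat u '' Lat u R)
    (hf : ∀ 𝒯 ⊆ ℱ, 𝒯.Finite → (⋂₀ 𝒯).Nonempty) : (⋂₀ ℱ).Nonempty := by
  have hfin : ∀ 𝒰 : Set (Set D), 𝒰.Finite → hat u (⋂₀ 𝒰) = ⋂₀ (hat u '' 𝒰) := by
    intro 𝒰 h𝒰
    induction 𝒰, h𝒰 using Set.Finite.induction_on with
    | empty => simp [hat_univ]
    | insert _ _ ih => rw [sInter_insert, hat_inter, ih, image_insert_eq, sInter_insert]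
  obtain ⟨x, hx⟩ := fip h {E | E ∈ Lat u R ∧ hat u E ∈ ℱ} (fun E hE => hE.1) (by
    intro 𝒯 h𝒯 hfin𝒯
    have h1 : (⋂₀ (hat u '' 𝒯)).Nonempty :=
      hf _ (by rintro _ ⟨E, hE, rfl⟩; exact (h𝒯 hE).2) (hfin𝒯.image _)
    rw [← hfin _ hfin𝒯] at h1
    by_contra hcon
    rw [Set.not_nonempty_iff_eq_empty] at hcon
    rw [hcon, hat_empty h.nebot] at h1
    exact Set.not_nonempty_empty h1)
  refine ⟨x, ?_⟩
  intro A hA
  obtain ⟨E, hE, rfl⟩ := hℱ hA
  exact hx E ⟨hE, hA⟩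

/-- Cocompactness in the form: the topology generated by the complements of the closures of the
base sets is compact. -/
theorem cocompact [Nonempty D] (h : Good R u) :
    @CompactSpace (Sp u) (generateFrom {V | ∃ B ∈ hat u '' Lat u R, V = (closure B)ᶜ}) := by
  let T : TopologicalSpace (Sp u) := instTopologicalSpaceSp u
  refine @compactSpace_generateFrom (Sp u) (generateFrom {V | ∃ B ∈ hat u '' Lat u R, V = (closure B)ᶜ}) _ rfl ?_
  intro P hP hcov
  by_contra hcon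
  push Not at hcon
  have hcl : ∀ V ∈ P, Vᶜ ∈ hat u '' Lat u R := by
    intro V hV
    obtain ⟨B, hB, rfl⟩ := hP hV
    obtain ⟨E, hE, rfl⟩ := hB
    rw [compl_compl, (isClopen_hat h hE).isClosed.closure_eq]
    exact ⟨E, hE, rfl⟩
  obtain ⟨x, hx⟩ := fip' h (compl '' P) (by rintro _ ⟨V, hV, rfl⟩; exact hcl V hV) (by
    intro 𝒯 h𝒯 hfin
    have h1 := hcon (compl '' 𝒯) (by
      rintro _ ⟨A, hA, rfl⟩
      obtain ⟨V, hV, rfl⟩ := h𝒯 hA
      simpa using hV) (hfin.image _)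
    by_contra h2
    apply h1
    rw [Set.not_nonempty_iff_eq_empty] at h2
    rw [← compl_inj_iff, compl_sUnion, compl_univ, ← image_comp, compl_comp_compl, image_id]
    exact h2)
  have : x ∈ ⋃₀ P := by rw [hcov]; trivial
  obtain ⟨V, hV, hxV⟩ := this
  exact hx Vᶜ ⟨V, hV, rfl⟩ hxV

end Pool.Agent.Helper614.PB
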