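import Pool.Agent.Helper614.PB

/-!
Further general lemmas, and the filter of complements of sets of size at most `κ`.
-/

open Set Filter Topology TopologicalSpace Cardinal

namespace Pool.Agent.Helper614.PB

variable {D I : Type} {u : I → Filter D} {R : I → Set D}

/-- trace on `D` -/
def tr (K : Set (Sp u)) : Set D := {d | pt u d ∈ K}

theorem tr_compl (K : Set (Sp u)) : tr Kᶜ = (tr K)ᶜ := rfl

theorem clopen_eq_hat (hu : ∀ i, (u i).NeBot) {K : Set (Sp u)} (hK : IsClopen K) :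
    K = hat u (tr K) := by
  ext x
  constructor
  · intro hx; exact trace_mem hK.isOpen hx
  · intro hx
    by_contra hx'
    have h1 : tr Kᶜ ∈ flt u x := trace_mem hK.compl.isOpen hx'
    have h2 := Filter.inter_mem hx h1
    rw [tr_compl, inter_compl_self] at h2
    exact (flt_neBot hu x).ne (Filter.empty_mem_iff_bot.1 h2)

theorem decided_tr {K : Set (Sp u)} (hK : IsClopen K) (i : I) :
    tr K ∈ u i ∨ (tr K)ᶜ ∈ u i := by
  by_cases hx : ix u i ∈ K
  · exact Or.inl (trace_mem hK.isOpen hx)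
  · exact Or.inr (trace_mem hK.compl.isOpen hx)

theorem hat_subset_closure (hu : ∀ i, (u i).NeBot) (E : Set D) :
    hat u E ⊆ closure (pt u '' E) := by
  intro x hx
  have := flt_neBot hu x
  exact mem_closure_of_tendsto (tendsto_pt x) (Filter.mem_of_superset hx fun d hd => ⟨d, hd, rfl⟩)

/-- the closure of a union of clopen sets, when its trace is decided -/
theorem closure_sUnion (hu : ∀ i, (u i).NeBot) (𝒞 : Set (Set (Sp u)))
    (h𝒞 : ∀ U ∈ 𝒞, IsClopen U) (hE : ∀ i, tr (⋃₀ 𝒞) ∈ u i ∨ (tr (⋃₀ 𝒞))ᶜ ∈ u i) :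
    closure (⋃₀ 𝒞) = hat u (tr (⋃₀ 𝒞)) := by
  apply Subset.antisymm
  · refine closure_minimal ?_ (isClopen_hat_of_decided hu hE).isClosed
    refine sUnion_subset fun U hU => ?_
    rw [clopen_eq_hat hu (h𝒞 U hU)]
    refine hat_mono fun d hd => ?_
    exact ⟨U, hU, hd⟩
  · refine (hat_subset_closure hu _).trans (closure_mono ?_)
    rintro _ ⟨d, hd, rfl⟩
    exact hd

/-- compact sets of countably supported points lie in one `hat C`, `C` countable -/
theorem exists_countable_of_isCompact {K : Set (Sp u)} (hK : IsCompact K)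
    (h : ∀ x ∈ K, ∃ C ∈ flt u x, C.Countable) : ∃ C : Set D, C.Countable ∧ K ⊆ hat u C := by
  refine hK.induction_on (p := fun s => ∃ C : Set D, C.Countable ∧ s ⊆ hat u C) ?_ ?_ ?_ ?_
  · exact ⟨∅, countable_empty, empty_subset _⟩
  · rintro s t hst ⟨C, hC, hC'⟩; exact ⟨C, hC, hst.trans hC'⟩
  · rintro s t ⟨C, hC, hC'⟩ ⟨C1, hC1, hC1'⟩
    exact ⟨C ∪ C1, hC.union hC1, union_subset (hC'.trans (hat_mono subset_union_left))
      (hC1'.trans (hat_mono subset_union_right))⟩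
  · intro x hx
    obtain ⟨C, hC, hCc⟩ := h x hx
    exact ⟨hat u C, mem_nhdsWithin_of_mem_nhds ((isOpen_hat C).mem_nhds hC), C, hCc, Subset.rfl⟩

/-- The filter of complements of sets of cardinality at most `κ`. -/
def coLE (D : Type) (κ : Cardinal.{0}) (hκ : ℵ₀ ≤ κ) : Filter D where
  sets := {E | #(Eᶜ : Set D) ≤ κ}
  univ_sets := by simp
  sets_of_superset := fun {E F} hE hEF =>
    (Cardinal.mk_le_mk_of_subset (compl_subset_compl.2 hEF)).trans hE
  inter_sets := fun {E F} hE hF => by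
    have h1 : #(Eᶜ : Set D) ≤ κ := hE
    have h2 : #(Fᶜ : Set D) ≤ κ := hF
    change #((E ∩ F)ᶜ : Set D) ≤ κ
    rw [compl_inter]
    refine (Cardinal.mk_union_le _ _).trans ?_
    exact Cardinal.add_le_of_le hκ h1 h2

theorem mem_coLE {D : Type} {κ : Cardinal.{0}} {hκ : ℵ₀ ≤ κ} {E : Set D} :
    E ∈ coLE D κ hκ ↔ #(Eᶜ : Set D) ≤ κ := Iff.rfl

theorem compl_mem_coLE {D : Type} {κ : Cardinal.{0}} {hκ : ℵ₀ ≤ κ} {E : Set D} :
    Eᶜ ∈ coLE D κ hκ ↔ #E ≤ κ := by rw [mem_coLE, compl_compl]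

theorem cocount_coLE {D : Type} {κ : Cardinal.{0}} {hκ : ℵ₀ ≤ κ} {C : Set D} (hC : C.Countable) :
    Cᶜ ∈ coLE D κ hκ := compl_mem_coLE.2 ((Cardinal.le_aleph0_iff_set_countable.2 hC).trans hκ)

theorem neBot_coLE {D : Type} {κ : Cardinal.{0}} {hκ : ℵ₀ ≤ κ} (h : κ < #D) :
    (coLE D κ hκ).NeBot := by
  refine ⟨fun hb => ?_⟩
  have : (∅ : Set D) ∈ coLE D κ hκ := hb ▸ Filter.mem_bot
  rw [mem_coLE, compl_empty, Cardinal.mk_univ] at this
  exact absurd this (not_le.2 h)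

/-- small union -/
theorem mk_iUnion_le_of {D ι : Type} {κ : Cardinal.{0}} (hκ : ℵ₀ ≤ κ) (hι : #ι ≤ κ)
    (f : ι → Set D) (hf : ∀ i, #(f i) ≤ κ) : #(⋃ i, f i) ≤ κ := by
  refine (Cardinal.mk_iUnion_le_sum_mk).trans ?_
  refine (Cardinal.sum_le_sum _ (fun _ => κ) hf).trans ?_
  rw [Cardinal.sum_const']
  exact (mul_le_mul' hι le_rfl).trans (Cardinal.mul_eq_self hκ).le

/-! ### The one-point example -/

/-- `Set ℝ`, of size `2 ^ 𝔠` -/
abbrev BigD : Type := Set ℝ

theorem mk_bigD : 𝔠 < #BigD := by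
  rw [Cardinal.mk_set, Cardinal.mk_real]; exact Cardinal.cantor _

/-- The one-point system. -/
abbrev u1 : Unit → Filter BigD := fun _ => coLE BigD 𝔠 Cardinal.aleph0_le_continuum

theorem good1 : Good (fun _ : Unit => (Set.univ : Set BigD)) u1 where
  mem := fun _ => Filter.univ_mem
  cocount := fun _ _ hC => cocount_coLE hC
  nebot := fun _ => neBot_coLE mk_bigD
  ad := fun i j hij => (hij (Subsingleton.elim i j)).elim

/-- The one-point example. -/
abbrev X1 : Type := Sp u1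

theorem X1_cases (x : X1) : x = ix u1 () ∨ ∃ C ∈ flt u1 x, C.Countable := by
  rcases x with ⟨p, C, hC, hCc⟩ | ⟨w, S, hS, hSc⟩
  · exact Or.inr ⟨C, hC, hCc⟩
  · left
    have : w = pure () := by
      apply Ultrafilter.coe_injective
      have h1 := w.neBot
      have h2 : (w : Filter Unit) ≤ pure () := by
        rw [Filter.le_pure_iff]
        have : ({()} : Set Unit) = Set.univ := by ext; simp
        rw [this]; exact Filter.univ_mem
      exact le_antisymm h2 (by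
        have := (pure () : Ultrafilter Unit).unique h2
        rw [this])
    subst this
    rfl

theorem X1_closure (𝒞 : Set (Set X1)) (hc : 𝒞.Countable) (h : ∀ U ∈ 𝒞, IsClopen U) :
    IsClopen (closure (⋃₀ 𝒞)) := by
  have hdec : ∀ i, tr (⋃₀ 𝒞) ∈ u1 i ∨ (tr (⋃₀ 𝒞))ᶜ ∈ u1 i := by
    intro i
    by_cases hex : ∃ U ∈ 𝒞, tr U ∈ u1 i
    · obtain ⟨U, hU, hUi⟩ := hex
      left
      refine Filter.mem_of_superset hUi fun d hd => ?_
      exact ⟨U, hU, hd⟩
    · right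
      push Not at hex
      have h1 : ∀ U ∈ 𝒞, #(tr U) ≤ 𝔠 := fun U hU =>
        compl_mem_coLE.1 ((decided_tr (h U hU) i).resolve_left (hex U hU))
      refine compl_mem_coLE.2 ?_
      have h2 : tr (⋃₀ 𝒞) ⊆ ⋃ U : 𝒞, tr U.1 := by
        rintro d ⟨U, hU, hd⟩
        exact mem_iUnion.2 ⟨⟨U, hU⟩, hd⟩
      refine (Cardinal.mk_le_mk_of_subset h2).trans ?_
      refine mk_iUnion_le_of Cardinal.aleph0_le_continuum ?_ _ fun U => h1 U.1 U.2
      exact (Cardinal.le_aleph0_iff_set_countable.2 hc).trans Cardinal.aleph0_le_continuum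
  rw [closure_sUnion good1.nebot 𝒞 h hdec]
  exact isClopen_hat_of_decided good1.nebot hdec

/-- if `E` is small and uncountable then `hat E` is clopen, and compact subsets of it lie in
`hat C` with `C` countable -/
theorem X1_small {E : Set BigD} (hE : #E ≤ 𝔠) : IsClopen (hat u1 E) ∧ ix u1 () ∉ hat u1 E := by
  have h1 : Eᶜ ∈ u1 () := compl_mem_coLE.2 hE
  refine ⟨isClopen_hat_of_decided good1.nebot fun i => Or.inr h1, fun h2 => ?_⟩
  have h3 := Filter.inter_mem (ix_mem_hat.1 h2) h1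
  rw [inter_compl_self] at h3
  exact (good1.nebot ()).ne (Filter.empty_mem_iff_bot.1 h3)

theorem X1_compact_in_small {E : Set BigD} (hE : #E ≤ 𝔠) {K : Set X1} (hK : IsCompact K) :
    ∃ C : Set BigD, C.Countable ∧ K ∩ hat u1 E ⊆ hat u1 C := by
  refine exists_countable_of_isCompact (hK.inter_right (X1_small hE).1.isClosed) ?_
  rintro x ⟨-, hx⟩
  rcases X1_cases x with h | h
  · rw [h] at hx; exact ((X1_small hE).2 hx).elim
  · exact h

theorem X1_not_locally_compact (K : Set X1) (hK : IsCompact K) : K ∉ 𝓝 (ix u1 ()) := by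
  intro hn
  obtain ⟨E, hE, hEK⟩ := mem_nhds_iff'.1 hn
  have hE' : E ∈ u1 () := hE
  have h1 : #(Eᶜ : Set BigD) ≤ 𝔠 := hE'
  have h2 : 𝔠 ≤ #E := by
    by_contra hcon
    push Not at hcon
    have h3 : #BigD ≤ 𝔠 := by
      rw [← Cardinal.mk_sum_compl E]
      exact Cardinal.add_le_of_le Cardinal.aleph0_le_continuum hcon.le h1
    exact absurd h3 (not_le.2 mk_bigD)
  obtain ⟨G, hGE, hG⟩ := Cardinal.le_mk_iff_exists_subset.1 h2
  obtain ⟨C, hC, hKC⟩ := X1_compact_in_small hG.le hK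
  have h3 : G ⊆ C := by
    intro d hd
    have : pt u1 d ∈ K ∩ hat u1 G := ⟨hEK (pt_mem_hat.2 (hGE hd)), pt_mem_hat.2 hd⟩
    exact pt_mem_hat.1 (hKC this)
  have h4 : #G ≤ ℵ₀ := Cardinal.le_aleph0_iff_set_countable.2 (hC.mono h3)
  rw [hG] at h4
  exact absurd h4 (not_le.2 Cardinal.aleph0_lt_continuum)

/-- compact sets of `X1` meet the set of countably supported points in a closed set -/
theorem X1_kclosed (K : Set X1) (hK : IsCompact K) :
    ∃ C : Set BigD, C.Countable ∧ K \ {ix u1 ()} ⊆ hat u1 C := by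
  classical
  -- a maximal disjoint family of countable sets met by `K`
  let P : Set (Set (Set BigD)) := {𝒯 | (∀ C ∈ 𝒯, C.Countable ∧ (K ∩ hat u1 C).Nonempty) ∧
    𝒯.PairwiseDisjoint id}
  obtain ⟨𝒯, h𝒯, hmax⟩ : ∃ 𝒯, Maximal (fun 𝒯 => 𝒯 ∈ P) 𝒯 := by
    refine zorn_subset P ?_
    intro c hc hchain
    refine ⟨⋃₀ c, ⟨?_, ?_⟩, fun s hs => subset_sUnion_of_mem hs⟩
    · rintro C ⟨s, hs, hC⟩; exact (hc hs).1 C hC
    · exact (Set.pairwiseDisjoint_sUnion hchain.directedOn).2 fun s hs => (hc hs).2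
  by_cases hcount : 𝒯.Countable
  · refine ⟨⋃₀ 𝒯, hcount.sUnion fun C hC => (h𝒯.1 C hC).1, ?_⟩
    rintro x ⟨hxK, hx⟩
    rcases X1_cases x with h | ⟨C, hC, hCc⟩
    · exact (hx h).elim
    by_contra hcon
    -- `C \ ⋃₀ 𝒯` belongs to the filter of `x`
    have hxE : C \ ⋃₀ 𝒯 ∈ flt u1 x := by
      have hTc : (⋃₀ 𝒯).Countable := hcount.sUnion fun C hC => (h𝒯.1 C hC).1
      have hcl : IsClopen (hat u1 (⋃₀ 𝒯)) :=
        (X1_small ((Cardinal.le_aleph0_iff_set_countable.2 hTc).trans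
          Cardinal.aleph0_le_continuum)).1
      have h1 : x ∈ (hat u1 (⋃₀ 𝒯))ᶜ := hcon
      rw [compl_hat good1.nebot fun i => Or.inr (cocount_coLE hTc)] at h1
      exact Filter.inter_mem hC h1
    have hmem : insert (C \ ⋃₀ 𝒯) 𝒯 ∈ P := by
      refine ⟨?_, ?_⟩
      · rintro A (rfl | hA)
        · exact ⟨hCc.mono sdiff_subset, x, hxK, hxE⟩
        · exact h𝒯.1 A hA
      · refine h𝒯.2.insert fun A hA hne => ?_
        simp only [id]
        rw [Set.disjoint_left]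
        intro d hd hdA
        exact hd.2 ⟨A, hA, hdA⟩
    have hin : C \ ⋃₀ 𝒯 ∈ 𝒯 := hmax hmem (subset_insert _ _) (mem_insert _ _)
    have hemp : C \ ⋃₀ 𝒯 = ∅ := by
      ext d
      simp only [mem_empty_iff_false, iff_false]
      intro hd
      exact hd.2 ⟨_, hin, hd⟩
    rw [hemp] at hxE
    exact (flt_neBot good1.nebot x).ne (Filter.empty_mem_iff_bot.1 hxE)
  · exfalso
    have h1 : ℵ₀ < #𝒯 := by
      by_contra h
      exact hcount (Cardinal.le_aleph0_iff_set_countable.1 (not_lt.1 h))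
    obtain ⟨𝒮, h𝒮, h𝒮c⟩ : ∃ 𝒮 ⊆ 𝒯, #𝒮 = ℵ₁ := by
      rw [← Cardinal.le_mk_iff_exists_subset]
      rw [← Cardinal.succ_aleph0]
      exact Order.succ_le_of_lt h1
    have hal : ℵ₁ ≤ 𝔠 := Cardinal.aleph_one_le_continuum
    have hE : #(⋃₀ 𝒮 : Set BigD) ≤ 𝔠 := by
      rw [Set.sUnion_eq_iUnion]
      refine mk_iUnion_le_of Cardinal.aleph0_le_continuum (h𝒮c.le.trans hal) _ fun C => ?_
      exact (Cardinal.le_aleph0_iff_set_countable.2 (h𝒯.1 C.1 (h𝒮 C.2)).1).trans
        Cardinal.aleph0_le_continuum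
    obtain ⟨C, hC, hKC⟩ := X1_compact_in_small hE hK
    have hmeet : ∀ A : 𝒮, ∃ d ∈ C, d ∈ A.1 := by
      intro A
      obtain ⟨x, hxK, hxA⟩ := (h𝒯.1 A.1 (h𝒮 A.2)).2
      have h2 : x ∈ hat u1 C := hKC ⟨hxK, hat_mono (subset_sUnion_of_mem A.2) hxA⟩
      have h3 : C ∩ A.1 ∈ flt u1 x := Filter.inter_mem h2 hxA
      have h4 : (C ∩ A.1).Nonempty := by
        by_contra h5
        rw [Set.not_nonempty_iff_eq_empty] at h5
        rw [h5] at h3
        exact (flt_neBot good1.nebot x).ne (Filter.empty_mem_iff_bot.1 h3)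
      obtain ⟨d, hd1, hd2⟩ := h4
      exact ⟨d, hd1, hd2⟩
    choose f hf1 hf2 using hmeet
    have hinj : Function.Injective fun A : 𝒮 => (⟨f A, hf1 A⟩ : C) := by
      intro A B hAB
      have h5 : f A = f B := congrArg Subtype.val hAB
      by_contra hne
      have h6 : (A.1 : Set BigD) ≠ B.1 := fun h => hne (Subtype.ext h)
      have h7 := h𝒯.2 (h𝒮 A.2) (h𝒮 B.2) h6
      exact Set.disjoint_left.1 h7 (hf2 A) (h5 ▸ hf2 B)
    have h8 := Cardinal.mk_le_of_injective hinj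
    rw [h𝒮c] at h8
    exact absurd (h8.trans (Cardinal.le_aleph0_iff_set_countable.2 hC))
      (not_le.2 Cardinal.aleph0_lt_aleph_one)

theorem X1_compact_inter_closed (K : Set X1) (hK : IsCompact K) :
    IsClosed (K \ {ix u1 ()}) := by
  have := t2 good1
  obtain ⟨C, hC, hKC⟩ := X1_kclosed K hK
  have hcl := X1_small ((Cardinal.le_aleph0_iff_set_countable.2 hC).trans
          Cardinal.aleph0_le_continuum)
  have : K \ {ix u1 ()} = K ∩ hat u1 C := by
    apply Subset.antisymm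
    · exact fun x hx => ⟨hx.1, hKC hx⟩
    · rintro x ⟨hx, hxC⟩
      refine ⟨hx, ?_⟩
      rintro rfl
      exact hcl.2 hxC
  rw [this]
  exact hK.isClosed.inter hcl.1.isClosed

theorem X1_not_closed : ¬ IsClosed ({ix u1 ()}ᶜ : Set X1) := by
  intro h
  have hop : IsOpen ({ix u1 ()} : Set X1) := by simpa using h.isOpen_compl
  have h1 := trace_mem hop (mem_singleton _)
  have h2 : {d | pt u1 d ∈ ({ix u1 ()} : Set X1)} = ∅ := by
    ext d
    simp only [mem_ofPred_eq, mem_singleton_iff, mem_empty_iff_false, iff_false]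
    intro h3
    exact Sum.inl_ne_inr h3
  rw [h2] at h1
  exact (flt_neBot good1.nebot _).ne (Filter.empty_mem_iff_bot.1 h1)

end Pool.Agent.Helper614.PB
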