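import Pool.Agent.Helper614.PB2

/-!
Extension of functions, and the plank-like example which is not strongly zero-dimensional.
-/

open Set Filter Topology TopologicalSpace Cardinal

namespace Pool.Agent.Helper614.PB

variable {D I : Type} {u : I → Filter D} {R : I → Set D}

/-- A function on `D` into a compact Hausdorff space which converges along every `u i` extends
continuously. -/
theorem exists_ext (hu : ∀ i, (u i).NeBot) {Y : Type*} [TopologicalSpace Y] [CompactSpace Y]
    [T2Space Y] (f : D → Y) (hf : ∀ i, ∃ r, Tendsto f (u i) (𝓝 r)) :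
    ∃ F : Sp u → Y, Continuous F ∧ (∀ x, Tendsto f (flt u x) (𝓝 (F x))) ∧
      ∀ d, F (pt u d) = f d := by
  have h1 : ∀ x : Sp u, ∃ s, Tendsto f (flt u x) (𝓝 s) := by
    rintro (p | w)
    · obtain ⟨s, -, hs⟩ := (isCompact_univ (X := Y)).ultrafilter_le_nhds (p.1.map f) (by simp)
      exact ⟨s, hs⟩
    · choose r hr using hf
      obtain ⟨s, -, hs⟩ := (isCompact_univ (X := Y)).ultrafilter_le_nhds (w.1.map r) (by simp)
      refine ⟨s, ?_⟩
      intro V hV
      rw [Filter.mem_map]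
      change {i | f ⁻¹' V ∈ u i} ∈ w.1
      obtain ⟨V', hV'V, hV'o, hsV'⟩ := mem_nhds_iff.1 hV
      have h2 : r ⁻¹' V' ∈ (w.1 : Filter I) := hs (hV'o.mem_nhds hsV')
      refine w.1.mem_of_superset h2 fun i hi => ?_
      exact Filter.mem_of_superset (hr i (hV'o.mem_nhds hi)) (preimage_mono hV'V)
  choose F hF using h1
  refine ⟨F, ?_, hF, ?_⟩
  · rw [continuous_iff_continuousAt]
    intro x V hV
    obtain ⟨V', hV', hV'c, hV'V⟩ := exists_mem_nhds_isClosed_subset hV
    rw [Filter.mem_map, mem_nhds_iff']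
    refine ⟨f ⁻¹' V', hF x hV', fun y hy => hV'V ?_⟩
    have := flt_neBot hu y
    have h3 : F y ∈ closure V' := mem_closure_of_tendsto (hF y) hy
    rwa [hV'c.closure_eq] at h3
  · intro d
    have h4 := hF (pt u d)
    have h5 : flt u (pt u d) = pure d := rfl
    rw [h5] at h4
    exact (tendsto_nhds_unique h4 (tendsto_pure_nhds f d))

/-! ### The plank-like example -/

abbrev Lam : Type := BigD
abbrev Kap : Type := unitInterval × Set Lam
abbrev D4 : Type := (unitInterval × Lam) × Kap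
abbrev I4 : Type := Kap ⊕ (unitInterval × Lam)

theorem aleph0_le_Lam : ℵ₀ ≤ #Lam := (Cardinal.aleph0_le_continuum.trans mk_bigD.le)

/-- rows and columns -/
def R4 : I4 → Set D4
  | Sum.inl β => {d | d.2 = β}
  | Sum.inr q => {d | d.1 = q}

/-- the filters on rows and columns -/
def u4 : I4 → Filter D4
  | Sum.inl β => Filter.map (fun q => (q, β)) (𝓝 β.1 ×ˢ coLE Lam 𝔠 Cardinal.aleph0_le_continuum)
  | Sum.inr q => Filter.map (fun β => (q, β)) (coLE Kap #Lam aleph0_le_Lam)

theorem mk_Kap_fiber (N : Set Kap) (hN : #N ≤ #Lam) (r : unitInterval) :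
    ∃ s : Set Lam, (r, s) ∉ N := by
  by_contra hcon
  push Not at hcon
  have h1 : #(Set Lam) ≤ #N :=
    Cardinal.mk_le_of_injective (f := fun s => (⟨(r, s), hcon s⟩ : N)) (by
      intro s t hst
      have := congrArg Subtype.val hst
      exact congrArg Prod.snd this)
  rw [Cardinal.mk_set] at h1
  exact absurd (h1.trans hN) (not_le.2 (Cardinal.cantor _))

theorem mk_Kap : #Lam < #Kap := by
  by_contra hcon
  push Not at hcon
  obtain ⟨s, hs⟩ := mk_Kap_fiber Set.univ (by rwa [Cardinal.mk_univ]) 0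
  exact hs (mem_univ _)

theorem good4 : Good R4 u4 where
  mem := by
    rintro (β | q)
    · change (fun q => (q, β)) ⁻¹' {d : D4 | d.2 = β} ∈
        𝓝 β.1 ×ˢ coLE Lam 𝔠 Cardinal.aleph0_le_continuum
      simp
    · change (fun β => (q, β)) ⁻¹' {d : D4 | d.1 = q} ∈ coLE Kap #Lam aleph0_le_Lam
      simp
  cocount := by
    rintro (β | q) C hC
    · change (fun q => (q, β)) ⁻¹' Cᶜ ∈ 𝓝 β.1 ×ˢ coLE Lam 𝔠 Cardinal.aleph0_le_continuum
      have h1 : ((fun d : D4 => d.1.2) '' C).Countable := hC.image _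
      refine Filter.mem_of_superset (Filter.prod_mem_prod Filter.univ_mem (cocount_coLE h1)) ?_
      rintro ⟨t, α⟩ ⟨-, hα⟩ hC'
      exact hα ⟨_, hC', rfl⟩
    · change (fun β => (q, β)) ⁻¹' Cᶜ ∈ coLE Kap #Lam aleph0_le_Lam
      rw [preimage_compl]
      refine cocount_coLE (hC.preimage ?_)
      intro a b hab
      exact congrArg Prod.snd hab
  nebot := by
    rintro (β | q)
    · have := neBot_coLE (hκ := Cardinal.aleph0_le_continuum) mk_bigD
      exact Filter.map_neBot
    · have := neBot_coLE (hκ := aleph0_le_Lam) mk_Kap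
      exact Filter.map_neBot
  ad := by
    have aux : ∀ β q, ({d : D4 | d.2 = β} ∩ {d : D4 | d.1 = q}).Countable := by
      intro β q
      refine (countable_singleton (q, β)).mono ?_
      rintro ⟨a, b⟩ ⟨h1, h2⟩
      simp only [mem_ofPred_eq] at h1 h2
      simp [h1, h2]
    rintro (β | q) (β' | q') hij
    · refine countable_empty.mono ?_
      rintro d ⟨h1, h2⟩
      exact hij (congrArg Sum.inl (h1.symm.trans h2))
    · exact aux β q'
    · rw [inter_comm]; exact aux β' q
    · refine countable_empty.mono ?_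
      rintro d ⟨h1, h2⟩
      exact hij (congrArg Sum.inr (h1.symm.trans h2))

abbrev X4 : Type := Sp u4

theorem mk_uI_Lam : #(unitInterval × Lam) ≤ #Lam := by
  have h1 : Cardinal.mk unitInterval ≤ #Lam := by
    have : Cardinal.mk unitInterval ≤ 𝔠 := by
      rw [← Cardinal.mk_real]; exact Cardinal.mk_set_le _
    exact this.trans mk_bigD.le
  rw [Cardinal.mk_prod, Cardinal.lift_id, Cardinal.lift_id]
  exact (mul_le_mul' h1 le_rfl).trans (Cardinal.mul_eq_self aleph0_le_Lam).le

/-- Main combinatorial fact: a set decided by all the filters cannot separate the two ends. -/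
theorem no_sep (E : Set D4) (hE : ∀ i, E ∈ u4 i ∨ Eᶜ ∈ u4 i)
    (h0 : ∀ α β, ((0, α), β) ∈ E) (h1 : ∀ α β, ((1, α), β) ∉ E) : False := by
  let E' : Set (unitInterval × Lam) := {q | E ∈ u4 (Sum.inr q)}
  let N : unitInterval × Lam → Set Kap := fun q => {β | ¬ ((q, β) ∈ E ↔ q ∈ E')}
  have hN : ∀ q, #(N q) ≤ #Lam := by
    intro q
    by_cases hq : q ∈ E'
    · have h2 : (fun β => (q, β)) ⁻¹' E ∈ coLE Kap #Lam aleph0_le_Lam := hq
      refine (Cardinal.mk_le_mk_of_subset ?_).trans (mem_coLE.1 h2)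
      intro β hβ hβ'
      exact hβ ⟨fun _ => hq, fun _ => hβ'⟩
    · have h2 : (fun β => (q, β)) ⁻¹' Eᶜ ∈ coLE Kap #Lam aleph0_le_Lam :=
        (hE (Sum.inr q)).resolve_left hq
      refine (Cardinal.mk_le_mk_of_subset ?_).trans (mem_coLE.1 h2)
      intro β hβ hβ'
      exact hβ ⟨fun h => (hβ' h).elim, fun h => (hq h).elim⟩
  have hN' : #(⋃ q, N q) ≤ #Lam := mk_iUnion_le_of aleph0_le_Lam mk_uI_Lam N hN
  have key : ∀ r : unitInterval, ∃ U ∈ 𝓝 r, ∃ A ∈ coLE Lam 𝔠 Cardinal.aleph0_le_continuum,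
      U ×ˢ A ⊆ E' ∨ U ×ˢ A ⊆ E'ᶜ := by
    intro r
    obtain ⟨s, hs⟩ := mk_Kap_fiber _ hN' r
    have hs' : ∀ q, (q, ((r, s) : Kap)) ∈ E ↔ q ∈ E' := by
      intro q
      by_contra h
      exact hs (mem_iUnion.2 ⟨q, h⟩)
    rcases hE (Sum.inl (r, s)) with h | h
    · have h2 : (fun q => (q, ((r, s) : Kap))) ⁻¹' E ∈
        𝓝 r ×ˢ coLE Lam 𝔠 Cardinal.aleph0_le_continuum := h
      obtain ⟨U, hU, A, hA, hUA⟩ := Filter.mem_prod_iff.1 h2
      exact ⟨U, hU, A, hA, Or.inl fun q hq => (hs' q).1 (hUA hq)⟩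
    · have h2 : (fun q => (q, ((r, s) : Kap))) ⁻¹' Eᶜ ∈
        𝓝 r ×ˢ coLE Lam 𝔠 Cardinal.aleph0_le_continuum := h
      obtain ⟨U, hU, A, hA, hUA⟩ := Filter.mem_prod_iff.1 h2
      exact ⟨U, hU, A, hA, Or.inr fun q hq hq' => hUA hq ((hs' q).2 hq')⟩
  choose U hU A hA hUA using key
  have hAall : ⋂ r, A r ∈ coLE Lam 𝔠 Cardinal.aleph0_le_continuum := by
    rw [mem_coLE, compl_iInter]
    refine mk_iUnion_le_of Cardinal.aleph0_le_continuum ?_ _ fun r => mem_coLE.1 (hA r)
    rw [← Cardinal.mk_real]; exact Cardinal.mk_set_le _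
  have := neBot_coLE (hκ := Cardinal.aleph0_le_continuum) mk_bigD
  obtain ⟨α, hα⟩ := Filter.nonempty_of_mem hAall
  rw [mem_iInter] at hα
  let T : Set unitInterval := {t | (t, α) ∈ E'}
  have hT : ∀ r, U r ⊆ T ∨ U r ⊆ Tᶜ := by
    intro r
    rcases hUA r with h | h
    · exact Or.inl fun t ht => h ⟨ht, hα r⟩
    · exact Or.inr fun t ht => h ⟨ht, hα r⟩
  have hTo : IsOpen T := by
    rw [isOpen_iff_mem_nhds]
    intro r hr
    rcases hT r with h | h
    · exact Filter.mem_of_superset (hU r) h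
    · exact (h (mem_of_mem_nhds (hU r)) hr).elim
  have hTc : IsOpen Tᶜ := by
    rw [isOpen_iff_mem_nhds]
    intro r hr
    rcases hT r with h | h
    · exact (hr (h (mem_of_mem_nhds (hU r)))).elim
    · exact Filter.mem_of_superset (hU r) h
  have h0T : (0 : unitInterval) ∈ T := by
    change (fun β => (((0 : unitInterval), α), β)) ⁻¹' E ∈ coLE Kap #Lam aleph0_le_Lam
    have : (fun β => (((0 : unitInterval), α), β)) ⁻¹' E = Set.univ := by
      ext β; simp [h0]
    rw [this]; exact Filter.univ_mem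
  have h1T : (1 : unitInterval) ∉ T := by
    intro h
    have h' : (fun β => (((1 : unitInterval), α), β)) ⁻¹' E ∈ coLE Kap #Lam aleph0_le_Lam := h
    have h3 : (fun β => (((1 : unitInterval), α), β)) ⁻¹' E = ∅ := by
      ext β; simp [h1]
    rw [h3] at h'
    exact (neBot_coLE (hκ := aleph0_le_Lam) mk_Kap).ne (Filter.empty_mem_iff_bot.1 h')
  have hcl : IsClopen T := ⟨⟨hTc⟩, hTo⟩
  rcases isClopen_iff.1 hcl with h | h
  · rw [h] at h0T; exact h0T
  · rw [h] at h1T; exact h1T (mem_univ _)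

/-- There is a continuous function to the unit interval such that no clopen set separates the
preimages of the end points. -/
theorem exists_fun4 : ∃ F : X4 → unitInterval, Continuous F ∧
    ∀ K : Set X4, IsClopen K → F ⁻¹' {0} ⊆ K → Disjoint K (F ⁻¹' {1}) → False := by
  obtain ⟨F, hFc, -, hF⟩ := exists_ext (u := u4) good4.nebot (fun d : D4 => d.1.1) (by
    rintro (β | q)
    · refine ⟨β.1, ?_⟩
      change Tendsto (fun d : D4 => d.1.1) (Filter.map (fun q => (q, β)) _) _
      rw [Filter.tendsto_map'_iff]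
      exact Filter.tendsto_fst
    · refine ⟨q.1, ?_⟩
      change Tendsto (fun d : D4 => d.1.1) (Filter.map (fun β => (q, β)) _) _
      rw [Filter.tendsto_map'_iff]
      exact tendsto_const_nhds)
  refine ⟨F, hFc, fun K hK h0 h1 => ?_⟩
  refine no_sep (tr K) (decided_tr hK) ?_ ?_
  · intro α β
    exact h0 (by rw [mem_preimage, hF]; rfl)
  · intro α β hmem
    exact Set.disjoint_left.1 h1 hmem (by rw [mem_preimage, hF]; rfl)

/-- A compact space with a base of clopen sets: disjoint closed sets are separated by clopen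
sets. -/
theorem exists_clopen_sep {Y : Type*} [TopologicalSpace Y] [CompactSpace Y]
    (hb : IsTopologicalBasis {U : Set Y | IsClopen U}) {A B : Set Y} (hA : IsClosed A)
    (hB : IsClosed B) (hAB : Disjoint A B) : ∃ W, IsClopen W ∧ A ⊆ W ∧ Disjoint W B := by
  refine hA.isCompact.induction_on (p := fun s => ∃ W, IsClopen W ∧ s ⊆ W ∧ Disjoint W B)
    ?_ ?_ ?_ ?_
  · exact ⟨∅, isClopen_empty, Subset.rfl, Set.empty_disjoint B⟩
  · rintro s t hst ⟨W, h1, h2, h3⟩; exact ⟨W, h1, hst.trans h2, h3⟩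
  · rintro s t ⟨W, h1, h2, h3⟩ ⟨W', h1', h2', h3'⟩
    exact ⟨W ∪ W', h1.union h1', union_subset_union h2 h2', h3.union_left h3'⟩
  · intro x hx
    obtain ⟨W, hW, hxW, hWB⟩ := hb.exists_subset_of_mem_open
      (Set.disjoint_left.1 hAB hx : x ∈ Bᶜ) hB.isOpen_compl
    exact ⟨W, mem_nhdsWithin_of_mem_nhds (hW.isOpen.mem_nhds hxW), W, hW, Subset.rfl,
      Set.disjoint_left.2 fun y hy hy' => hWB hy hy'⟩

theorem X4_not_szd : ¬ IsTopologicalBasis {U : Set (StoneCech X4) | IsClopen U} := by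
  intro hb
  obtain ⟨F, hFc, hF⟩ := exists_fun4
  have hG : Continuous (stoneCechExtend hFc) := continuous_stoneCechExtend hFc
  have hGF : ∀ x, stoneCechExtend hFc (stoneCechUnit x) = F x := fun x =>
    congrFun (stoneCechExtend_extends hFc) x
  obtain ⟨W, hW, h0, h1⟩ := exists_clopen_sep hb
    (A := stoneCechExtend hFc ⁻¹' {0}) (B := stoneCechExtend hFc ⁻¹' {1})
    (isClosed_singleton.preimage hG) (isClosed_singleton.preimage hG) (by
      rw [Set.disjoint_left]
      intro x hx hx'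
      rw [mem_preimage, mem_singleton_iff] at hx hx'
      rw [hx] at hx'
      exact zero_ne_one hx')
  refine hF (stoneCechUnit ⁻¹' W) (hW.preimage continuous_stoneCechUnit) ?_ ?_
  · intro x hx
    apply h0
    rw [mem_preimage, hGF]; exact hx
  · rw [Set.disjoint_left]
    intro x hx hx'
    refine Set.disjoint_left.1 h1 hx ?_
    rw [mem_preimage, hGF]; exact hx'

end Pool.Agent.Helper614.PB
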