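import Pool.Agent.Helper614.PB3

/-!
A one-point example which is an F-space but not basically disconnected.
-/

open Set Filter Topology TopologicalSpace

namespace Pool.Agent.Helper614.PB

abbrev D5 : Type := (ℕ × ℝ) ⊕ ℝ

theorem cocountable_real_neBot : (Filter.cocountable : Filter ℝ).NeBot := by
  refine ⟨fun hb => ?_⟩
  have h : (∅ : Set ℝ) ∈ (Filter.cocountable : Filter ℝ) := hb ▸ Filter.mem_bot
  rw [Filter.mem_cocountable, compl_empty] at h
  exact Cardinal.not_countable_real h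

instance baseNeBot : ((atTop : Filter ℕ) ×ˢ (Filter.cocountable : Filter ℝ)).NeBot := by
  have := cocountable_real_neBot
  infer_instance

/-- an ultrafilter on `ℕ × ℝ` containing no countable set and not countably complete -/
noncomputable def q5 : Ultrafilter (ℕ × ℝ) :=
  Ultrafilter.of ((atTop : Filter ℕ) ×ˢ (Filter.cocountable : Filter ℝ))

theorem q5_ge (n : ℕ) : {p : ℕ × ℝ | n ≤ p.1} ∈ q5 := by
  refine Ultrafilter.of_le _ ?_
  refine Filter.mem_of_superset (Filter.prod_mem_prod (Filter.mem_atTop n) Filter.univ_mem) ?_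
  rintro p ⟨h, -⟩
  exact h

theorem q5_cocount {C : Set (ℕ × ℝ)} (hC : C.Countable) : Cᶜ ∈ q5 := by
  refine Ultrafilter.of_le _ ?_
  have h1 : (Prod.snd '' C)ᶜ ∈ (Filter.cocountable : Filter ℝ) := by
    rw [Filter.mem_cocountable, compl_compl]; exact hC.image _
  refine Filter.mem_of_superset (Filter.prod_mem_prod Filter.univ_mem h1) ?_
  rintro p ⟨-, h⟩ hp
  exact h ⟨p, hp, rfl⟩

noncomputable def u5 : Unit → Filter D5 := fun _ =>
  Filter.map Sum.inl (q5 : Filter (ℕ × ℝ)) ⊔ Filter.map Sum.inr (Filter.cocountable : Filter ℝ)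

theorem mem_u5 {E : Set D5} : E ∈ u5 () ↔ Sum.inl ⁻¹' E ∈ q5 ∧ (Sum.inr ⁻¹' E)ᶜ.Countable := by
  unfold u5
  rw [Filter.mem_sup, Filter.mem_map, Filter.mem_map, Filter.mem_cocountable]
  rfl

theorem good5 : Good (fun _ : Unit => (Set.univ : Set D5)) u5 where
  mem := fun _ => Filter.univ_mem
  cocount := fun _ C hC => mem_u5.2 ⟨by
    rw [preimage_compl]; exact q5_cocount (hC.preimage Sum.inl_injective), by
    rw [preimage_compl, compl_compl]; exact hC.preimage Sum.inr_injective⟩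
  nebot := fun _ => by
    have : (q5 : Filter (ℕ × ℝ)).NeBot := q5.neBot
    unfold u5
    infer_instance
  ad := fun i j hij => (hij (Subsingleton.elim i j)).elim

abbrev X5 : Type := Sp u5

theorem X5_ix (x : X5) (hx : ∀ C ∈ flt u5 x, ¬ C.Countable) : x = ix u5 () := by
  rcases x with ⟨p, C, hC, hCc⟩ | ⟨w, S, hS, hSc⟩
  · exact (hx C hC hCc).elim
  · have : w = pure () := by
      apply Ultrafilter.coe_injective
      have h1 := w.neBot
      have h2 : (w : Filter Unit) ≤ pure () := by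
        rw [Filter.le_pure_iff]
        have : ({()} : Set Unit) = Set.univ := by ext; simp
        rw [this]; exact Filter.univ_mem
      exact le_antisymm h2 (by
        have := (pure () : Ultrafilter Unit).unique h2
        rw [this])
    subst this
    rfl

/-- The clopen sets whose union has a non-clopen closure. -/
def E5 (n : ℕ) : Set D5 := Sum.inl '' {p | p.1 < n}

theorem E5_decided (n : ℕ) (i : Unit) : E5 n ∈ u5 i ∨ (E5 n)ᶜ ∈ u5 i := by
  right
  refine mem_u5.2 ⟨?_, ?_⟩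
  · refine q5.mem_of_superset (q5_ge n) ?_
    rintro p hp ⟨p', hp', h⟩
    have := Sum.inl_injective h
    subst this
    have hp1 : p'.1 < n := hp'
    have hp2 : n ≤ p'.1 := hp
    omega
  · refine countable_empty.mono ?_
    intro y hy
    obtain ⟨p', -, h⟩ := not_not.1 (fun h => hy h)
    exact (Sum.inl_ne_inr h)

theorem X5_not_bd : ∃ 𝒞 : Set (Set X5), 𝒞.Countable ∧ (∀ U ∈ 𝒞, IsClopen U) ∧
    ¬ IsClopen (closure (⋃₀ 𝒞)) := by
  refine ⟨Set.range fun n => hat u5 (E5 n), countable_range _, ?_, ?_⟩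
  · rintro _ ⟨n, rfl⟩
    exact isClopen_hat_of_decided good5.nebot (E5_decided n)
  · intro hcl
    have hinf : ix u5 () ∈ closure (⋃₀ (Set.range fun n => hat u5 (E5 n))) := by
      rw [mem_closure_iff_nhds]
      intro U hU
      obtain ⟨E, hE, hEU⟩ := mem_nhds_iff'.1 hU
      have hE' := (mem_u5.1 hE).1
      obtain ⟨p, hp⟩ := q5.nonempty_of_mem hE'
      refine ⟨pt u5 (Sum.inl p), hEU (pt_mem_hat.2 hp), hat u5 (E5 (p.1 + 1)), ⟨_, rfl⟩, ?_⟩
      exact pt_mem_hat.2 ⟨p, Nat.lt_succ_self _, rfl⟩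
    have h1 := trace_mem hcl.isOpen hinf
    have h2 := (mem_u5.1 h1).2
    obtain ⟨y, hy⟩ : ∃ y : ℝ, pt u5 (Sum.inr y) ∈
        closure (⋃₀ (Set.range fun n => hat u5 (E5 n))) := by
      by_contra hcon
      push Not at hcon
      apply Cardinal.not_countable_real
      refine h2.mono ?_
      intro y _ hy'
      exact hcon y hy'
    rw [mem_closure_iff_nhds] at hy
    obtain ⟨z, hz1, V, ⟨n, rfl⟩, hz2⟩ := hy (hat u5 {Sum.inr y})
      ((isOpen_hat _).mem_nhds (pt_mem_hat.2 (mem_singleton _)))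
    have hz : z ∈ hat u5 ({Sum.inr y} ∩ E5 n) := by rw [hat_inter]; exact ⟨hz1, hz2⟩
    have h3 : ({Sum.inr y} ∩ E5 n : Set D5) = ∅ := by
      ext d
      simp only [mem_inter_iff, mem_singleton_iff, mem_empty_iff_false, iff_false, not_and]
      rintro rfl ⟨p', -, h⟩
      exact Sum.inl_ne_inr h
    rw [h3, hat_empty good5.nebot] at hz
    exact hz

/-- Every bounded continuous function on a cozero set extends. -/
theorem X5_ext (g : C(X5, ℝ)) (f : BoundedContinuousFunction {x : X5 | g x ≠ 0} ℝ) :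
    ∃ F : BoundedContinuousFunction X5 ℝ, ∀ x : {x : X5 | g x ≠ 0}, F x = f x := by
  classical
  let M : ℝ := ‖f‖
  have hM : 0 ≤ M := norm_nonneg f
  let Y : Type := Set.Icc (-M) M
  have hY : ∀ x, f x ∈ Set.Icc (-M) M := fun x => abs_le.1 (f.norm_coe_le_norm x)
  let z0 : Y := ⟨0, by constructor <;> simpa using hM⟩
  let F0 : Y → D5 → Y := fun r d => if h : g (pt u5 d) ≠ 0 then ⟨f ⟨pt u5 d, h⟩, hY _⟩ else r
  have hpos : ∀ (r : Y) (d : D5) (h : g (pt u5 d) ≠ 0), F0 r d = ⟨f ⟨pt u5 d, h⟩, hY _⟩ :=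
    fun r d h => dif_pos h
  have hneg : ∀ (r : Y) (d : D5), ¬ g (pt u5 d) ≠ 0 → F0 r d = r :=
    fun r d h => dif_neg h
  -- convergence at points of the cozero set
  have hS : ∀ (r : Y) (x : X5) (hx : g x ≠ 0),
      Tendsto (F0 r) (flt u5 x) (𝓝 (⟨f ⟨x, hx⟩, hY _⟩ : Y)) := by
    intro r x hx
    rw [tendsto_subtype_rng]
    intro V hV
    have h1 : f ⁻¹' V ∈ 𝓝 (⟨x, hx⟩ : {x : X5 | g x ≠ 0}) :=
      f.continuous.continuousAt hV
    rw [nhds_subtype_eq_comap, Filter.mem_comap] at h1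
    obtain ⟨W, hW, hWV⟩ := h1
    have hSo : IsOpen {x : X5 | g x ≠ 0} := isOpen_ne_fun g.continuous continuous_const
    have h2 : pt u5 ⁻¹' (W ∩ {x : X5 | g x ≠ 0}) ∈ flt u5 x :=
      tendsto_pt x (Filter.inter_mem hW (hSo.mem_nhds hx))
    rw [Filter.mem_map]
    refine Filter.mem_of_superset h2 ?_
    rintro d ⟨hd1, hd2⟩
    have hd2' : g (pt u5 d) ≠ 0 := hd2
    rw [mem_preimage, hpos r d hd2']
    exact hWV (show (⟨pt u5 d, hd2'⟩ : {x : X5 | g x ≠ 0}) ∈ Subtype.val ⁻¹' W from hd1)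
  -- choose the value `r`
  have hconv : ∃ r : Y, ∀ i, ∃ s, Tendsto (F0 r) (u5 i) (𝓝 s) := by
    by_cases hg : g (ix u5 ()) ≠ 0
    · exact ⟨z0, fun _ => ⟨_, hS z0 (ix u5 ()) hg⟩⟩
    push Not at hg
    have hr : ∀ r : Y, Tendsto (F0 r) (Filter.map Sum.inr (Filter.cocountable : Filter ℝ))
        (𝓝 r) := by
      intro r
      have h1 : ∀ n : ℕ, {y : ℝ | |g (pt u5 (Sum.inr y))| < 1 / ((n : ℝ) + 1)}ᶜ.Countable := by
        intro n
        have hop : IsOpen {x : X5 | |g x| < 1 / ((n : ℝ) + 1)} :=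
          isOpen_lt (g.continuous.abs) continuous_const
        have h2 := trace_mem hop (x := ix u5 ()) (by
          change |g (ix u5 ())| < _
          rw [hg, abs_zero]; positivity)
        exact (mem_u5.1 h2).2
      have h3 : {y : ℝ | g (pt u5 (Sum.inr y)) = 0} ∈ (Filter.cocountable : Filter ℝ) := by
        rw [Filter.mem_cocountable]
        refine (countable_iUnion h1).mono ?_
        intro y hy
        rw [mem_compl_iff, mem_ofPred_eq] at hy
        obtain ⟨n, hn⟩ := exists_nat_one_div_lt (abs_pos.2 hy)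
        exact mem_iUnion.2 ⟨n, by
          rw [mem_compl_iff, mem_ofPred_eq, not_lt]; exact hn.le⟩
      rw [Filter.tendsto_map'_iff]
      refine (tendsto_const_nhds (x := r)).congr' ?_
      refine Filter.mem_of_superset h3 ?_
      intro y hy
      have hy' : ¬ g (pt u5 (Sum.inr y)) ≠ 0 := by simpa using hy
      exact (hneg r (Sum.inr y) hy').symm
    by_cases hA : {a | g (pt u5 (Sum.inl a)) ≠ 0} ∈ q5
    · obtain ⟨r, -, hr'⟩ := (isCompact_univ (X := Y)).ultrafilter_le_nhds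
        (q5.map fun a => F0 z0 (Sum.inl a)) (by simp)
      refine ⟨r, fun _ => ⟨r, ?_⟩⟩
      refine Filter.Tendsto.sup ?_ (hr r)
      rw [Filter.tendsto_map'_iff]
      have h4 : Tendsto (fun a => F0 z0 (Sum.inl a)) q5 (𝓝 r) := hr'
      refine h4.congr' ?_
      refine Filter.mem_of_superset hA ?_
      intro a ha
      have ha' : g (pt u5 (Sum.inl a)) ≠ 0 := ha
      change F0 z0 (Sum.inl a) = F0 r (Sum.inl a)
      rw [hpos _ _ ha', hpos _ _ ha']
    · have hA' : {a | g (pt u5 (Sum.inl a)) ≠ 0}ᶜ ∈ q5 := Ultrafilter.compl_mem_iff_notMem.2 hA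
      refine ⟨z0, fun _ => ⟨z0, ?_⟩⟩
      refine Filter.Tendsto.sup ?_ (hr z0)
      rw [Filter.tendsto_map'_iff]
      refine (tendsto_const_nhds (x := z0)).congr' ?_
      refine Filter.mem_of_superset hA' ?_
      intro a ha
      exact (hneg z0 (Sum.inl a) ha).symm
  obtain ⟨r, hr⟩ := hconv
  obtain ⟨F, hFc, hF, -⟩ := exists_ext (u := u5) good5.nebot (F0 r) hr
  refine ⟨BoundedContinuousFunction.ofNormedAddCommGroup (fun x => (F x : ℝ))
    (continuous_subtype_val.comp hFc) M (fun x => abs_le.2 (F x).2), ?_⟩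
  rintro ⟨x, hx⟩
  have := flt_neBot good5.nebot x
  have h5 := tendsto_nhds_unique (hF x) (hS r x hx)
  change ((F x : Y) : ℝ) = _
  rw [h5]

end Pool.Agent.Helper614.PB
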