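import Pool.Agent.Helper614.PB3

/-!
The plank example: a non-normal space with a cocompact pretty base.
-/

open Set Filter Topology TopologicalSpace Cardinal

namespace Pool.Agent.Helper614.PB

abbrev D6 : Type := ℝ × Set ℝ
abbrev I6 : Type := Set ℝ ⊕ ℝ

/-- rows and columns -/
def R6 : I6 → Set D6
  | Sum.inl β => {d | d.2 = β}
  | Sum.inr α => {d | d.1 = α}

/-- the filters on rows and columns -/
def u6 : I6 → Filter D6
  | Sum.inl β => Filter.map (fun α => (α, β)) (coLE ℝ ℵ₀ le_rfl)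
  | Sum.inr α => Filter.map (fun β => (α, β)) (coLE (Set ℝ) 𝔠 Cardinal.aleph0_le_continuum)

theorem real_neBot : (coLE ℝ ℵ₀ le_rfl).NeBot :=
  neBot_coLE (by rw [Cardinal.mk_real]; exact Cardinal.aleph0_lt_continuum)

theorem setreal_neBot : (coLE (Set ℝ) 𝔠 Cardinal.aleph0_le_continuum).NeBot :=
  neBot_coLE mk_bigD

theorem good6 : Good R6 u6 where
  mem := by
    rintro (β | α)
    · change (fun α => (α, β)) ⁻¹' {d : D6 | d.2 = β} ∈ coLE ℝ ℵ₀ le_rfl
      simp
    · change (fun β => (α, β)) ⁻¹' {d : D6 | d.1 = α} ∈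
        coLE (Set ℝ) 𝔠 Cardinal.aleph0_le_continuum
      simp
  cocount := by
    rintro (β | α) C hC
    · change (fun α => (α, β)) ⁻¹' Cᶜ ∈ coLE ℝ ℵ₀ le_rfl
      rw [preimage_compl]
      refine cocount_coLE (hC.preimage ?_)
      intro a b hab
      exact congrArg Prod.fst hab
    · change (fun β => (α, β)) ⁻¹' Cᶜ ∈ coLE (Set ℝ) 𝔠 Cardinal.aleph0_le_continuum
      rw [preimage_compl]
      refine cocount_coLE (hC.preimage ?_)
      intro a b hab
      exact congrArg Prod.snd hab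
  nebot := by
    rintro (β | α)
    · have := real_neBot
      exact Filter.map_neBot
    · have := setreal_neBot
      exact Filter.map_neBot
  ad := by
    have aux : ∀ β α, ({d : D6 | d.2 = β} ∩ {d : D6 | d.1 = α}).Countable := by
      intro β q
      refine (countable_singleton (q, β)).mono ?_
      rintro ⟨a, b⟩ ⟨h1, h2⟩
      simp only [mem_ofPred_eq] at h1 h2
      simp [h1, h2]
    rintro (β | q) (β' | q') hij
    · refine countable_empty.mono ?_
      rintro d ⟨h1, h2⟩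
      exact hij (congrArg Sum.inl (h1.symm.trans h2))
    · exact aux β q'
    · rw [inter_comm]; exact aux β' q
    · refine countable_empty.mono ?_
      rintro d ⟨h1, h2⟩
      exact hij (congrArg Sum.inr (h1.symm.trans h2))

abbrev X6 : Type := Sp u6

/-- a countable union of rows meets every column in a small set, and conversely -/
theorem exists_nhd6 (x : X6) : ∃ E ∈ flt u6 x, (∀ β, E ∉ u6 (Sum.inl β)) ∨
    (∀ α, E ∉ u6 (Sum.inr α)) := by
  have hnot : ∀ (i : I6) (E : Set D6), (E ∩ R6 i).Countable → E ∉ u6 i := by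
    intro i E hE hEi
    have h4 := Filter.inter_mem (Filter.inter_mem hEi (good6.mem i)) (good6.cocount i _ hE)
    rw [inter_compl_self] at h4
    exact (good6.nebot i).ne (Filter.empty_mem_iff_bot.1 h4)
  rcases x with ⟨p, C, hC, hCc⟩ | ⟨w, S, hS, hSc⟩
  · exact ⟨C, hC, Or.inl fun β => hnot _ _ (hCc.mono inter_subset_left)⟩
  · have hgen : ∀ (T : Set I6), T ∈ w → ∀ i ∉ S ∩ T,
        ⋃ j ∈ S ∩ T, R6 j ∉ u6 i := by
      intro T _ i hi
      refine hnot i _ ?_
      have h1 : (⋃ j ∈ S ∩ T, R6 j ∩ R6 i).Countable :=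
        (hSc.mono inter_subset_left).biUnion fun j hj => good6.ad j i (by
          rintro rfl; exact hi hj)
      refine h1.mono ?_
      rintro d ⟨hd, hdi⟩
      simp only [mem_iUnion, exists_prop] at hd ⊢
      obtain ⟨j, hj, hdj⟩ := hd
      exact ⟨j, hj, hdj, hdi⟩
    have hin : ∀ (T : Set I6), T ∈ w → {i | (⋃ j ∈ S ∩ T, R6 j) ∈ u6 i} ∈ w := by
      intro T hT
      refine w.mem_of_superset (w.inter_mem hS hT) fun i hi => ?_
      exact Filter.mem_of_superset (good6.mem i) (subset_biUnion_of_mem (u := fun i => R6 i) hi)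
    by_cases hT : Set.range (Sum.inl : Set ℝ → I6) ∈ w
    · refine ⟨⋃ j ∈ S ∩ Set.range Sum.inl, R6 j, hin _ hT, Or.inr fun α => hgen _ hT _ ?_⟩
      rintro ⟨-, β, hβ⟩
      exact Sum.inl_ne_inr hβ
    · have hT' : (Set.range (Sum.inl : Set ℝ → I6))ᶜ ∈ w :=
        Ultrafilter.compl_mem_iff_notMem.2 hT
      refine ⟨⋃ j ∈ S ∩ (Set.range Sum.inl)ᶜ, R6 j, hin _ hT', Or.inl fun β => hgen _ hT' _ ?_⟩
      rintro ⟨-, h⟩
      exact h ⟨β, rfl⟩

theorem X6_not_normal : ∃ A B : Set X6, IsClosed A ∧ IsClosed B ∧ Disjoint A B ∧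
    ∀ U V : Set X6, IsOpen U → IsOpen V → A ⊆ U → B ⊆ V → ¬ Disjoint U V := by
  refine ⟨closure (Set.range fun β => ix u6 (Sum.inl β)),
    closure (Set.range fun α => ix u6 (Sum.inr α)), isClosed_closure, isClosed_closure, ?_, ?_⟩
  · rw [Set.disjoint_left]
    intro x hx1 hx2
    obtain ⟨E, hE, h | h⟩ := exists_nhd6 x
    · rw [mem_closure_iff_nhds] at hx1
      obtain ⟨y, hy, β, rfl⟩ := hx1 _ ((isOpen_hat E).mem_nhds hE)
      exact h β (ix_mem_hat.1 hy)
    · rw [mem_closure_iff_nhds] at hx2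
      obtain ⟨y, hy, α, rfl⟩ := hx2 _ ((isOpen_hat E).mem_nhds hE)
      exact h α (ix_mem_hat.1 hy)
  · intro U V hU hV hAU hBV hUV
    have h1 : ∀ β, tr U ∈ u6 (Sum.inl β) := fun β =>
      trace_mem hU (x := ix u6 (Sum.inl β)) (hAU (subset_closure ⟨β, rfl⟩))
    have h2 : ∀ α, tr V ∈ u6 (Sum.inr α) := fun α =>
      trace_mem hV (x := ix u6 (Sum.inr α)) (hBV (subset_closure ⟨α, rfl⟩))
    have h3 : #(⋃ α : ℝ, {β : Set ℝ | (α, β) ∉ tr V} : Set (Set ℝ)) ≤ 𝔠 := by
      refine mk_iUnion_le_of Cardinal.aleph0_le_continuum (Cardinal.mk_real.le) _ fun α => ?_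
      have h4 : (fun β => (α, β)) ⁻¹' tr V ∈ coLE (Set ℝ) 𝔠 Cardinal.aleph0_le_continuum := h2 α
      exact mem_coLE.1 h4
    obtain ⟨β, hβ⟩ : ∃ β : Set ℝ, ∀ α : ℝ, (α, β) ∈ tr V := by
      by_contra hcon
      push Not at hcon
      have h5 : (⋃ α : ℝ, {β : Set ℝ | (α, β) ∉ tr V}) = Set.univ := by
        ext β
        simp only [mem_iUnion, mem_univ, iff_true]
        exact hcon β
      rw [h5, Cardinal.mk_univ] at h3
      exact absurd h3 (not_le.2 mk_bigD)
    have h6 : (fun α => (α, β)) ⁻¹' tr U ∈ coLE ℝ ℵ₀ le_rfl := h1 β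
    have := real_neBot
    obtain ⟨α, hα⟩ := Filter.nonempty_of_mem h6
    exact Set.disjoint_left.1 hUV (show pt u6 (α, β) ∈ U from hα) (hβ α)

end Pool.Agent.Helper614.PB
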