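import Mathlib

/-!
A general construction of spaces with a cocompact pretty base.

Data: a set `D` (isolated points), an index set `T` (special points) with filters `u t` on `D`,
a family `small` of small subsets of `D` and a family `L` of subsets of `D`.
Points: ultrafilters on `D` containing a small set, ultrafilters on `T` containing a countable set.
-/

open Set Filter Topology TopologicalSpace

namespace Pool.Agent.Helper614.PC

variable {D T : Type}

/-- The underlying set of the space. -/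
def Sp (_u : T → Filter D) (small : Set (Set D)) : Type :=
  {p : Ultrafilter D // ∃ C ∈ p, C ∈ small} ⊕ {w : Ultrafilter T // ∃ S ∈ w, S.Countable}

variable (u : T → Filter D) (small : Set (Set D))

/-- The filter on `D` attached to a point. -/
def flt : Sp u small → Filter D
  | Sum.inl p => (p.1 : Filter D)
  | Sum.inr w => Filter.bind (w.1 : Filter T) u

/-- The basic sets. -/
def hat (E : Set D) : Set (Sp u small) := {x | E ∈ flt u small x}

instance : TopologicalSpace (Sp u small) := generateFrom (Set.range (hat u small))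

/-- The point attached to the index `t`. -/
def ix (t : T) : Sp u small :=
  Sum.inr ⟨(pure t : Ultrafilter T), {t}, by simp, countable_singleton t⟩

/-- Hypotheses on the data. -/
structure Good (L : Set (Set D)) : Prop where
  nebot : ∀ t, (u t).NeBot
  single : ∀ d, {d} ∈ small
  mono : ∀ Z ∈ small, ∀ Z' ⊆ Z, Z' ∈ small
  small_L : small ⊆ L
  small_compl : ∀ Z ∈ small, ∀ t, Zᶜ ∈ u t
  sUnion : ∀ 𝒞 : Set (Set D), 𝒞.Countable → 𝒞 ⊆ L → ⋃₀ 𝒞 ∈ L
  decided : ∀ E ∈ L, ∀ t, E ∈ u t ∨ Eᶜ ∈ u t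
  base : ∀ t, ∀ E ∈ u t, ∃ E' ∈ L, E' ⊆ E ∧ E' ∈ u t
  sep : ∀ S : Set T, S.Countable → ∃ G : T → Set D, (∀ t ∈ S, G t ∈ u t) ∧ S.PairwiseDisjoint G
  cpt : ∀ 𝒰 : Ultrafilter D, ∃ x : Sp u small, ∀ E ∈ L, E ∈ 𝒰 → E ∈ flt u small x

variable {u small}

/-- The isolated point attached to `d`. -/
def pt (hs : ∀ d, {d} ∈ small) (d : D) : Sp u small :=
  Sum.inl ⟨(pure d : Ultrafilter D), {d}, by simp, hs d⟩

theorem mem_hat {E : Set D} {x : Sp u small} : x ∈ hat u small E ↔ E ∈ flt u small x := Iff.rfl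

theorem pt_mem_hat (hs : ∀ d, {d} ∈ small) {E : Set D} {d : D} :
    pt hs d ∈ hat u small E ↔ d ∈ E := Iff.rfl

theorem ix_mem_hat {E : Set D} {i : T} : ix u small i ∈ hat u small E ↔ E ∈ u i := Iff.rfl

theorem hat_inter (E F : Set D) :
    hat u small (E ∩ F) = hat u small E ∩ hat u small F := by
  ext x; simp [mem_hat, Filter.inter_mem_iff]

theorem hat_mono {E F : Set D} (h : E ⊆ F) : hat u small E ⊆ hat u small F := fun _ hx =>
  Filter.mem_of_superset hx h

theorem hat_univ : hat u small (univ : Set D) = univ := by ext x; simp [mem_hat]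

theorem isOpen_hat (E : Set D) : IsOpen (hat u small E) := isOpen_generateFrom_of_mem ⟨E, rfl⟩

theorem flt_neBot (hu : ∀ i, (u i).NeBot) (x : Sp u small) : (flt u small x).NeBot := by
  rcases x with p | w
  · exact p.1.neBot
  · have : ∅ ∉ flt u small (Sum.inr w : Sp u small) := by
      intro h
      have h' : {i | (∅ : Set D) ∈ u i} ∈ w.1 := h
      have : {i | (∅ : Set D) ∈ u i} = ∅ := by
        ext i; simp only [mem_ofPred_eq, mem_empty_iff_false, iff_false]
        exact (hu i).ne ∘ Filter.empty_mem_iff_bot.1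
      rw [this] at h'
      exact w.1.empty_notMem h'
    exact ⟨fun h => this (h ▸ Filter.mem_bot)⟩

theorem hat_empty (hu : ∀ i, (u i).NeBot) : hat u small (∅ : Set D) = ∅ := by
  ext x
  simp only [mem_hat, mem_empty_iff_false, iff_false]
  exact (flt_neBot hu x).ne ∘ Filter.empty_mem_iff_bot.1

theorem isBasis_range : IsTopologicalBasis (Set.range (hat u small)) where
  exists_subset_inter := by
    rintro _ ⟨E, rfl⟩ _ ⟨F, rfl⟩ x hx
    exact ⟨_, ⟨E ∩ F, rfl⟩, by rwa [hat_inter], by rw [hat_inter]⟩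
  sUnion_eq := eq_univ_of_univ_subset (subset_sUnion_of_mem ⟨univ, hat_univ⟩)
  eq_generateFrom := rfl

theorem mem_nhds_iff' {x : Sp u small} {U : Set (Sp u small)} :
    U ∈ 𝓝 x ↔ ∃ E, E ∈ flt u small x ∧ hat u small E ⊆ U := by
  rw [isBasis_range.mem_nhds_iff]
  constructor
  · rintro ⟨_, ⟨E, rfl⟩, h1, h2⟩; exact ⟨E, h1, h2⟩
  · rintro ⟨E, h1, h2⟩; exact ⟨_, ⟨E, rfl⟩, h1, h2⟩

/-- `pt` converges to `x` along the filter of `x`. -/
theorem tendsto_pt (hs : ∀ d, {d} ∈ small) (x : Sp u small) :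
    Tendsto (pt hs) (flt u small x) (𝓝 x) := by
  intro U hU
  obtain ⟨E, hE, hEU⟩ := mem_nhds_iff'.1 hU
  rw [Filter.mem_map]
  refine Filter.mem_of_superset hE ?_
  intro d hd
  exact hEU ((pt_mem_hat hs).2 hd)

/-- trace of an open set belongs to the filter of each of its points -/
theorem trace_mem (hs : ∀ d, {d} ∈ small) {U : Set (Sp u small)} (hU : IsOpen U)
    {x : Sp u small} (hx : x ∈ U) :
    {d | pt hs d ∈ U} ∈ flt u small x := tendsto_pt hs x (hU.mem_nhds hx)

/-- `pt d` is isolated -/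
theorem isOpen_pt (hs : ∀ d, {d} ∈ small) (hm : ∀ t d, {d}ᶜ ∈ u t)
    (hu : ∀ i, (u i).NeBot) (d : D) : IsOpen {pt (u := u) hs d} := by
  have : ({pt (u := u) hs d} : Set (Sp u small)) = hat u small {d} := by
    ext x
    constructor
    · rintro rfl; exact (pt_mem_hat hs).2 rfl
    · intro hx
      rcases x with ⟨p, hp⟩ | w
      · have h1 : {d} ∈ p := hx
        obtain ⟨x, hx, h2⟩ := Ultrafilter.eq_pure_of_finite_mem (finite_singleton d) h1
        have h3 : x = d := hx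
        subst h3; subst h2
        rfl
      · exfalso
        have h1 : {i | ({d} : Set D) ∈ u i} ∈ w.1 := hx
        have h2 : {i | ({d} : Set D) ∈ u i} = ∅ := by
          ext i
          simp only [mem_ofPred_eq, mem_empty_iff_false, iff_false]
          intro h3
          have h4 := Filter.inter_mem h3 (hm i d)
          rw [inter_compl_self] at h4
          exact (hu i).ne (Filter.empty_mem_iff_bot.1 h4)
        rw [h2] at h1
        exact w.1.empty_notMem h1
  rw [this]; exact isOpen_hat _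

variable {L : Set (Set D)}

theorem exists_lat (h : Good u small L) {x : Sp u small} {E : Set D} (hE : E ∈ flt u small x) :
    ∃ F ∈ L, F ∈ flt u small x ∧ F ⊆ E := by
  rcases x with ⟨p, C, hC, hCc⟩ | ⟨w, S, hS, hSc⟩
  · exact ⟨E ∩ C, h.small_L (h.mono C hCc _ inter_subset_right),
      p.inter_mem hE hC, inter_subset_left⟩
  · have hE' : {i | E ∈ u i} ∈ w := hE
    have h1 : ∀ i : T, ∃ F, E ∈ u i → F ∈ L ∧ F ⊆ E ∧ F ∈ u i := by
      intro i
      by_cases hi : E ∈ u i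
      · obtain ⟨F, hF⟩ := h.base i E hi; exact ⟨F, fun _ => hF⟩
      · exact ⟨∅, fun h => (hi h).elim⟩
    choose F hF using h1
    refine ⟨⋃₀ (F '' (S ∩ {i | E ∈ u i})), ?_, ?_, ?_⟩
    · refine h.sUnion _ ((hSc.mono inter_subset_left).image _) ?_
      rintro _ ⟨i, hi, rfl⟩
      exact (hF i hi.2).1
    · change {i | (⋃₀ (F '' (S ∩ {i | E ∈ u i}))) ∈ u i} ∈ w
      refine w.mem_of_superset (w.inter_mem hS hE') ?_
      intro i hi
      exact Filter.mem_of_superset (hF i hi.2).2.2 (subset_sUnion_of_mem ⟨i, hi, rfl⟩)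
    · rintro x ⟨_, ⟨i, hi, rfl⟩, hx⟩
      exact (hF i hi.2).2.1 hx

theorem isBasis_lat (h : Good u small L) : IsTopologicalBasis (hat u small '' L) := by
  refine isTopologicalBasis_of_isOpen_of_nhds ?_ ?_
  · rintro _ ⟨E, -, rfl⟩; exact isOpen_hat E
  · intro x U hx hU
    obtain ⟨E, hE, hEU⟩ := mem_nhds_iff'.1 (hU.mem_nhds hx)
    obtain ⟨F, hF, hFx, hFE⟩ := exists_lat h hE
    exact ⟨_, ⟨F, hF, rfl⟩, hFx, (hat_mono hFE).trans hEU⟩

/-- decided sets have clopen hats -/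
theorem compl_hat (hu : ∀ i, (u i).NeBot) {E : Set D} (hE : ∀ i, E ∈ u i ∨ Eᶜ ∈ u i) :
    (hat u small E)ᶜ = hat u small Eᶜ := by
  ext x
  constructor
  · intro hx
    rcases x with p | w
    · exact (Ultrafilter.compl_mem_iff_notMem).2 hx
    · have hx' : {i | E ∈ u i} ∉ w.1 := hx
      change {i | Eᶜ ∈ u i} ∈ w.1
      refine w.1.mem_of_superset (Ultrafilter.compl_mem_iff_notMem.2 hx') ?_
      intro i hi
      exact (hE i).resolve_left hi
  · intro hx hx'
    have : x ∈ hat u small (E ∩ Eᶜ) := by rw [hat_inter]; exact ⟨hx', hx⟩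
    rw [inter_compl_self, hat_empty hu] at this
    exact this

theorem isClopen_hat (h : Good u small L) {E : Set D} (hE : E ∈ L) :
    IsClopen (hat u small E) :=
  ⟨⟨by rw [compl_hat h.nebot (h.decided E hE)]; exact isOpen_hat _⟩, isOpen_hat _⟩

theorem disjoint_of_hat (hs : ∀ d, {d} ∈ small) {E F : Set D}
    (h : Disjoint (hat u small E) (hat u small F)) : Disjoint E F := by
  rw [Set.disjoint_left] at h ⊢
  intro d hd hd'
  exact h ((pt_mem_hat hs).2 hd) ((pt_mem_hat hs).2 hd')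

theorem hat_disjoint (hu : ∀ i, (u i).NeBot) {E F : Set D} (h : Disjoint E F) :
    Disjoint (hat u small E) (hat u small F) := by
  rw [Set.disjoint_iff_inter_eq_empty] at h ⊢
  rw [← hat_inter, h, hat_empty hu]

theorem t2 (h : Good u small L) : T2Space (Sp u small) := by
  refine ⟨fun x y hxy => ?_⟩
  suffices ∃ E F : Set D, Disjoint E F ∧ E ∈ flt u small x ∧ F ∈ flt u small y by
    obtain ⟨E, F, hEF, hx, hy⟩ := this
    exact ⟨hat u small E, hat u small F, isOpen_hat E, isOpen_hat F, hx, hy,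
      hat_disjoint h.nebot hEF⟩
  rcases x with ⟨p, C, hC, hCc⟩ | ⟨w, S, hS, hSc⟩ <;>
    rcases y with ⟨q, C', hC', hCc'⟩ | ⟨w', S', hS', hSc'⟩
  · have hpq : p ≠ q := fun hpq => hxy (by subst hpq; rfl)
    obtain ⟨E, hE, hE'⟩ : ∃ E, E ∈ p ∧ E ∉ q := by
      by_contra hcon
      push Not at hcon
      exact hpq (Ultrafilter.eq_of_le (f := q) (g := p) hcon).symm
    exact ⟨E, Eᶜ, disjoint_compl_right, hE, Ultrafilter.compl_mem_iff_notMem.2 hE'⟩
  · refine ⟨C, Cᶜ, disjoint_compl_right, hC, ?_⟩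
    change {i | Cᶜ ∈ u i} ∈ w'
    have : {i | Cᶜ ∈ u i} = univ := by ext i; simp [h.small_compl C hCc i]
    rw [this]; exact w'.univ_mem
  · refine ⟨C'ᶜ, C', disjoint_compl_left, ?_, hC'⟩
    change {i | C'ᶜ ∈ u i} ∈ w
    have : {i | C'ᶜ ∈ u i} = univ := by ext i; simp [h.small_compl C' hCc' i]
    rw [this]; exact w.univ_mem
  · have hww : w ≠ w' := fun hpq => hxy (by subst hpq; rfl)
    obtain ⟨A, hA, hA'⟩ : ∃ E, E ∈ w ∧ E ∉ w' := by
      by_contra hcon
      push Not at hcon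
      exact hww (Ultrafilter.eq_of_le (f := w') (g := w) hcon).symm
    have hA'' : Aᶜ ∈ w' := Ultrafilter.compl_mem_iff_notMem.2 hA'
    obtain ⟨G, hG1, hG2⟩ := h.sep (S ∪ S') (hSc.union hSc')
    refine ⟨⋃ i ∈ S ∩ A, G i, ⋃ i ∈ S' ∩ Aᶜ, G i, ?_, ?_, ?_⟩
    · rw [Set.disjoint_left]
      intro x hx hx'
      simp only [mem_iUnion, exists_prop] at hx hx'
      obtain ⟨i, hi, hxi⟩ := hx
      obtain ⟨j, hj, hxj⟩ := hx'
      have hij : i ≠ j := by rintro rfl; exact hj.2 hi.2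
      exact Set.disjoint_left.1 (hG2 (Or.inl hi.1) (Or.inr hj.1) hij) hxi hxj
    · change {i | (⋃ i ∈ S ∩ A, G i) ∈ u i} ∈ w
      refine w.mem_of_superset (w.inter_mem hS hA) fun i hi => ?_
      exact Filter.mem_of_superset (hG1 i (Or.inl hi.1))
        (subset_biUnion_of_mem (u := fun i => G i) hi)
    · change {i | (⋃ i ∈ S' ∩ Aᶜ, G i) ∈ u i} ∈ w'
      refine w'.mem_of_superset (w'.inter_mem hS' hA'') fun i hi => ?_
      exact Filter.mem_of_superset (hG1 i (Or.inr hi.1))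
        (subset_biUnion_of_mem (u := fun i => G i) hi)

theorem t35 (h : Good u small L) : T35Space (Sp u small) := by
  have := t2 h
  have : CompletelyRegularSpace (Sp u small) :=
    CompletelyRegularSpace.of_isTopologicalBasis_clopens <| by
      refine isTopologicalBasis_of_isOpen_of_nhds (fun U hU => hU.2) ?_
      intro x U hx hU
      obtain ⟨V, ⟨E, hE, rfl⟩, hxV, hVU⟩ := (isBasis_lat h).exists_subset_of_mem_open hx hU
      exact ⟨_, isClopen_hat h hE, hxV, hVU⟩
  constructor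

/-- The nesting property of a pretty base. -/
theorem nested (h : Good u small L) (𝒞 𝒟 : Set (Set (Sp u small)))
    (h𝒞 : 𝒞 ⊆ hat u small '' L)
    (h𝒟 : 𝒟 ⊆ hat u small '' L) (hc : 𝒞.Countable)
    (hd : ∀ C ∈ 𝒞, ∀ D ∈ 𝒟, Disjoint C D) :
    ∃ W ∈ hat u small '' L, (∀ C ∈ 𝒞, C ⊆ W) ∧ ∀ D ∈ 𝒟, Disjoint W D := by
  have h1 : ∀ C : 𝒞, ∃ E ∈ L, hat u small E = C := fun C => h𝒞 C.2
  choose e he1 he2 using h1
  have := hc.to_subtype
  refine ⟨hat u small (⋃₀ Set.range e), ⟨_, h.sUnion _ (countable_range e) ?_, rfl⟩, ?_, ?_⟩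
  · rintro _ ⟨C, rfl⟩; exact he1 C
  · intro C hC
    have h3 : hat u small (e ⟨C, hC⟩) ⊆ hat u small (⋃₀ Set.range e) :=
      hat_mono (subset_sUnion_of_mem ⟨_, rfl⟩)
    rwa [he2 ⟨C, hC⟩] at h3
  · intro V hV
    obtain ⟨F, hF, rfl⟩ := h𝒟 hV
    refine hat_disjoint h.nebot ?_
    rw [Set.disjoint_sUnion_left]
    rintro _ ⟨C, rfl⟩
    exact disjoint_of_hat h.single (he2 C ▸ hd C C.2 _ hV)

/-- Compactness: families of base sets with the finite intersection property have a common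
point. -/
theorem fip (h : Good u small L) (𝒢 : Set (Set D)) (h𝒢 : 𝒢 ⊆ L)
    (hf : ∀ 𝒯 ⊆ 𝒢, 𝒯.Finite → (⋂₀ 𝒯).Nonempty) :
    ∃ x : Sp u small, ∀ E ∈ 𝒢, x ∈ hat u small E := by
  have hne : (Filter.generate 𝒢).NeBot := by
    rw [Filter.generate_neBot_iff]
    exact hf
  let P : Ultrafilter D := Ultrafilter.of (Filter.generate 𝒢)
  have hP : ∀ E ∈ 𝒢, E ∈ P := fun E hE =>
    Ultrafilter.of_le (Filter.generate 𝒢) (Filter.mem_generate_of_mem hE)
  obtain ⟨x, hx⟩ := h.cpt P
  exact ⟨x, fun E hE => hx E (h𝒢 hE) (hP E hE)⟩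

/-- The same for families of hats. -/
theorem fip' (h : Good u small L) (ℱ : Set (Set (Sp u small))) (hℱ : ℱ ⊆ hat u small '' L)
    (hf : ∀ 𝒯 ⊆ ℱ, 𝒯.Finite → (⋂₀ 𝒯).Nonempty) : (⋂₀ ℱ).Nonempty := by
  have hfin : ∀ 𝒰 : Set (Set D), 𝒰.Finite →
      hat u small (⋂₀ 𝒰) = ⋂₀ (hat u small '' 𝒰) := by
    intro 𝒰 h𝒰
    induction 𝒰, h𝒰 using Set.Finite.induction_on with
    | empty => simp [hat_univ]
    | insert _ _ ih => rw [sInter_insert, hat_inter, ih, image_insert_eq, sInter_insert]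
  obtain ⟨x, hx⟩ := fip h {E | E ∈ L ∧ hat u small E ∈ ℱ} (fun E hE => hE.1) (by
    intro 𝒯 h𝒯 hfin𝒯
    have h1 : (⋂₀ (hat u small '' 𝒯)).Nonempty :=
      hf _ (by rintro _ ⟨E, hE, rfl⟩; exact (h𝒯 hE).2) (hfin𝒯.image _)
    rw [← hfin _ hfin𝒯] at h1
    by_contra hcon
    rw [Set.not_nonempty_iff_eq_empty] at hcon
    rw [hcon, hat_empty h.nebot] at h1
    exact Set.not_nonempty_empty h1)
  refine ⟨x, ?_⟩
  intro A hA
  obtain ⟨E, hE, rfl⟩ := hℱ hA
  exact hx E ⟨hE, hA⟩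

/-- Cocompactness in the form: the topology generated by the complements of the closures of the
base sets is compact. -/
theorem cocompact (h : Good u small L) :
    @CompactSpace (Sp u small)
      (generateFrom {V | ∃ B ∈ hat u small '' L, V = (closure B)ᶜ}) := by
  let T : TopologicalSpace (Sp u small) := instTopologicalSpaceSp u small
  refine @compactSpace_generateFrom (Sp u small)
    (generateFrom {V | ∃ B ∈ hat u small '' L, V = (closure B)ᶜ}) _ rfl ?_
  intro P hP hcov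
  by_contra hcon
  push Not at hcon
  have hcl : ∀ V ∈ P, Vᶜ ∈ hat u small '' L := by
    intro V hV
    obtain ⟨B, hB, rfl⟩ := hP hV
    obtain ⟨E, hE, rfl⟩ := hB
    rw [compl_compl, (isClopen_hat h hE).isClosed.closure_eq]
    exact ⟨E, hE, rfl⟩
  obtain ⟨x, hx⟩ := fip' h (compl '' P) (by rintro _ ⟨V, hV, rfl⟩; exact hcl V hV) (by
    intro 𝒯 h𝒯 hfin
    have h1 := hcon (compl '' 𝒯) (by
      rintro _ ⟨A, hA, rfl⟩
      obtain ⟨V, hV, rfl⟩ := h𝒯 hA
      simpa using hV) (hfin.image _)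
    by_contra h2
    apply h1
    rw [Set.not_nonempty_iff_eq_empty] at h2
    rw [← compl_inj_iff, compl_sUnion, compl_univ, ← image_comp, compl_comp_compl, image_id]
    exact h2)
  have : x ∈ ⋃₀ P := by rw [hcov]; trivial
  obtain ⟨V, hV, hxV⟩ := this
  exact hx Vᶜ ⟨V, hV, rfl⟩ hxV

end Pool.Agent.Helper614.PC
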