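import Mathlib

/-!
A strong colouring with countable blocks, in ZFC.
-/

open Set Cardinal

namespace Pool.Agent.Helper614.SCol

set_option linter.unusedSectionVars false

theorem exists_bound {c : Cardinal.{0}} (hc : c.IsRegular) {ι : Type} (hι : Cardinal.mk ι < c)
    (f : ι → c.ord.ToType) : ∃ b, ∀ i, f i < b := by
  by_contra hcon
  push Not at hcon
  have h : Function.Surjective (fun i => (⟨f i, i, rfl⟩ : Set.range f)) := by
    rintro ⟨_, i, rfl⟩; exact ⟨i, rfl⟩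
  have : c ≤ Cardinal.mk ι := by
    rw [← hc.cof_ord, ← Ordinal.cof_toType]
    refine (Order.cof_le fun j ↦ ?_).trans (Cardinal.mk_le_of_surjective h)
    obtain ⟨k, hk⟩ := hcon j
    exact ⟨_, Set.mem_range_self k, hk⟩
  exact absurd hι this.not_gt

section

variable {K : Type} [LinearOrder K] [WellFoundedLT K]

/-- Rapidly increasing regular cardinals. -/
noncomputable def cc : K → Cardinal.{0} :=
  (wellFounded_lt (α := K)).fix fun i rec =>
    Order.succ (ℵ₀ + Cardinal.sum (fun j : Iio i => rec j.1 j.2))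

theorem cc_eq (i : K) : cc i = Order.succ (ℵ₀ + Cardinal.sum (fun j : Iio i => cc j.1)) :=
  WellFounded.fix_eq _ _ _

theorem cc_regular (i : K) : (cc i).IsRegular := by
  rw [cc_eq]; exact isRegular_succ le_self_add

/-- The factors. -/
abbrev Lf (i : K) : Type := (cc i).ord.ToType

theorem mk_nat_lt (i : K) : Cardinal.mk ℕ < cc i := by
  rw [cc_eq, Order.lt_succ_iff, mk_nat]; exact le_self_add

theorem mk_sigma_lt (i : K) : Cardinal.mk ((Σ j : Iio i, Lf j.1) × ℕ) < cc i := by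
  rw [cc_eq, Order.lt_succ_iff, mk_prod, mk_sigma, mk_nat]
  simp only [mk_ord_toType, lift_id]
  refine (mul_le_max _ _).trans ?_
  refine max_le (max_le ?_ ?_) ?_
  · exact le_add_self
  · exact le_self_add
  · exact le_self_add

instance (i : K) : Nonempty (Lf i) := Cardinal.nonempty_ord_toType (cc_regular i).ne_zero

variable (K) in
/-- The product of the factors. -/
abbrev JJ : Type := ∀ i : K, Lf i

/-- Eventual strict domination. -/
def dom (G f : JJ K) : Prop := ∃ i₀ : K, ∀ i > i₀, G i < f i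

/-- `i` is the last place where `f < g` fails. -/
def last (f g : JJ K) (i : K) : Prop := (∀ j > i, f j < g j) ∧ ¬ f i < g i

theorem last_unique {f g : JJ K} {i j : K} (h : last f g i) (h' : last f g j) : i = j := by
  rcases lt_trichotomy i j with hij | hij | hij
  · exact (h'.2 (h.1 j hij)).elim
  · exact hij
  · exact (h.2 (h'.1 i hij)).elim

theorem not_last_swap [NoMaxOrder K] {f g : JJ K} {i j : K} (h : last f g i)
    (h' : last g f j) : False := by
  obtain ⟨k, hk⟩ := exists_gt (max i j)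
  exact lt_asymm (h.1 k ((le_max_left _ _).trans_lt hk)) (h'.1 k ((le_max_right _ _).trans_lt hk))

variable {Γ : Type}

open Classical in
/-- The colouring. -/
noncomputable def col [Nonempty Γ] (π : K → Γ) (f g : JJ K) : Γ :=
  if h : ∃ i, last f g i then π h.choose
  else if h : ∃ i, last g f i then π h.choose else Classical.arbitrary Γ

theorem col_of_last [Nonempty Γ] {π : K → Γ} {f g : JJ K} {i : K} (h : last f g i) :
    col π f g = π i := by
  have h' : ∃ i, last f g i := ⟨i, h⟩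
  rw [col, dif_pos h', last_unique h'.choose_spec h]

theorem col_symm [Nonempty Γ] [NoMaxOrder K] (π : K → Γ) (f g : JJ K) :
    col π f g = col π g f := by
  by_cases h1 : ∃ i, last f g i
  · obtain ⟨i, hi⟩ := h1
    have h2 : ¬ ∃ j, last g f j := fun ⟨j, hj⟩ => not_last_swap hi hj
    have h3 : ∃ i, last f g i := ⟨i, hi⟩
    rw [col_of_last hi, col, dif_neg h2, dif_pos h3]
    exact congrArg π (last_unique hi h3.choose_spec)
  · by_cases h2 : ∃ i, last g f i
    · obtain ⟨i, hi⟩ := h2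
      have h3 : ∃ i, last g f i := ⟨i, hi⟩
      rw [col_of_last (f := g) (g := f) hi, col, dif_neg h1, dif_pos h3]
      exact (congrArg π (last_unique hi h3.choose_spec)).symm
    · rw [col, dif_neg h1, dif_neg h2, col, dif_neg h2, dif_neg h1]

/-- The strong colouring property. -/
theorem strong [Nonempty Γ] [NoMaxOrder K] (hK : ∀ f : ℕ → K, ∃ b, ∀ n, f n < b)
    (π : K → Γ) (hπ : ∀ γ i, ∃ j > i, π j = γ)
    (B : JJ K → ℕ → JJ K) (hB : ∀ G n, dom G (B G n)) (γ : Γ) :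
    ∃ G₁ G₂, ∀ m n, B G₁ m ≠ B G₂ n ∧ col π (B G₁ m) (B G₂ n) = γ := by
  classical
  -- step 1
  have h1 : ∃ i₁ : K, ∀ i > i₁, ∀ τ : Lf i, ∃ G, ∀ n, τ ≤ B G n i := by
    by_contra hcon
    push Not at hcon
    let Bad : K → Prop := fun i => ∃ τ : Lf i, ∀ G, ∃ n, B G n i < τ
    let G₀ : JJ K := fun i => if h : Bad i then h.choose else Classical.arbitrary _
    have hG₀ : ∀ i, Bad i → ∀ G, ∃ n, B G n i < G₀ i := by
      intro i hi
      have : G₀ i = hi.choose := dif_pos hi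
      rw [this]; exact hi.choose_spec
    choose k hk using hB G₀
    obtain ⟨b, hb⟩ := hK k
    obtain ⟨i, hib, hbad⟩ := hcon b
    obtain ⟨n, hn⟩ := hG₀ i hbad G₀
    exact lt_asymm hn (hk n i ((hb n).trans hib))
  obtain ⟨i₁, h1⟩ := h1
  have h1' : ∀ (i : K) (τ : Lf i), ∃ G, i₁ < i → ∀ n, τ ≤ B G n i := by
    intro i τ
    by_cases hi : i₁ < i
    · obtain ⟨G, hG⟩ := h1 i hi τ; exact ⟨G, fun _ => hG⟩
    · exact ⟨Classical.arbitrary _, fun h => (hi h).elim⟩
  choose 𝒢 h𝒢 using h1'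
  -- step 2
  have h2 : ∀ i' : K, ∃ b : Lf i', ∀ x : (Σ j : Iio i', Lf j.1) × ℕ,
      B (𝒢 x.1.1 x.1.2) x.2 i' < b := fun i' =>
    exists_bound (cc_regular i') (mk_sigma_lt i') _
  choose Gs hGs using h2
  -- step 3
  choose k hk using hB Gs
  obtain ⟨i₃, hi₃⟩ := hK k
  obtain ⟨i, hi, hγ⟩ := hπ γ (max i₁ i₃)
  obtain ⟨τ, hτ⟩ := exists_bound (cc_regular i) (mk_nat_lt i) (fun n => B Gs n i)
  have hi1 : i₁ < i := (le_max_left _ _).trans_lt hi
  have hi3 : i₃ < i := (le_max_right _ _).trans_lt hi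
  have hlast : ∀ m n, last (B (𝒢 i τ) m) (B Gs n) i := by
    intro m n
    refine ⟨fun j hj => ?_, ?_⟩
    · exact (hGs j ⟨⟨⟨i, hj⟩, τ⟩, m⟩).trans (hk n j ((hi₃ n).trans (hi3.trans hj)))
    · exact not_lt.2 ((hτ n).le.trans (h𝒢 i τ hi1 m))
  refine ⟨𝒢 i τ, Gs, fun m n => ⟨?_, ?_⟩⟩
  · intro heq
    obtain ⟨j, hj⟩ := exists_gt i
    have := (hlast m n).1 j hj
    rw [heq] at this
    exact lt_irrefl _ this
  · rw [col_of_last (hlast m n), hγ]

/-- The ideal of non-dominating sets. -/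
def Sm (C : Set (JJ K)) : Prop := ∃ G : JJ K, ∀ f ∈ C, ¬ dom G f

theorem Sm.mono {C C' : Set (JJ K)} (h : Sm C) (hC : C' ⊆ C) : Sm C' := by
  obtain ⟨G, hG⟩ := h
  exact ⟨G, fun f hf => hG f (hC hf)⟩

theorem Sm.iUnion {C : ℕ → Set (JJ K)} (h : ∀ n, Sm (C n)) : Sm (⋃ n, C n) := by
  choose G hG using h
  have h2 : ∀ i : K, ∃ b : Lf i, ∀ n, G n i < b := fun i =>
    exists_bound (cc_regular i) (mk_nat_lt i) _
  choose H hH using h2
  refine ⟨H, ?_⟩
  intro f hf hdom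
  obtain ⟨n, hn⟩ := mem_iUnion.1 hf
  obtain ⟨i₀, hi₀⟩ := hdom
  exact hG n f hn ⟨i₀, fun i hi => (hH i n).trans (hi₀ i hi)⟩

theorem Sm.singleton [NoMaxOrder K] (f : JJ K) : Sm {f} := by
  refine ⟨f, ?_⟩
  rintro g rfl ⟨i₀, hi₀⟩
  obtain ⟨j, hj⟩ := exists_gt i₀
  exact lt_irrefl _ (hi₀ j hj)

theorem Sm.empty : Sm (∅ : Set (JJ K)) := ⟨fun _ => Classical.arbitrary _, by simp⟩

theorem Sm.exists_notMem [Nonempty K] {C : Set (JJ K)} (h : Sm C) : ∃ f, f ∉ C := by
  obtain ⟨G, hG⟩ := h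
  have h2 : ∀ i : K, ∃ b : Lf i, ∀ n : ℕ, G i < b := fun i =>
    exists_bound (cc_regular i) (mk_nat_lt i) (fun _ => G i)
  choose H hH using h2
  refine ⟨H, fun hH' => hG H hH' ⟨Classical.arbitrary K, fun i _ => hH i 0⟩⟩

theorem Sm.sUnion {𝒞 : Set (Set (JJ K))} (hc : 𝒞.Countable) (h : ∀ C ∈ 𝒞, Sm C) :
    Sm (⋃₀ 𝒞) := by
  rcases 𝒞.eq_empty_or_nonempty with rfl | hne
  · simpa using Sm.empty
  · obtain ⟨f, rfl⟩ := hc.exists_eq_range hne
    rw [sUnion_range]
    exact Sm.iUnion fun n => h _ ⟨n, rfl⟩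

theorem Sm.countable [NoMaxOrder K] {C : Set (JJ K)} (hc : C.Countable) : Sm C := by
  have := Sm.sUnion (𝒞 := (fun f => {f}) '' C) (hc.image _) (by
    rintro _ ⟨f, -, rfl⟩; exact Sm.singleton f)
  exact this.mono fun f hf => ⟨{f}, ⟨f, hf, rfl⟩, rfl⟩

/-- The colouring property in terms of small sets: a family of countable nonempty blocks avoiding
the small sets contains two blocks joined by the given colour. -/
theorem strong' [Nonempty Γ] [NoMaxOrder K] (hK : ∀ f : ℕ → K, ∃ b, ∀ n, f n < b)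
    (π : K → Γ) (hπ : ∀ γ i, ∃ j > i, π j = γ)
    (B : Set (JJ K) → Set (JJ K)) (hBc : ∀ C, Sm C → (B C).Countable)
    (hBn : ∀ C, Sm C → (B C).Nonempty) (hB : ∀ C, Sm C → Disjoint (B C) C) (γ : Γ) :
    ∃ C₁ C₂, Sm C₁ ∧ Sm C₂ ∧ ∀ a ∈ B C₁, ∀ b ∈ B C₂, a ≠ b ∧ col π a b = γ := by
  let S : JJ K → Set (JJ K) := fun G => {f | ¬ dom G f}
  have hS : ∀ G, Sm (S G) := fun G => ⟨G, fun f hf => hf⟩
  have h1 : ∀ G, ∃ f : ℕ → JJ K, B (S G) = range f := fun G =>
    (hBc _ (hS G)).exists_eq_range (hBn _ (hS G))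
  choose β hβ using h1
  obtain ⟨G₁, G₂, h⟩ := strong hK π hπ β (fun G n => by
    have h2 : β G n ∈ B (S G) := by rw [hβ]; exact mem_range_self n
    by_contra h3
    exact Set.disjoint_left.1 (hB _ (hS G)) h2 h3) γ
  refine ⟨S G₁, S G₂, hS _, hS _, ?_⟩
  rw [hβ, hβ]
  rintro _ ⟨m, rfl⟩ _ ⟨n, rfl⟩
  exact h m n

end

end Pool.Agent.Helper614.SCol
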