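import Mathlib
import Pool.Agent.Helper614.SCol

/-!
Combinatorial inputs: the packaged strong colouring, and a colouring of pairs of a set of size
aleph two by countable ordinals with large infinite free sets.
-/

open Set Cardinal

namespace Pool.Agent.Helper614.SComb

set_option linter.deprecated false

open Pool.Agent.Helper614.SCol

/-- The first uncountable ordinal, as a type. -/
abbrev Xi : Type := (Order.succ ℵ₀ : Cardinal.{0}).ord.ToType

theorem xi_reg : (Order.succ ℵ₀ : Cardinal.{0}).IsRegular := isRegular_succ le_rfl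

instance : Nonempty Xi := Cardinal.nonempty_ord_toType xi_reg.ne_zero

theorem xi_bound (f : ℕ → Xi) : ∃ b, ∀ n, f n < b :=
  exists_bound xi_reg (by rw [mk_nat]; exact Order.lt_succ _) f

instance : NoMaxOrder Xi := ⟨fun a => by
  obtain ⟨b, hb⟩ := xi_bound (fun _ => a)
  exact ⟨b, hb 0⟩⟩

theorem xi_bound_set {S : Set Xi} (hS : S.Countable) : ∃ b, ∀ x ∈ S, x < b := by
  rcases S.eq_empty_or_nonempty with rfl | hne
  · exact ⟨Classical.arbitrary _, by simp⟩
  · obtain ⟨f, rfl⟩ := hS.exists_eq_range hne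
    obtain ⟨b, hb⟩ := xi_bound f
    exact ⟨b, by rintro _ ⟨n, rfl⟩; exact hb n⟩

theorem xi_Iio (x : Xi) : (Iio x).Countable := by
  have h := mk_Iio_toType_ord_lt x
  rw [Order.lt_succ_iff] at h
  exact le_aleph0_iff_set_countable.1 h

theorem xi_Iic (x : Xi) : (Iic x).Countable := by
  have : Iic x = insert x (Iio x) := by ext y; simp [le_iff_eq_or_lt]
  rw [this]; exact (xi_Iio x).insert x

theorem xi_uncountable : ¬ Countable Xi := by
  intro h
  have h1 : mk Xi ≤ ℵ₀ := mk_le_aleph0_iff.2 h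
  rw [mk_ord_toType] at h1
  exact absurd h1 (Order.lt_succ ℵ₀).not_ge

/-! ### The strong colouring -/

/-- A strong colouring with countable blocks and colours in `Γ`. -/
structure StrongCol (Γ : Type) : Type 1 where
  J : Type
  col : J → J → Γ
  Sm : Set J → Prop
  symm : ∀ a b, col a b = col b a
  mono : ∀ C C', Sm C → C' ⊆ C → Sm C'
  sUnion : ∀ 𝒞 : Set (Set J), 𝒞.Countable → (∀ C ∈ 𝒞, Sm C) → Sm (⋃₀ 𝒞)
  countable : ∀ C : Set J, C.Countable → Sm C
  exists_notMem : ∀ C, Sm C → ∃ f, f ∉ C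
  strong : ∀ (B : Set J → Set J), (∀ C, Sm C → (B C).Countable) →
    (∀ C, Sm C → (B C).Nonempty) → (∀ C, Sm C → Disjoint (B C) C) → ∀ γ : Γ,
    ∃ C₁ C₂, Sm C₁ ∧ Sm C₂ ∧ ∀ a ∈ B C₁, ∀ b ∈ B C₂, a ≠ b ∧ col a b = γ

theorem exists_strongCol (Γ : Type) [Nonempty Γ] : Nonempty (StrongCol Γ) := by
  let Γ' : Type := (mk Γ).ord.ToType
  have e : Γ' ≃ Γ := (Cardinal.eq.1 (mk_ord_toType (mk Γ))).some
  let K : Type := Xi ×ₗ Γ'
  let π : K → Γ := fun k => e (ofLex k).2
  have hne : Nonempty Γ' := ⟨e.symm (Classical.arbitrary Γ)⟩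
  have hneK : Nonempty K := ⟨toLex (Classical.arbitrary _, Classical.arbitrary _)⟩
  have hlt : ∀ a b : K, (ofLex a).1 < (ofLex b).1 → a < b := by
    intro a b h
    rw [Prod.Lex.lt_iff]; exact Or.inl h
  have hmax : NoMaxOrder K := ⟨fun a => by
    obtain ⟨b, hb⟩ := exists_gt (ofLex a).1
    exact ⟨toLex (b, (ofLex a).2), hlt _ _ hb⟩⟩
  have hK : ∀ f : ℕ → K, ∃ b, ∀ n, f n < b := by
    intro f
    obtain ⟨b, hb⟩ := xi_bound (fun n => (ofLex (f n)).1)
    exact ⟨toLex (b, Classical.arbitrary _), fun n => hlt _ _ (hb n)⟩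
  have hπ : ∀ γ (i : K), ∃ j > i, π j = γ := by
    intro γ i
    obtain ⟨b, hb⟩ := exists_gt (ofLex i).1
    exact ⟨toLex (b, e.symm γ), hlt _ _ hb, by simp [π]⟩
  exact ⟨{
    J := JJ K
    col := SCol.col π
    Sm := SCol.Sm
    symm := SCol.col_symm π
    mono := fun C C' h h' => h.mono h'
    sUnion := fun 𝒞 hc h => Sm.sUnion hc h
    countable := fun C hc => Sm.countable hc
    exists_notMem := fun C h => h.exists_notMem
    strong := fun B h1 h2 h3 γ => SCol.strong' hK π hπ B h1 h2 h3 γ }⟩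

/-! ### The colouring of pairs -/

/-- The second uncountable cardinal, as a type. -/
abbrev II : Type := (Order.succ (Order.succ ℵ₀) : Cardinal.{0}).ord.ToType

theorem ii_reg : (Order.succ (Order.succ ℵ₀) : Cardinal.{0}).IsRegular :=
  isRegular_succ (Order.le_succ _)

instance : Nonempty II := Cardinal.nonempty_ord_toType ii_reg.ne_zero

theorem ii_bound (f : Xi → II) : ∃ b, ∀ n, f n < b :=
  exists_bound ii_reg (by rw [mk_ord_toType]; exact Order.lt_succ _) f

theorem exists_inj (j : II) : ∃ g : II → Xi, InjOn g (Iio j) := by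
  have h := mk_Iio_toType_ord_lt j
  rw [Order.lt_succ_iff] at h
  have h' : mk (Iio j) ≤ mk Xi := by rw [mk_ord_toType]; exact h
  obtain ⟨f⟩ := h'
  classical
  refine ⟨fun i => if h : i ∈ Iio j then f ⟨i, h⟩ else Classical.arbitrary _, ?_⟩
  intro a ha b hb hab
  simp only [dif_pos ha, dif_pos hb] at hab
  have := f.injective hab
  simpa using this

/-- injections of initial segments -/
noncomputable def g (j : II) : II → Xi := (exists_inj j).choose

theorem g_inj (j : II) : InjOn (g j) (Iio j) := (exists_inj j).choose_spec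

/-- The colouring of pairs. -/
noncomputable def e (i j : II) : Xi := if i < j then g j i else g i j

theorem e_symm {i j : II} (h : i ≠ j) : e i j = e j i := by
  unfold e
  rcases lt_or_gt_of_ne h with h | h
  · rw [if_pos h, if_neg (not_lt.2 h.le)]
  · rw [if_neg (not_lt.2 h.le), if_pos h]

theorem e_of_lt {i j : II} (h : i < j) : e i j = g j i := if_pos h

/-- unbounded sets -/
def Unb (A : Set II) : Prop := ∀ b, ∃ a ∈ A, b ≤ a

theorem Unb.exists_next {A : Set II} (hA : Unb A) (ε : Xi) :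
    ∃ i ∈ A, Unb {j | j ∈ A ∧ i < j ∧ ε ≤ e i j} := by
  by_contra hcon
  push Not at hcon
  have h1 : ∀ i : II, ∃ b, i ∈ A → ∀ j ∈ A, i < j → ε ≤ e i j → j < b := by
    intro i
    by_cases hi : i ∈ A
    · have h2 := hcon i hi
      unfold Unb at h2
      push Not at h2
      obtain ⟨b, hb⟩ := h2
      exact ⟨b, fun _ j hj hij he => hb j ⟨hj, hij, he⟩⟩
    · exact ⟨Classical.arbitrary _, fun h => (hi h).elim⟩
  choose β hβ using h1
  -- an injection of Xi into A
  have hcard : mk Xi ≤ mk A := by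
    by_contra hlt
    rw [not_le, mk_ord_toType, Order.lt_succ_iff] at hlt
    have h3 : mk A < Order.succ (Order.succ ℵ₀) :=
      hlt.trans_lt ((Order.lt_succ _).trans (Order.lt_succ _))
    obtain ⟨b, hb⟩ := exists_bound ii_reg h3 (fun a : A => (a : II))
    obtain ⟨a, ha, hba⟩ := hA b
    exact absurd (hb ⟨a, ha⟩) hba.not_gt
  obtain ⟨ι⟩ := hcard
  obtain ⟨b1, hb1⟩ := ii_bound (fun x => (ι x : II))
  obtain ⟨b2, hb2⟩ := ii_bound (fun x => β (ι x))
  obtain ⟨j, hj, hbj⟩ := hA (max b1 b2)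
  have h4 : ∀ x : Xi, (ι x : II) < j := fun x =>
    (hb1 x).trans_le ((le_max_left _ _).trans hbj)
  have h5 : ∀ x : Xi, e (ι x) j < ε := by
    intro x
    by_contra h6
    rw [not_lt] at h6
    have h7 := hβ (ι x) (ι x).2 j hj (h4 x) h6
    exact absurd (h7.trans (hb2 x)) (not_lt.2 ((le_max_right _ _).trans hbj))
  have h8 : Function.Injective (fun x : Xi => (⟨e (ι x) j, h5 x⟩ : Iio ε)) := by
    intro x y hxy
    have h9 : e (ι x) j = e (ι y) j := congrArg Subtype.val hxy
    rw [e_of_lt (h4 x), e_of_lt (h4 y)] at h9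
    exact ι.injective (Subtype.ext (g_inj j (h4 x) (h4 y) h9))
  have := (xi_Iio ε).to_subtype
  exact xi_uncountable h8.countable

/-- every assignment of countable ordinals has a large infinite free set -/
theorem free (ξ : II → Xi) : ∃ (α : ℕ → II) (ε : Xi), Function.Injective α ∧
    (∀ n, ξ (α n) < ε) ∧ ∀ m n, m ≠ n → ε ≤ e (α m) (α n) := by
  obtain ⟨x₀, hx₀⟩ : ∃ x, Unb {i | ξ i = x} := by
    by_contra hcon
    push Not at hcon
    unfold Unb at hcon
    push Not at hcon
    choose β hβ using hcon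
    obtain ⟨b, hb⟩ := ii_bound β
    exact absurd ((hβ (ξ b) b rfl).trans (hb _)) (lt_irrefl _)
  obtain ⟨ε, hε⟩ := exists_gt x₀
  have step : ∀ A : {A : Set II // Unb A}, ∃ i ∈ A.1, Unb {j | j ∈ A.1 ∧ i < j ∧ ε ≤ e i j} :=
    fun A => A.2.exists_next ε
  choose p hp1 hp2 using step
  let S : ℕ → {A : Set II // Unb A} := fun n =>
    Nat.rec ⟨{i | ξ i = x₀}, hx₀⟩ (fun _ A => ⟨_, hp2 A⟩) n
  have hS : ∀ n, (S (n + 1)).1 = {j | j ∈ (S n).1 ∧ p (S n) < j ∧ ε ≤ e (p (S n)) j} :=
    fun n => rfl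
  have hSsub : ∀ m n, m ≤ n → (S n).1 ⊆ (S m).1 := by
    intro m n hmn
    induction n, hmn using Nat.le_induction with
    | base => exact Subset.rfl
    | succ n _ ih => exact fun x hx => ih (by rw [hS] at hx; exact hx.1)
  have hlt : ∀ m n, m < n → p (S m) < p (S n) ∧ ε ≤ e (p (S m)) (p (S n)) := by
    intro m n hmn
    have h1 : p (S n) ∈ (S (m + 1)).1 := hSsub (m + 1) n hmn (hp1 (S n))
    rw [hS] at h1
    exact h1.2
  refine ⟨fun n => p (S n), ε, ?_, ?_, ?_⟩
  · exact (strictMono_nat_of_lt_succ fun n => (hlt n (n + 1) (Nat.lt_succ_self n)).1).injective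
  · intro n
    have h1 : p (S n) ∈ (S 0).1 := hSsub 0 n (Nat.zero_le n) (hp1 (S n))
    have h2 : ξ (p (S n)) = x₀ := h1
    rw [h2]; exact hε
  · intro m n hmn
    rcases lt_or_gt_of_ne hmn with h | h
    · exact (hlt m n h).2
    · rw [e_symm (hlt n m h).1.ne']; exact (hlt n m h).2

end Pool.Agent.Helper614.SComb
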