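import Mathlib
import Pool.Agent.Helper614.PC
import Pool.Agent.Helper614.SComb

/-!
A space with a cocompact pretty base none of whose bases of open sets, closed under finite
intersections, has the property that closures of countable unions are open.
-/

open Set Filter Topology TopologicalSpace

namespace Pool.Agent.Helper614.PX

open Pool.Agent.Helper614.SComb Pool.Agent.Helper614.PC

/-- Indices: injective sequences in `II` on which the colouring `e` is at least `ε`. -/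
structure Lam : Type where
  α : ℕ → II
  ε : Xi
  inj : Function.Injective α
  he : ∀ m n, m ≠ n → ε ≤ e (α m) (α n)

theorem exists_lamSeq : ∃ l : ℕ → Lam, Function.Injective l := by
  obtain ⟨α, ε, h1, -, h3⟩ := free (fun _ => Classical.arbitrary Xi)
  refine ⟨fun n => ⟨fun m => α (m + n), ε, fun a b h => by simpa using h1 h, fun a b h =>
    h3 _ _ (by omega)⟩, ?_⟩
  intro m n h
  have h4 := congrFun (congrArg Lam.α h) 0
  simpa using h1 h4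

/-- The filter on `ℕ × ℕ`. -/
noncomputable def Phi : Filter (ℕ × ℕ) := (hyperfilter ℕ : Filter ℕ) ×ˢ (hyperfilter ℕ : Filter ℕ)

instance : Phi.NeBot := by unfold Phi; infer_instance

theorem exists_square {R : Set (ℕ × ℕ)} (hR : R ∈ Phi) :
    ∃ k l, k ≠ l ∧ (k, k) ∈ R ∧ (k, l) ∈ R := by
  obtain ⟨t, ht, htR⟩ := Filter.mem_prod_same_iff.1 hR
  have hinf : t.Infinite := fun hfin => Filter.notMem_hyperfilter_of_finite hfin ht
  obtain ⟨k, hk, l, hl, hkl⟩ := hinf.nontrivial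
  exact ⟨k, l, hkl, htR ⟨hk, hk⟩, htR ⟨hk, hl⟩⟩

/-- Colours. -/
structure Gam : Type where
  l : ℕ → Lam
  R : ℕ → Set (ℕ × ℕ)
  inj : Function.Injective l
  mem : ∀ n, R n ∈ Phi

instance : Nonempty Gam := by
  obtain ⟨l, hl⟩ := exists_lamSeq
  exact ⟨⟨l, fun _ => univ, hl, fun _ => Filter.univ_mem⟩⟩

/-- The strong colouring used. -/
noncomputable def SC : StrongCol Gam := (exists_strongCol Gam).some

/-- Compatibility. -/
def compat (lam : Lam) (w : ℕ × ℕ) (F : Finset SC.J) : Prop :=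
  ∀ a ∈ F, ∀ b ∈ F, a ≠ b → ∀ n, (SC.col a b).l n = lam → w ∈ (SC.col a b).R n

theorem compat.mono {lam : Lam} {w : ℕ × ℕ} {F F' : Finset SC.J} (h : compat lam w F)
    (hF : F' ⊆ F) : compat lam w F' := fun a ha b hb => h a (hF ha) b (hF hb)

theorem compat_empty (lam : Lam) (w : ℕ × ℕ) : compat lam w ∅ := by
  intro a ha; simp at ha

theorem compat_mem (lam : Lam) (F : Finset SC.J) : {w | compat lam w F} ∈ Phi := by
  have h1 : ∀ a b : SC.J, {w : ℕ × ℕ | ∀ n, (SC.col a b).l n = lam → w ∈ (SC.col a b).R n} ∈ Phi := by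
    intro a b
    by_cases h : ∃ n, (SC.col a b).l n = lam
    · obtain ⟨n, hn⟩ := h
      refine Filter.mem_of_superset ((SC.col a b).mem n) ?_
      intro w hw m hm
      have : m = n := (SC.col a b).inj (hm.trans hn.symm)
      rw [this]; exact hw
    · refine Filter.mem_of_superset Filter.univ_mem ?_
      intro w _ n hn
      exact (h ⟨n, hn⟩).elim
  have h2 : (⋂ a ∈ F, ⋂ b ∈ F,
      {w : ℕ × ℕ | ∀ n, (SC.col a b).l n = lam → w ∈ (SC.col a b).R n}) ∈ Phi := by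
    rw [Filter.biInter_finset_mem]
    intro a _
    rw [Filter.biInter_finset_mem]
    intro b _
    exact h1 a b
  refine Filter.mem_of_superset h2 ?_
  intro w hw a ha b hb _
  have h3 := mem_iInter₂.1 hw a ha
  exact mem_iInter₂.1 h3 b hb

/-- The isolated points. -/
structure D : Type where
  lam : Lam
  w : ℕ × ℕ
  F : Finset SC.J
  h : compat lam w F

instance : Nonempty D := by
  obtain ⟨l, hl⟩ := exists_lamSeq
  exact ⟨⟨l 0, (0, 0), ∅, compat_empty _ _⟩⟩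

/-- The two indices attached to an isolated point -/
def ri (d : D) : II := d.lam.α (2 * d.w.1)
/-- second index -/
def ci (d : D) : II := d.lam.α (2 * d.w.2 + 1)

theorem le_e (d : D) : d.lam.ε ≤ e (ri d) (ci d) := d.lam.he _ _ (by omega)

theorem ri_ne_ci (d : D) : ri d ≠ ci d := fun h => by
  have := d.lam.inj h; omega

/-- The sets attached to `i`. -/
def U (i : II) : Set D := {d | ri d = i ∨ ci d = i}

/-- The basic neighbourhoods of the point of `i`. -/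
def Bx (i : II) (ξ : Xi) : Set D := {d | d ∈ U i ∧ ξ < d.lam.ε}

/-- The basic neighbourhoods of the point of `lam`. -/
def Gx (lam : Lam) (R : Set (ℕ × ℕ)) (s : Finset SC.J) : Set D :=
  {d | d.lam = lam ∧ d.w ∈ R ∧ s ⊆ d.F}

theorem Bx_mono {i : II} {ξ ξ' : Xi} (h : ξ ≤ ξ') : Bx i ξ' ⊆ Bx i ξ :=
  fun _ hd => ⟨hd.1, h.trans_lt hd.2⟩

theorem Bx_inter {i j : II} (hij : i ≠ j) {ξ ξ' : Xi} {d : D} (hi : d ∈ Bx i ξ)
    (hj : d ∈ Bx j ξ') : ξ < e i j := by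
  have h := le_e d
  have hlt := hi.2.trans_le h
  rcases hi.1 with h1 | h1 <;> rcases hj.1 with h2 | h2
  · exact (hij (h1.symm.trans h2)).elim
  · rwa [h1, h2] at hlt
  · rw [h1, h2] at hlt; rwa [e_symm hij]
  · exact (hij (h1.symm.trans h2)).elim

/-- Small sets. -/
def small : Set (Set D) :=
  {Z | {lam | ∃ d ∈ Z, d.lam = lam}.Countable ∧ SC.Sm {a | ∃ d ∈ Z, a ∈ d.F}}

theorem small_mono : ∀ Z ∈ small, ∀ Z' ⊆ Z, Z' ∈ small := by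
  rintro Z ⟨h1, h2⟩ Z' hZ
  refine ⟨h1.mono ?_, SC.mono _ _ h2 ?_⟩
  · rintro _ ⟨d, hd, rfl⟩; exact ⟨d, hZ hd, rfl⟩
  · rintro a ⟨d, hd, ha⟩; exact ⟨d, hZ hd, ha⟩

theorem small_sUnion {𝒵 : Set (Set D)} (hc : 𝒵.Countable) (h : ∀ Z ∈ 𝒵, Z ∈ small) :
    ⋃₀ 𝒵 ∈ small := by
  constructor
  · have : {lam | ∃ d ∈ ⋃₀ 𝒵, d.lam = lam} = ⋃ Z ∈ 𝒵, {lam | ∃ d ∈ Z, d.lam = lam} := by
      ext lam
      simp only [mem_ofPred_eq, mem_iUnion, exists_prop, mem_sUnion]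
      constructor
      · rintro ⟨d, ⟨Z, hZ, hd⟩, rfl⟩; exact ⟨Z, hZ, d, hd, rfl⟩
      · rintro ⟨Z, hZ, d, hd, rfl⟩; exact ⟨d, ⟨Z, hZ, hd⟩, rfl⟩
    rw [this]
    exact hc.biUnion fun Z hZ => (h Z hZ).1
  · have := SC.sUnion ((fun Z => {a | ∃ d ∈ Z, a ∈ d.F}) '' 𝒵) (hc.image _) (by
      rintro _ ⟨Z, hZ, rfl⟩; exact (h Z hZ).2)
    refine SC.mono _ _ this ?_
    rintro a ⟨d, ⟨Z, hZ, hd⟩, ha⟩
    exact ⟨_, ⟨Z, hZ, rfl⟩, d, hd, ha⟩

theorem small_single (d : D) : {d} ∈ small := by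
  constructor
  · refine (countable_singleton d.lam).mono ?_
    rintro _ ⟨d', rfl, rfl⟩; rfl
  · refine SC.countable _ (d.F.finite_toSet.countable.mono ?_)
    rintro a ⟨d', rfl, ha⟩; exact ha

theorem small_of_empty {Z : Set D} (hZ : Z.Countable) (h : ∀ d ∈ Z, d.F = ∅) : Z ∈ small := by
  constructor
  · have : {lam | ∃ d ∈ Z, d.lam = lam} = D.lam '' Z := rfl
    rw [this]; exact hZ.image _
  · refine SC.countable _ (countable_empty.mono ?_)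
    rintro a ⟨d, hd, ha⟩
    rw [h d hd] at ha; simp at ha

/-- Indices with large neighbourhoods. -/
def goodI : Set II := {i | ∀ ξ, (Bx i ξ).Nonempty}

/-- Index set of the special points. -/
abbrev T : Type := Lam ⊕ goodI

/-- The filter of the point of `lam`. -/
def uL (lam : Lam) : Filter D where
  sets := {E | ∃ R ∈ Phi, ∃ s : Finset SC.J, Gx lam R s ⊆ E}
  univ_sets := ⟨univ, Filter.univ_mem, ∅, subset_univ _⟩
  sets_of_superset := by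
    rintro E E' ⟨R, hR, s, h⟩ hE
    exact ⟨R, hR, s, h.trans hE⟩
  inter_sets := by
    classical
    rintro E E' ⟨R, hR, s, h⟩ ⟨R', hR', s', h'⟩
    refine ⟨R ∩ R', Filter.inter_mem hR hR', s ∪ s', ?_⟩
    rintro d ⟨h1, h2, h3⟩
    exact ⟨h ⟨h1, h2.1, Finset.union_subset_left h3⟩, h' ⟨h1, h2.2, Finset.union_subset_right h3⟩⟩

/-- The filter of the point of `i`. -/
def uI (i : II) : Filter D where
  sets := {E | ∃ ξ, Bx i ξ ⊆ E}
  univ_sets := ⟨Classical.arbitrary _, subset_univ _⟩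
  sets_of_superset := by
    rintro E E' ⟨ξ, h⟩ hE
    exact ⟨ξ, h.trans hE⟩
  inter_sets := by
    rintro E E' ⟨ξ, h⟩ ⟨ξ', h'⟩
    refine ⟨max ξ ξ', ?_⟩
    intro d hd
    exact ⟨h (Bx_mono (le_max_left _ _) hd), h' (Bx_mono (le_max_right _ _) hd)⟩

theorem mem_uL {lam : Lam} {E : Set D} :
    E ∈ uL lam ↔ ∃ R ∈ Phi, ∃ s : Finset SC.J, Gx lam R s ⊆ E := Iff.rfl

theorem mem_uI {i : II} {E : Set D} : E ∈ uI i ↔ ∃ ξ, Bx i ξ ⊆ E := Iff.rfl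

/-- The filters. -/
def u : T → Filter D
  | Sum.inl lam => uL lam
  | Sum.inr i => uI i.1

theorem Gx_square {lam : Lam} {R : Set (ℕ × ℕ)} (hR : R ∈ Phi) (s : Finset SC.J) :
    ∃ k l, k ≠ l ∧ (∃ d ∈ Gx lam R s, d.w = (k, k)) ∧ ∃ d ∈ Gx lam R s, d.w = (k, l) := by
  obtain ⟨k, l, hkl, h1, h2⟩ := exists_square (Filter.inter_mem hR (compat_mem lam s))
  exact ⟨k, l, hkl, ⟨⟨lam, (k, k), s, h1.2⟩, ⟨rfl, h1.1, Finset.Subset.refl _⟩, rfl⟩,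
    ⟨⟨lam, (k, l), s, h2.2⟩, ⟨rfl, h2.1, Finset.Subset.refl _⟩, rfl⟩⟩

theorem nebot : ∀ t, (u t).NeBot := by
  rintro (lam | i)
  · refine ⟨fun h => ?_⟩
    have h1 : (∅ : Set D) ∈ uL lam := by
      change (∅ : Set D) ∈ u (Sum.inl lam); rw [h]; exact Filter.mem_bot
    obtain ⟨R, hR, s, hs⟩ := h1
    obtain ⟨k, l, -, ⟨d, hd, -⟩, -⟩ := Gx_square (lam := lam) hR s
    exact hs hd
  · refine ⟨fun h => ?_⟩
    have h1 : (∅ : Set D) ∈ uI i.1 := by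
      change (∅ : Set D) ∈ u (Sum.inr i); rw [h]; exact Filter.mem_bot
    obtain ⟨ξ, hξ⟩ := h1
    obtain ⟨d, hd⟩ := i.2 ξ
    exact hξ hd

theorem small_compl : ∀ Z ∈ small, ∀ t, Zᶜ ∈ u t := by
  rintro Z ⟨h1, h2⟩ (lam | i)
  · obtain ⟨a, ha⟩ := SC.exists_notMem _ h2
    refine ⟨univ, Filter.univ_mem, {a}, ?_⟩
    rintro d ⟨-, -, hd⟩ hdZ
    exact ha ⟨d, hdZ, hd (Finset.mem_singleton_self a)⟩
  · obtain ⟨b, hb⟩ := xi_bound_set (h1.image Lam.ε)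
    refine ⟨b, ?_⟩
    rintro d ⟨-, hd⟩ hdZ
    exact lt_asymm hd (hb _ ⟨d.lam, ⟨d, hdZ, rfl⟩, rfl⟩)

/-- Sets in normal form. -/
def nf (Z : Set D) (𝒜 : Set (goodI × Xi)) (𝒦 : Set (Lam × {R // R ∈ Phi} × Finset SC.J)) :
    Set D :=
  {d | d ∈ Z ∨ (∃ p ∈ 𝒜, d ∈ Bx p.1 p.2) ∨ ∃ q ∈ 𝒦, d ∈ Gx q.1 q.2.1 q.2.2}

/-- The family of base sets. -/
def L : Set (Set D) :=
  {E | ∃ Z ∈ small, ∃ 𝒜 : Set (goodI × Xi), 𝒜.Countable ∧
    ∃ 𝒦 : Set (Lam × {R // R ∈ Phi} × Finset SC.J), 𝒦.Countable ∧ E = nf Z 𝒜 𝒦}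

theorem small_empty : (∅ : Set D) ∈ small := small_of_empty countable_empty (by simp)

theorem small_L : small ⊆ L := by
  intro Z hZ
  refine ⟨Z, hZ, ∅, countable_empty, ∅, countable_empty, ?_⟩
  ext d; simp [nf]

theorem Bx_L (i : goodI) (ξ : Xi) : Bx i ξ ∈ L := by
  refine ⟨∅, small_empty, {(i, ξ)}, countable_singleton _, ∅, countable_empty, ?_⟩
  ext d; simp [nf]

theorem Gx_L (lam : Lam) {R : Set (ℕ × ℕ)} (hR : R ∈ Phi) (s : Finset SC.J) :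
    Gx lam R s ∈ L := by
  refine ⟨∅, small_empty, ∅, countable_empty, {(lam, ⟨R, hR⟩, s)}, countable_singleton _, ?_⟩
  ext d; simp [nf]

theorem L_sUnion (𝒞 : Set (Set D)) (hc : 𝒞.Countable) (h : 𝒞 ⊆ L) : ⋃₀ 𝒞 ∈ L := by
  have h' : ∀ E : Set D, ∃ Z, ∃ 𝒜 : Set (goodI × Xi),
    ∃ 𝒦 : Set (Lam × {R // R ∈ Phi} × Finset SC.J), E ∈ 𝒞 →
      Z ∈ small ∧ 𝒜.Countable ∧ 𝒦.Countable ∧ E = nf Z 𝒜 𝒦 := by
    intro E
    by_cases hE : E ∈ 𝒞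
    · obtain ⟨Z, h1, 𝒜, h2, 𝒦, h3, h4⟩ := h hE
      exact ⟨Z, 𝒜, 𝒦, fun _ => ⟨h1, h2, h3, h4⟩⟩
    · exact ⟨∅, ∅, ∅, fun h => (hE h).elim⟩
  choose Z 𝒜 𝒦 hh using h'
  refine ⟨⋃₀ (Z '' 𝒞), small_sUnion (hc.image _) (by rintro _ ⟨E, hE, rfl⟩; exact (hh E hE).1),
    ⋃ E ∈ 𝒞, 𝒜 E, hc.biUnion fun E hE => (hh E hE).2.1, ⋃ E ∈ 𝒞, 𝒦 E,
    hc.biUnion fun E hE => (hh E hE).2.2.1, ?_⟩
  ext d
  constructor
  · rintro ⟨E, hE, hd⟩
    rw [(hh E hE).2.2.2] at hd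
    rcases hd with hd | ⟨p, hp, hd⟩ | ⟨q, hq, hd⟩
    · exact Or.inl ⟨_, ⟨E, hE, rfl⟩, hd⟩
    · exact Or.inr (Or.inl ⟨p, mem_iUnion₂.2 ⟨E, hE, hp⟩, hd⟩)
    · exact Or.inr (Or.inr ⟨q, mem_iUnion₂.2 ⟨E, hE, hq⟩, hd⟩)
  · rintro (⟨_, ⟨E, hE, rfl⟩, hd⟩ | ⟨p, hp, hd⟩ | ⟨q, hq, hd⟩)
    · refine ⟨E, hE, ?_⟩; rw [(hh E hE).2.2.2]; exact Or.inl hd
    · obtain ⟨E, hE, hp⟩ := mem_iUnion₂.1 hp
      refine ⟨E, hE, ?_⟩; rw [(hh E hE).2.2.2]; exact Or.inr (Or.inl ⟨p, hp, hd⟩)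
    · obtain ⟨E, hE, hq⟩ := mem_iUnion₂.1 hq
      refine ⟨E, hE, ?_⟩; rw [(hh E hE).2.2.2]; exact Or.inr (Or.inr ⟨q, hq, hd⟩)

/-- A normal form set that is not a neighbourhood of the point of `lam` is small on a large part
of the piece of `lam`. -/
theorem key_dec {Z : Set D} {𝒜 : Set (goodI × Xi)}
    {𝒦 : Set (Lam × {R // R ∈ Phi} × Finset SC.J)} {lam : Lam}
    (h : nf Z 𝒜 𝒦 ∉ uL lam) :
    ∃ R ∈ Phi, ∀ d : D, d.lam = lam → d.w ∈ R → d ∈ nf Z 𝒜 𝒦 → d ∈ Z := by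
  let S : Set ℕ := {k | ∃ p ∈ 𝒜, lam.α (2 * k) = p.1.1 ∧ p.2 < lam.ε}
  let S' : Set ℕ := {l | ∃ p ∈ 𝒜, lam.α (2 * l + 1) = p.1.1 ∧ p.2 < lam.ε}
  have hS : S ∉ (hyperfilter ℕ : Filter ℕ) := by
    intro hS
    apply h
    refine ⟨S ×ˢ univ, Filter.prod_mem_prod hS Filter.univ_mem, ∅, ?_⟩
    rintro d ⟨rfl, hd, -⟩
    obtain ⟨p, hp, h1, h2⟩ := hd.1
    exact Or.inr (Or.inl ⟨p, hp, Or.inl h1, h2⟩)
  have hS' : S' ∉ (hyperfilter ℕ : Filter ℕ) := by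
    intro hS
    apply h
    refine ⟨univ ×ˢ S', Filter.prod_mem_prod Filter.univ_mem hS, ∅, ?_⟩
    rintro d ⟨rfl, hd, -⟩
    obtain ⟨p, hp, h1, h2⟩ := hd.2
    exact Or.inr (Or.inl ⟨p, hp, Or.inr h1, h2⟩)
  refine ⟨Sᶜ ×ˢ S'ᶜ, Filter.prod_mem_prod (Ultrafilter.compl_mem_iff_notMem.2 hS)
    (Ultrafilter.compl_mem_iff_notMem.2 hS'), ?_⟩
  rintro d rfl hw (hd | ⟨p, hp, hd, hd'⟩ | ⟨q, hq, hd⟩)
  · exact hd
  · rcases hd with hd | hd
    · exact (hw.1 ⟨p, hp, hd, hd'⟩).elim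
    · exact (hw.2 ⟨p, hp, hd, hd'⟩).elim
  · exfalso
    apply h
    refine ⟨q.2.1, q.2.1.2, q.2.2, ?_⟩
    intro d' hd'
    refine Or.inr (Or.inr ⟨q, hq, hd'.1.trans hd.1, hd'.2⟩)

theorem decided : ∀ E ∈ L, ∀ t, E ∈ u t ∨ Eᶜ ∈ u t := by
  rintro E ⟨Z, hZ, 𝒜, h𝒜, 𝒦, h𝒦, rfl⟩ (lam | i)
  · by_cases h : nf Z 𝒜 𝒦 ∈ uL lam
    · exact Or.inl h
    · right
      obtain ⟨R, hR, hR'⟩ := key_dec h
      obtain ⟨a, ha⟩ := SC.exists_notMem _ hZ.2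
      refine ⟨R, hR, {a}, ?_⟩
      rintro d ⟨h1, h2, h3⟩ hd
      exact ha ⟨d, hR' d h1 h2 hd, h3 (Finset.mem_singleton_self a)⟩
  · by_cases h : ∃ p ∈ 𝒜, p.1 = i
    · left
      obtain ⟨p, hp, rfl⟩ := h
      exact ⟨p.2, fun d hd => Or.inr (Or.inl ⟨p, hp, hd⟩)⟩
    · right
      obtain ⟨b1, hb1⟩ := xi_bound_set (hZ.1.image Lam.ε)
      obtain ⟨b2, hb2⟩ := xi_bound_set (h𝒜.image fun p => e i.1 p.1.1)
      obtain ⟨b3, hb3⟩ := xi_bound_set (h𝒦.image fun q => q.1.ε)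
      refine ⟨max b1 (max b2 b3), ?_⟩
      intro d hd hd'
      have hm := hd.2
      rcases hd' with hd' | ⟨p, hp, hd'⟩ | ⟨q, hq, hd'⟩
      · exact lt_asymm ((le_max_left _ _).trans_lt hm) (hb1 _ ⟨d.lam, ⟨d, hd', rfl⟩, rfl⟩)
      · have hne : i.1 ≠ p.1.1 := fun hip => h ⟨p, hp, Subtype.ext hip.symm⟩
        have h1 := Bx_inter hne hd hd'
        have h2 := hb2 _ ⟨p, hp, rfl⟩
        exact lt_asymm h2 (((le_max_left _ _).trans (le_max_right _ _)).trans_lt h1)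
      · have h2 : q.1.ε < b3 := hb3 _ ⟨q, hq, rfl⟩
        rw [← hd'.1] at h2
        exact lt_asymm h2 (((le_max_right _ _).trans (le_max_right _ _)).trans_lt hm)

theorem base : ∀ t, ∀ E ∈ u t, ∃ E' ∈ L, E' ⊆ E ∧ E' ∈ u t := by
  rintro (lam | i) E hE
  · obtain ⟨R, hR, s, h⟩ := hE
    exact ⟨_, Gx_L lam hR s, h, ⟨R, hR, s, Subset.rfl⟩⟩
  · obtain ⟨ξ, h⟩ := hE
    exact ⟨_, Bx_L i ξ, h, ⟨ξ, Subset.rfl⟩⟩

theorem sep (S : Set T) (hS : S.Countable) :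
    ∃ G : T → Set D, (∀ t ∈ S, G t ∈ u t) ∧ S.PairwiseDisjoint G := by
  have h1 : (Sum.inl ⁻¹' S : Set Lam).Countable := hS.preimage Sum.inl_injective
  have h2 : (Sum.inr ⁻¹' S : Set goodI).Countable := hS.preimage Sum.inr_injective
  obtain ⟨b1, hb1⟩ := xi_bound_set (h1.image Lam.ε)
  obtain ⟨b2, hb2⟩ := xi_bound_set ((h2.prod h2).image fun p => e p.1.1 p.2.1)
  let b := max b1 b2
  refine ⟨fun t => Sum.casesOn t (fun lam => Gx lam univ ∅) (fun i => Bx i.1 b), ?_, ?_⟩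
  · rintro (lam | i) ht
    · exact ⟨univ, Filter.univ_mem, ∅, Subset.rfl⟩
    · exact ⟨b, Subset.rfl⟩
  · rintro (lam | i) ht (lam' | i') ht' hne
    · refine Set.disjoint_left.2 ?_
      rintro d ⟨rfl, -⟩ ⟨hd, -⟩
      exact hne (by rw [hd])
    · refine Set.disjoint_left.2 ?_
      rintro d ⟨rfl, -⟩ hd
      exact lt_asymm ((le_max_left _ _).trans_lt hd.2) (hb1 _ ⟨d.lam, ht, rfl⟩)
    · refine Set.disjoint_left.2 ?_
      rintro d hd ⟨rfl, -⟩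
      exact lt_asymm ((le_max_left _ _).trans_lt hd.2) (hb1 _ ⟨d.lam, ht', rfl⟩)
    · refine Set.disjoint_left.2 ?_
      intro d hd hd'
      have hne' : i.1 ≠ i'.1 := fun h => hne (by rw [Subtype.ext h])
      have h3 := Bx_inter hne' hd hd'
      exact lt_asymm ((le_max_right _ _).trans_lt h3) (hb2 _ ⟨(i, i'), ⟨ht, ht'⟩, rfl⟩)

theorem exists_seq {Λ₀ : Set Lam} (hc : Λ₀.Countable) :
    ∃ l : ℕ → Lam, Function.Injective l ∧ Λ₀ ⊆ range l := by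
  obtain ⟨l', hl'⟩ := exists_lamSeq
  have h1 : (Λ₀ ∪ range l').Countable := hc.union (countable_range l')
  have h2 : (Λ₀ ∪ range l').Infinite := (infinite_range_of_injective hl').mono subset_union_right
  have := h1.to_subtype
  have := h2.to_subtype
  obtain ⟨D⟩ := nonempty_denumerable (Λ₀ ∪ range l' : Set Lam)
  let f : ℕ ≃ (Λ₀ ∪ range l' : Set Lam) := (Denumerable.eqv _).symm
  refine ⟨fun n => (f n).1, Subtype.val_injective.comp f.injective, ?_⟩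
  intro lam hlam
  exact ⟨f.symm ⟨lam, Or.inl hlam⟩, by simp⟩

theorem cpt1 (𝒰 : Ultrafilter D) (h0 : ∀ Z ∈ small, Z ∉ 𝒰) {Λ₀ : Set Lam} (hc : Λ₀.Countable)
    (h1 : {d : D | d.lam ∈ Λ₀} ∈ 𝒰) :
    ∃ x : Sp u small, ∀ E ∈ L, E ∈ 𝒰 → E ∈ flt u small x := by
  classical
  obtain ⟨l, hl, hΛ⟩ := exists_seq hc
  have hP : {d : D | d.lam ∈ range l} ∈ 𝒰 := 𝒰.mem_of_superset h1 fun d hd => hΛ hd
  by_cases ha : ∀ R : ℕ → Set (ℕ × ℕ), (∀ n, R n ∈ Phi) →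
      {d : D | ∀ n, d.lam = l n → d.w ∈ R n} ∈ 𝒰
  · refine ⟨Sum.inr ⟨𝒰.map fun d => Sum.inl d.lam, Sum.inl '' range l, ?_,
      (countable_range l).image _⟩, ?_⟩
    · rw [Ultrafilter.mem_map]
      exact 𝒰.mem_of_superset hP fun d hd => ⟨d.lam, hd, rfl⟩
    · rintro E ⟨Z, hZ, 𝒜, h𝒜, 𝒦, h𝒦, rfl⟩ hE
      change {d : D | nf Z 𝒜 𝒦 ∈ uL d.lam} ∈ 𝒰
      by_contra hcon
      have hcon' := Ultrafilter.compl_mem_iff_notMem.2 hcon
      have h2 : ∀ n, ∃ R ∈ Phi, nf Z 𝒜 𝒦 ∉ uL (l n) →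
          ∀ d : D, d.lam = l n → d.w ∈ R → d ∈ nf Z 𝒜 𝒦 → d ∈ Z := by
        intro n
        by_cases h : nf Z 𝒜 𝒦 ∈ uL (l n)
        · exact ⟨univ, Filter.univ_mem, fun h' => (h' h).elim⟩
        · obtain ⟨R, hR, hR'⟩ := key_dec h
          exact ⟨R, hR, fun _ => hR'⟩
      choose R hR hR' using h2
      apply h0 Z hZ
      refine 𝒰.mem_of_superset (𝒰.inter_mem (𝒰.inter_mem hP hE) (𝒰.inter_mem hcon' (ha R hR))) ?_
      rintro d ⟨⟨⟨n, hn⟩, hd1⟩, hd2, hd3⟩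
      refine hR' n ?_ d hn.symm (hd3 n hn.symm) hd1
      rw [hn]; exact hd2
  · push Not at ha
    obtain ⟨R, hR, hbad⟩ := ha
    have hbad' := Ultrafilter.compl_mem_iff_notMem.2 hbad
    have hC : ∃ C, SC.Sm C ∧ ∀ B : Set SC.J, B.Countable → Disjoint B C →
        {d : D | ∀ a ∈ d.F, a ∉ B} ∈ 𝒰 := by
      by_contra hcon
      push Not at hcon
      have hcon2 : ∀ C : Set SC.J, ∃ B : Set SC.J, SC.Sm C →
          B.Countable ∧ Disjoint B C ∧ {d : D | ∀ a ∈ d.F, a ∉ B} ∉ 𝒰 := by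
        intro C
        by_cases h : SC.Sm C
        · obtain ⟨B, hB⟩ := hcon C h
          exact ⟨B, fun _ => hB⟩
        · exact ⟨∅, fun h' => (h h').elim⟩
      choose B hB using hcon2
      obtain ⟨C₁, C₂, h1, h2, h3⟩ := SC.strong B (fun C h => (hB C h).1) (by
        intro C h
        by_contra hemp
        rw [Set.not_nonempty_iff_eq_empty] at hemp
        apply (hB C h).2.2
        rw [hemp]
        refine 𝒰.mem_of_superset 𝒰.univ_mem ?_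
        intro d _ a _ ha
        exact ha) (fun C h => (hB C h).2.1) ⟨l, R, hl, hR⟩
      have h4 := Ultrafilter.compl_mem_iff_notMem.2 (hB C₁ h1).2.2
      have h5 := Ultrafilter.compl_mem_iff_notMem.2 (hB C₂ h2).2.2
      obtain ⟨d, hd1, hd2, hd3⟩ := 𝒰.nonempty_of_mem (𝒰.inter_mem hbad' (𝒰.inter_mem h4 h5))
      simp only [mem_compl_iff, mem_ofPred_eq] at hd1 hd2 hd3
      push Not at hd1 hd2 hd3
      obtain ⟨n, hn1, hn2⟩ := hd1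
      obtain ⟨a, ha, haB⟩ := hd2
      obtain ⟨b, hb, hbB⟩ := hd3
      obtain ⟨hab, hcol⟩ := h3 a haB b hbB
      have h6 := d.h a ha b hb hab n
      rw [hcol] at h6
      exact hn2 (h6 hn1.symm)
    obtain ⟨C, hC1, hC2⟩ := hC
    let π : D → D := fun d => ⟨d.lam, d.w, d.F.filter (· ∈ C),
      d.h.mono (Finset.filter_subset _ _)⟩
    have hπB : ∀ d i ξ, d ∈ Bx i ξ → π d ∈ Bx i ξ := fun d i ξ h => h
    refine ⟨Sum.inl ⟨𝒰.map π, {d | d.lam ∈ range l ∧ ∀ a ∈ d.F, a ∈ C}, ?_, ?_, ?_⟩, ?_⟩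
    · rw [Ultrafilter.mem_map]
      exact 𝒰.mem_of_superset hP fun d hd => ⟨hd, fun a ha => (Finset.mem_filter.1 ha).2⟩
    · refine (countable_range l).mono ?_
      rintro _ ⟨d, hd, rfl⟩; exact hd.1
    · refine SC.mono _ _ hC1 ?_
      rintro a ⟨d, hd, ha⟩; exact hd.2 a ha
    · rintro E ⟨Z, hZ, 𝒜, h𝒜, 𝒦, h𝒦, rfl⟩ hE
      change π ⁻¹' (nf Z 𝒜 𝒦) ∈ 𝒰
      have hB := hC2 (⋃ q ∈ 𝒦, {a | a ∈ q.2.2 ∧ a ∉ C}) (h𝒦.biUnion fun q _ =>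
        q.2.2.finite_toSet.countable.mono fun a ha => ha.1) (by
          rw [Set.disjoint_left]
          intro a ha haC
          obtain ⟨q, hq, ha⟩ := mem_iUnion₂.1 ha
          exact ha.2 haC)
      have hZ' := Ultrafilter.compl_mem_iff_notMem.2 (h0 Z hZ)
      refine 𝒰.mem_of_superset (𝒰.inter_mem hE (𝒰.inter_mem hB hZ')) ?_
      rintro d ⟨hd | ⟨p, hp, hd⟩ | ⟨q, hq, hd⟩, hdB, hdZ⟩
      · exact (hdZ hd).elim
      · exact Or.inr (Or.inl ⟨p, hp, hπB _ _ _ hd⟩)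
      · refine Or.inr (Or.inr ⟨q, hq, hd.1, hd.2.1, ?_⟩)
        intro a ha
        refine Finset.mem_filter.2 ⟨hd.2.2 ha, ?_⟩
        by_contra haC
        exact hdB a (hd.2.2 ha) (mem_iUnion₂.2 ⟨q, hq, ha, haC⟩)

/-- data of an isolated point -/
def δ (d : D) : (ℕ × ℕ) × II × II × Xi := (d.w, ri d, ci d, d.lam.ε)

theorem cpt2 (𝒰 : Ultrafilter D) (h0 : ∀ Z ∈ small, Z ∉ 𝒰)
    (h1 : ∀ Λ₀ : Set Lam, Λ₀.Countable → {d : D | d.lam ∈ Λ₀} ∉ 𝒰) :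
    ∃ x : Sp u small, ∀ E ∈ L, E ∈ 𝒰 → E ∈ flt u small x := by
  classical
  have key : ∀ Z ∈ small, ∀ 𝒜 : Set (goodI × Xi), 𝒜.Countable →
      ∀ 𝒦 : Set (Lam × {R // R ∈ Phi} × Finset SC.J), 𝒦.Countable → nf Z 𝒜 𝒦 ∈ 𝒰 →
      {d | ∃ p ∈ 𝒜, d ∈ Bx p.1 p.2} ∈ 𝒰 := by
    intro Z hZ 𝒜 h𝒜 𝒦 h𝒦 hE
    have h2 := Ultrafilter.compl_mem_iff_notMem.2 (h0 Z hZ)
    have h3 := Ultrafilter.compl_mem_iff_notMem.2 (h1 (Prod.fst '' 𝒦) (h𝒦.image _))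
    refine 𝒰.mem_of_superset (𝒰.inter_mem hE (𝒰.inter_mem h2 h3)) ?_
    rintro d ⟨hd | hd | ⟨q, hq, hd⟩, hd2, hd3⟩
    · exact (hd2 hd).elim
    · exact hd
    · exact (hd3 ⟨q, hq, hd.1.symm⟩).elim
  by_cases ha : ∃ S : Set II, S.Countable ∧ {d | ri d ∈ S ∧ ci d ∈ S} ∈ 𝒰
  · obtain ⟨S, hS, hS𝒰⟩ := ha
    let rep : D → D := fun d => Function.invFun δ (δ d)
    have hrep : ∀ d, δ (rep d) = δ d := fun d => Function.invFun_eq ⟨d, rfl⟩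
    let π' : (ℕ × ℕ) × II × II × Xi → D := fun p => ⟨(Function.invFun δ p).lam, p.1, ∅,
      compat_empty _ _⟩
    let π : D → D := fun d => π' (δ d)
    have hπB : ∀ d i ξ, d ∈ Bx i ξ → π d ∈ Bx i ξ := by
      intro d i ξ hd
      have h2 := hrep d
      have hw : (rep d).w = d.w := congrArg Prod.fst h2
      have hr : ri (rep d) = ri d := congrArg (fun p => p.2.1) h2
      have hcc : ci (rep d) = ci d := congrArg (fun p => p.2.2.1) h2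
      have hε : (rep d).lam.ε = d.lam.ε := congrArg (fun p => p.2.2.2) h2
      have hr' : ri (π d) = ri (rep d) := by
        change (rep d).lam.α (2 * d.w.1) = (rep d).lam.α (2 * (rep d).w.1)
        rw [hw]
      have hc' : ci (π d) = ci (rep d) := by
        change (rep d).lam.α (2 * d.w.2 + 1) = (rep d).lam.α (2 * (rep d).w.2 + 1)
        rw [hw]
      have hε' : (π d).lam.ε = d.lam.ε := hε
      refine ⟨?_, ?_⟩
      · rcases hd.1 with h | h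
        · left; rw [hr', hr, h]
        · right; rw [hc', hcc, h]
      · rw [hε']; exact hd.2
    obtain ⟨b, hb⟩ := xi_bound_set ((hS.prod hS).image fun p => e p.1 p.2)
    have hcount : (π '' {d | ri d ∈ S ∧ ci d ∈ S}).Countable := by
      have h2 : (δ '' {d | ri d ∈ S ∧ ci d ∈ S}).Countable := by
        refine ((countable_univ (α := ℕ × ℕ)).prod (hS.prod (hS.prod (xi_Iio b)))).mono ?_
        rintro _ ⟨d, hd, rfl⟩
        refine ⟨trivial, hd.1, hd.2, ?_⟩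
        exact (le_e d).trans_lt (hb _ ⟨(ri d, ci d), hd, rfl⟩)
      have h3 : π '' {d | ri d ∈ S ∧ ci d ∈ S} = π' '' (δ '' {d | ri d ∈ S ∧ ci d ∈ S}) := by
        rw [← image_comp]; rfl
      rw [h3]; exact h2.image _
    refine ⟨Sum.inl ⟨𝒰.map π, π '' {d | ri d ∈ S ∧ ci d ∈ S}, ?_, ?_⟩, ?_⟩
    · rw [Ultrafilter.mem_map]
      exact 𝒰.mem_of_superset hS𝒰 fun d hd => ⟨d, hd, rfl⟩
    · refine small_of_empty hcount ?_
      rintro _ ⟨d, -, rfl⟩; rfl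
    · rintro E ⟨Z, hZ, 𝒜, h𝒜, 𝒦, h𝒦, rfl⟩ hE
      change π ⁻¹' (nf Z 𝒜 𝒦) ∈ 𝒰
      refine 𝒰.mem_of_superset (key Z hZ 𝒜 h𝒜 𝒦 h𝒦 hE) ?_
      rintro d ⟨p, hp, hd⟩
      exact Or.inr (Or.inl ⟨p, hp, hπB _ _ _ hd⟩)
  push Not at ha
  by_cases hb : ∃ S : Set goodI, S.Countable ∧
      {d : D | (∃ i ∈ S, i.1 = ri d) ∨ ∃ i ∈ S, i.1 = ci d} ∈ 𝒰
  · obtain ⟨S, hS, hS𝒰⟩ := hb
    let S' : Set II := Subtype.val '' S
    let τ : D → T := fun d =>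
      if h : ∃ i ∈ S, i.1 = ri d then Sum.inr h.choose
      else if h : ∃ i ∈ S, i.1 = ci d then Sum.inr h.choose
      else Sum.inl d.lam
    have hτ : ∀ d, ((∃ i ∈ S, i.1 = ri d) ∨ ∃ i ∈ S, i.1 = ci d) →
        ∃ i ∈ S, τ d = Sum.inr i ∧ (i.1 = ri d ∨ i.1 = ci d) := by
      intro d hd
      by_cases h : ∃ i ∈ S, i.1 = ri d
      · refine ⟨h.choose, h.choose_spec.1, ?_, Or.inl h.choose_spec.2⟩
        simp only [τ, dif_pos h]
      · have h' := hd.resolve_left h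
        refine ⟨h'.choose, h'.choose_spec.1, ?_, Or.inr h'.choose_spec.2⟩
        simp only [τ, dif_neg h, dif_pos h']
    refine ⟨Sum.inr ⟨𝒰.map τ, Sum.inr '' S, ?_, hS.image _⟩, ?_⟩
    · rw [Ultrafilter.mem_map]
      refine 𝒰.mem_of_superset hS𝒰 fun d hd => ?_
      obtain ⟨i, hi, h, -⟩ := hτ d hd
      exact ⟨i, hi, h.symm⟩
    · rintro E ⟨Z, hZ, 𝒜, h𝒜, 𝒦, h𝒦, rfl⟩ hE
      change {d : D | nf Z 𝒜 𝒦 ∈ u (τ d)} ∈ 𝒰
      have h2 := key Z hZ 𝒜 h𝒜 𝒦 h𝒦 hE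
      have h3 := Ultrafilter.compl_mem_iff_notMem.2 (ha (Subtype.val '' (S ∪ Prod.fst '' 𝒜))
        ((hS.union (h𝒜.image _)).image _))
      refine 𝒰.mem_of_superset (𝒰.inter_mem (𝒰.inter_mem h2 h3) hS𝒰) ?_
      rintro d ⟨⟨⟨p, hp, hd⟩, hd3⟩, hd4⟩
      obtain ⟨i, hi, h4, h5⟩ := hτ d hd4
      have hip : i = p.1 := by
        by_contra hne
        have hne' : i.1 ≠ p.1.1 := fun h => hne (Subtype.ext h)
        apply hd3
        rcases h5 with h5 | h5 <;> rcases hd.1 with h6 | h6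
        · exact (hne' (h5.trans h6)).elim
        · exact ⟨⟨i, Or.inl hi, h5⟩, ⟨p.1, Or.inr ⟨p, hp, rfl⟩, h6.symm⟩⟩
        · exact ⟨⟨p.1, Or.inr ⟨p, hp, rfl⟩, h6.symm⟩, ⟨i, Or.inl hi, h5⟩⟩
        · exact (hne' (h5.trans h6)).elim
      change nf Z 𝒜 𝒦 ∈ u (τ d)
      rw [h4]
      refine ⟨p.2, ?_⟩
      intro d' hd'
      rw [hip] at hd'
      exact Or.inr (Or.inl ⟨p, hp, hd'⟩)
  · push Not at hb
    refine ⟨pt small_single (Classical.arbitrary D), ?_⟩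
    rintro E ⟨Z, hZ, 𝒜, h𝒜, 𝒦, h𝒦, rfl⟩ hE
    exfalso
    apply hb (Prod.fst '' 𝒜) (h𝒜.image _)
    refine 𝒰.mem_of_superset (key Z hZ 𝒜 h𝒜 𝒦 h𝒦 hE) ?_
    rintro d ⟨p, hp, hd⟩
    rcases hd.1 with h | h
    · exact Or.inl ⟨p.1, ⟨p, hp, rfl⟩, h.symm⟩
    · exact Or.inr ⟨p.1, ⟨p, hp, rfl⟩, h.symm⟩

theorem good : Good u small L where
  nebot := nebot
  single := small_single
  mono := small_mono
  small_L := small_L
  small_compl := small_compl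
  sUnion := L_sUnion
  decided := decided
  base := base
  sep := sep
  cpt := by
    intro 𝒰
    by_cases h0 : ∃ Z ∈ small, Z ∈ 𝒰
    · obtain ⟨Z, hZ, hZ𝒰⟩ := h0
      exact ⟨Sum.inl ⟨𝒰, Z, hZ𝒰, hZ⟩, fun E _ hE => hE⟩
    · push Not at h0
      by_cases h1 : ∃ Λ₀ : Set Lam, Λ₀.Countable ∧ {d : D | d.lam ∈ Λ₀} ∈ 𝒰
      · obtain ⟨Λ₀, hc, h1⟩ := h1
        exact cpt1 𝒰 h0 hc h1
      · push Not at h1
        exact cpt2 𝒰 h0 h1

theorem neg (𝓑 : Set (Set (Sp u small))) (hb : IsTopologicalBasis 𝓑)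
    (hinter : ∀ A ∈ 𝓑, ∀ B ∈ 𝓑, A ∩ B ∈ 𝓑)
    (hcl : ∀ f : ℕ → Set (Sp u small), (∀ n, f n ∈ 𝓑) → IsOpen (closure (⋃ n, f n))) : False := by
  have hU : ∀ i, U i ∈ uI i := fun i => ⟨Classical.arbitrary _, fun d hd => hd.1⟩
  have h1 : ∀ i : II, ∃ V : Set (Sp u small), ∃ ξ : Xi,
      (i ∈ goodI → V ∈ 𝓑 ∧ V ⊆ hat u small (U i) ∧ ∀ d ∈ Bx i ξ, pt small_single d ∈ V) ∧
      (i ∉ goodI → ∀ d, d ∉ Bx i ξ) := by
    intro i
    by_cases hi : i ∈ goodI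
    · have h2 : ix u small (Sum.inr ⟨i, hi⟩) ∈ hat u small (U i) := ix_mem_hat.2 (hU i)
      obtain ⟨V, hV, hxV, hVU⟩ := hb.exists_subset_of_mem_open h2 (isOpen_hat _)
      have h3 := trace_mem small_single (hb.isOpen hV) hxV
      have h4 : {d | pt small_single d ∈ V} ∈ uI i := h3
      obtain ⟨ξ, hξ⟩ := h4
      exact ⟨V, ξ, fun _ => ⟨hV, hVU, fun d hd => hξ hd⟩, fun h => (h hi).elim⟩
    · have h2 : ∃ ξ, ¬ (Bx i ξ).Nonempty := by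
        by_contra hcon
        push Not at hcon
        exact hi hcon
      obtain ⟨ξ, hξ⟩ := h2
      exact ⟨∅, ξ, fun h => (hi h).elim, fun _ d hd => hξ ⟨d, hd⟩⟩
  choose V ξ hg hb' using h1
  obtain ⟨α, ε, hinj, hξ, he⟩ := free ξ
  let lam : Lam := ⟨α, ε, hinj, he⟩
  have hgood : ∀ n, α n ∈ goodI := by
    intro n
    by_contra hn
    rcases Nat.even_or_odd' n with ⟨k, rfl | rfl⟩
    · exact hb' _ hn ⟨lam, (k, 0), ∅, compat_empty _ _⟩ ⟨Or.inl rfl, hξ _⟩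
    · exact hb' _ hn ⟨lam, (0, k), ∅, compat_empty _ _⟩ ⟨Or.inr rfl, hξ _⟩
  let f : ℕ → Set (Sp u small) := fun k => V (α (2 * k)) ∩ V (α (2 * k + 1))
  have hf : ∀ k, f k ∈ 𝓑 := fun k => hinter _ (hg _ (hgood _)).1 _ (hg _ (hgood _)).1
  have hf1 : ∀ d : D, ∀ k, d.lam = lam → d.w = (k, k) → pt small_single d ∈ f k := by
    rintro ⟨l, w, F, hF⟩ k h h'
    dsimp only at h h'
    subst h h'
    exact ⟨(hg _ (hgood _)).2.2 _ ⟨Or.inl rfl, hξ _⟩, (hg _ (hgood _)).2.2 _ ⟨Or.inr rfl, hξ _⟩⟩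
  have hf2 : ∀ d : D, ∀ k l m, d.lam = lam → d.w = (k, l) → pt small_single d ∈ f m → k = l := by
    rintro ⟨la, w, F, hF⟩ k l m h h' hm
    dsimp only at h h'
    subst h h'
    have h5 : _ ∈ U (α (2 * m)) := (pt_mem_hat small_single).1 ((hg _ (hgood _)).2.1 hm.1)
    have h6 : _ ∈ U (α (2 * m + 1)) := (pt_mem_hat small_single).1 ((hg _ (hgood _)).2.1 hm.2)
    have h7 : k = m := by
      rcases h5 with h5 | h5
      · have h8 : 2 * k = 2 * m := hinj h5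
        omega
      · have h8 : 2 * l + 1 = 2 * m := hinj h5
        omega
    have h8 : l = m := by
      rcases h6 with h6 | h6
      · have h8 : 2 * k = 2 * m + 1 := hinj h6
        omega
      · have h8 : 2 * l + 1 = 2 * m + 1 := hinj h6
        omega
    rw [h7, h8]
  have hW := hcl f hf
  have hp : ix u small (Sum.inl lam) ∈ closure (⋃ n, f n) := by
    rw [mem_closure_iff_nhds]
    intro N hN
    obtain ⟨E, hE, hEN⟩ := mem_nhds_iff'.1 hN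
    have hE' : E ∈ uL lam := hE
    obtain ⟨R, hR, s, hRs⟩ := hE'
    obtain ⟨k, l, -, ⟨d, hd, hdw⟩, -⟩ := Gx_square (lam := lam) hR s
    exact ⟨pt small_single d, hEN ((pt_mem_hat small_single).2 (hRs hd)),
      mem_iUnion.2 ⟨k, hf1 d k hd.1 hdw⟩⟩
  have h3 := trace_mem small_single hW hp
  have h4 : {d | pt small_single d ∈ closure (⋃ n, f n)} ∈ uL lam := h3
  obtain ⟨R, hR, s, hRs⟩ := h4
  obtain ⟨k, l, hkl, -, ⟨d, hd, hdw⟩⟩ := Gx_square (lam := lam) hR s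
  have h5 : pt small_single d ∈ closure (⋃ n, f n) := hRs hd
  have h6 : IsOpen {pt (u := u) small_single d} :=
    isOpen_pt small_single (fun t d => small_compl _ (small_single d) t) nebot d
  obtain ⟨x, hx, hx'⟩ := mem_closure_iff.1 h5 _ h6 rfl
  rw [mem_singleton_iff] at hx
  subst hx
  obtain ⟨m, hm⟩ := mem_iUnion.1 hx'
  exact hkl (hf2 d k l m hd.1 hdw hm)

end Pool.Agent.Helper614.PX
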