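import Mathlib

set_option autoImplicit false

namespace Pool.Agent.Helper614.SC

open Set TopologicalSpace Filter Topology Cardinal

/-! ### A combinatorial lemma -/

/-- Sets of size at most continuum closed under countably many-ary operations. -/
theorem exists_closed_set {J T : Type} (hT : #T ≤ 𝔠) (op : T → (ℕ → J) → J) (j0 : J) :
    ∃ M : Set J, #M ≤ 𝔠 ∧ j0 ∈ M ∧ ∀ t d, (∀ n, d n ∈ M) → op t d ∈ M := by
  let β : Option T → Type := fun a => match a with
    | none => Empty
    | some _ => ℕ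
  let g : (Σ a : Option T, β a → J) → J := fun p => match p with
    | ⟨none, _⟩ => j0
    | ⟨some t, d⟩ => op t d
  let ev : WType β → J := WType.elim J g
  have hW : #(WType β) ≤ 𝔠 := by
    apply WType.cardinalMk_le_of_le
    have h1 : ∀ a : Option T, (𝔠 : Cardinal.{0}) ^ #(β a) ≤ 𝔠 := by
      intro a
      cases a with
      | none =>
        have : #(β none) = 0 := by
          change #Empty = 0
          simp
        rw [this, power_zero]
        exact (nat_lt_continuum 1).le.trans' (by simp)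
      | some t =>
        have : #(β (some t)) = ℵ₀ := by
          change #ℕ = ℵ₀
          simp
        rw [this, continuum_power_aleph0]
    calc (Cardinal.sum fun a : Option T => (𝔠 : Cardinal.{0}) ^ #(β a))
        ≤ Cardinal.sum (fun _ : Option T => (𝔠 : Cardinal.{0})) := Cardinal.sum_le_sum _ _ h1
      _ = #(Option T) * 𝔠 := by simp
      _ ≤ 𝔠 * 𝔠 := by
        gcongr
        rw [mk_option]
        calc #T + 1 ≤ 𝔠 + 𝔠 := by
              gcongr
              exact (nat_lt_continuum 1).le.trans' (by simp)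
          _ = 𝔠 := continuum_add_self
      _ = 𝔠 := continuum_mul_self
  refine ⟨range ev, mk_range_le.trans hW, ⟨WType.mk none Empty.elim, ?_⟩, ?_⟩
  · rfl
  · intro t d hd
    choose w hw using hd
    refine ⟨WType.mk (some t) w, ?_⟩
    change op t (fun n => ev (w n)) = op t d
    congr 1
    funext n
    exact hw n

theorem good_pair {J D : Type} (hJ : 𝔠 < #J) (hD : #D ≤ 𝔠) (e : J → ℕ → J) (dat : J → D) :
    ∃ a b, a ≠ b ∧ dat a = dat b ∧ (∀ n m, e a n = e b m → ∃ k, e a k = e a n ∧ e b k = e a n) ∧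
      (∀ n, e b n ≠ a) ∧ (∀ n, e a n ≠ b) := by
  classical
  have hne : Nonempty J := by
    rw [← Cardinal.mk_ne_zero_iff]
    intro h
    rw [h] at hJ
    exact absurd hJ (not_lt.mpr (zero_le))
  obtain ⟨j0⟩ := hne
  let T := ℕ ⊕ (D × Set ℕ)
  have hT : #T ≤ 𝔠 := by
    change #(ℕ ⊕ (D × Set ℕ)) ≤ 𝔠
    simp only [mk_sum, mk_prod, lift_id, mk_nat, mk_set]
    calc ℵ₀ + #D * 2 ^ ℵ₀ ≤ 𝔠 + 𝔠 * 𝔠 := by
          gcongr
          · exact aleph0_le_continuum
          · exact two_power_aleph0.le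
      _ = 𝔠 := by rw [continuum_mul_self, continuum_add_self]
  let R : D → Set ℕ → (ℕ → J) → J → Prop := fun δ I d a =>
    dat a = δ ∧ (∀ n ∈ I, e a n = d n) ∧ (∀ n ∈ I, a ≠ d n)
  let op : T → (ℕ → J) → J := fun t d => match t with
    | Sum.inl n => e (d 0) n
    | Sum.inr p => if h : ∃ a, R p.1 p.2 d a then h.choose else j0
  obtain ⟨M, hM, hj0, hcl⟩ := exists_closed_set hT op j0
  obtain ⟨b, hb⟩ : ∃ b, b ∉ M := by
    by_contra hcon
    push Not at hcon
    have : M = Set.univ := eq_univ_of_forall hcon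
    rw [this, mk_univ] at hM
    exact absurd hJ (not_lt.mpr hM)
  let I : Set ℕ := {n | e b n ∈ M}
  let d : ℕ → J := fun n => if n ∈ I then e b n else j0
  have hdM : ∀ n, d n ∈ M := by
    intro n
    by_cases h : n ∈ I
    · simp only [d, if_pos h]; exact h
    · simp only [d, if_neg h]; exact hj0
  have hdI : ∀ n ∈ I, d n = e b n := fun n hn => if_pos hn
  have hex : ∃ a, R (dat b) I d a := by
    refine ⟨b, rfl, fun n hn => (hdI n hn).symm, fun n hn h => hb ?_⟩
    rw [h]; exact hdM n
  have haM : hex.choose ∈ M := by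
    have := hcl (Sum.inr (dat b, I)) d hdM
    simp only [op] at this
    rw [dif_pos hex] at this
    exact this
  obtain ⟨ha1, ha2, ha3⟩ := hex.choose_spec
  set a := hex.choose with ha
  have haeM : ∀ n, e a n ∈ M := by
    intro n
    have := hcl (Sum.inl n) (fun _ => a) (fun _ => haM)
    exact this
  refine ⟨a, b, ?_, ha1, ?_, ?_, ?_⟩
  · intro h
    rw [← h] at hb
    exact hb haM
  · intro n m h
    have hm : m ∈ I := by
      change e b m ∈ M
      rw [← h]; exact haeM n
    refine ⟨m, ?_, h.symm⟩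
    rw [ha2 m hm, hdI m hm, h]
  · intro n h
    have hn : n ∈ I := by
      change e b n ∈ M
      rw [h]; exact haM
    exact ha3 n hn (by rw [hdI n hn, h])
  · intro n h
    apply hb
    rw [← h]
    exact haeM n

/-! ### The space -/

/-- Points: coordinates `x j` in the unit interval and selectors `z i j`, where the value
`some r` of the selector forces `x i ≤ r` or `x j ≤ r`. -/
@[ext]
structure K (J : Type) where
  x : J → ℝ
  z : J → J → Option ℝ
  x0 : ∀ j, 0 ≤ x j
  x1 : ∀ j, x j ≤ 1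
  xz : ∀ i j r, z i j = some r → x i ≤ r ∨ x j ≤ r

variable {J : Type}

def sLe (j : J) (a : ℝ) : Set (K J) := {k | k.x j ≤ a}
def sGe (j : J) (a : ℝ) : Set (K J) := {k | a ≤ k.x j}
def sL (i j : J) (r : ℝ) : Set (K J) := {k | k.z i j = some r ∧ k.x i ≤ r}
def sR (i j : J) (r : ℝ) : Set (K J) := {k | k.z i j = some r ∧ k.x j ≤ r}
def sN (i j : J) (r : ℝ) : Set (K J) := {k | k.z i j ≠ some r}

/-- The binary closed subbase. -/
inductive SB : Set (K J) → Prop
  | le (j : J) (a : ℝ) : SB (sLe j a)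
  | ge (j : J) (a : ℝ) : SB (sGe j a)
  | l (i j : J) (r : ℝ) : SB (sL i j r)
  | r (i j : J) (r : ℝ) : SB (sR i j r)
  | n (i j : J) (r : ℝ) : SB (sN i j r)

instance : TopologicalSpace (K J) := generateFrom {U | SB Uᶜ}

theorem top_def : (inferInstance : TopologicalSpace (K J)) = generateFrom {U : Set (K J) | SB Uᶜ} := rfl

theorem isClosed_of_SB {A : Set (K J)} (h : SB A) : IsClosed A := by
  rw [← isOpen_compl_iff]
  apply isOpen_generateFrom_of_mem
  change SB Aᶜᶜ
  rwa [compl_compl]

theorem isOpen_gt (j : J) (a : ℝ) : IsOpen {k : K J | a < k.x j} := by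
  have := (isClosed_of_SB (SB.le j a)).isOpen_compl
  convert this using 1
  ext k; simp [sLe]

theorem isOpen_lt (j : J) (a : ℝ) : IsOpen {k : K J | k.x j < a} := by
  have := (isClosed_of_SB (SB.ge j a)).isOpen_compl
  convert this using 1
  ext k; simp [sGe]

theorem isOpen_eq (i j : J) (r : ℝ) : IsOpen {k : K J | k.z i j = some r} := by
  have := (isClosed_of_SB (SB.n i j r)).isOpen_compl
  convert this using 1
  ext k; simp [sN]

theorem isOpen_ne (i j : J) (r : ℝ) : IsOpen {k : K J | k.z i j ≠ some r} := by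
  have := (isClosed_of_SB (SB.l i j r)).isOpen_compl.inter (isClosed_of_SB (SB.r i j r)).isOpen_compl
  convert this using 1
  ext k
  simp only [sL, sR, Set.mem_ofPred_eq, mem_inter_iff, mem_compl_iff]
  constructor
  · intro h
    exact ⟨fun h' => h h'.1, fun h' => h h'.1⟩
  · rintro ⟨h1, h2⟩ h
    rcases k.xz i j r h with h' | h'
    · exact h1 ⟨h, h'⟩
    · exact h2 ⟨h, h'⟩

/-- The subbase is binary. -/
theorem binary (L : Set (Set (K J))) (hL : ∀ A ∈ L, SB A)
    (hlink : ∀ A ∈ L, ∀ B ∈ L, (A ∩ B).Nonempty) : (⋂₀ L).Nonempty := by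
  classical
  let X : J → Set ℝ := fun j => insert 0 {a | sGe j a ∈ L}
  have hXne : ∀ j, (X j).Nonempty := fun j => ⟨0, mem_insert _ _⟩
  have hX1 : ∀ j, ∀ a ∈ X j, a ≤ 1 := by
    intro j a ha
    rcases mem_insert_iff.mp ha with rfl | ha
    · exact zero_le_one
    · obtain ⟨k, hk, _⟩ := hlink _ ha _ ha
      exact le_trans hk (k.x1 j)
  have hXb : ∀ j, BddAbove (X j) := fun j => ⟨1, fun a ha => hX1 j a ha⟩
  -- bounding principle
  have key : ∀ (A : Set (K J)), A ∈ L → ∀ (j : J) (c : ℝ), A ⊆ sLe j c → sSup (X j) ≤ c := by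
    intro A hA j c hAc
    apply csSup_le (hXne j)
    intro a ha
    rcases mem_insert_iff.mp ha with rfl | ha
    · obtain ⟨k, hk, _⟩ := hlink _ hA _ hA
      exact le_trans (k.x0 j) (hAc hk)
    · obtain ⟨k, hk1, hk2⟩ := hlink _ hA _ ha
      exact le_trans hk2 (hAc hk1)
  let Zs : J → J → ℝ → Prop := fun i j r => sL i j r ∈ L ∨ sR i j r ∈ L
  let zz : J → J → Option ℝ := fun i j => if h : ∃ r, Zs i j r then some h.choose else none
  have hz1 : ∀ i j r, zz i j = some r → Zs i j r := by
    intro i j r h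
    by_cases h' : ∃ r, Zs i j r
    · simp only [zz, dif_pos h', Option.some.injEq] at h
      rw [← h]
      exact h'.choose_spec
    · simp only [zz, dif_neg h'] at h
      exact absurd h (by simp)
  have hsub : ∀ i j r, Zs i j r → ∃ A ∈ L, A ⊆ {k : K J | k.z i j = some r} := by
    intro i j r h
    rcases h with h | h
    · exact ⟨_, h, fun k hk => hk.1⟩
    · exact ⟨_, h, fun k hk => hk.1⟩
  have hz2 : ∀ i j r, Zs i j r → zz i j = some r := by
    intro i j r h
    have h' : ∃ r, Zs i j r := ⟨r, h⟩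
    have h1 : zz i j = some h'.choose := by simp only [zz, dif_pos h']
    obtain ⟨A, hA, hA'⟩ := hsub i j _ h'.choose_spec
    obtain ⟨B, hB, hB'⟩ := hsub i j _ h
    obtain ⟨k, hk1, hk2⟩ := hlink _ hA _ hB
    have e1 : k.z i j = some h'.choose := hA' hk1
    have e2 : k.z i j = some r := hB' hk2
    rw [h1, ← e1, e2]
  refine ⟨⟨fun j => sSup (X j), zz, ?_, ?_, ?_⟩, ?_⟩
  · intro j
    exact le_csSup (hXb j) (mem_insert _ _)
  · intro j
    exact csSup_le (hXne j) (hX1 j)
  · intro i j r h
    rcases hz1 i j r h with h | h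
    · left; exact key _ h i r (fun k hk => hk.2)
    · right; exact key _ h j r (fun k hk => hk.2)
  · intro A hA
    cases hL A hA with
    | le j a => exact key _ hA j a (fun k hk => hk)
    | ge j a => exact le_csSup (hXb j) (mem_insert_of_mem _ hA)
    | l i j r => exact ⟨hz2 i j r (Or.inl hA), key _ hA i r (fun k hk => hk.2)⟩
    | r i j r => exact ⟨hz2 i j r (Or.inr hA), key _ hA j r (fun k hk => hk.2)⟩
    | n i j r =>
      intro h
      obtain ⟨B, hB, hB'⟩ := hsub i j r (hz1 i j r h)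
      obtain ⟨k, hk1, hk2⟩ := hlink _ hA _ hB
      exact hk1 (hB' hk2)

instance : CompactSpace (K J) := by
  apply compactSpace_generateFrom (S := {U : Set (K J) | SB Uᶜ}) rfl
  intro P hP hcov
  by_contra hcon
  push Not at hcon
  have h1 : (⋂₀ (compl '' P)).Nonempty := by
    apply binary
    · rintro _ ⟨U, hU, rfl⟩
      exact hP hU
    · rintro _ ⟨U, hU, rfl⟩ _ ⟨V, hV, rfl⟩
      have := hcon {U, V} (by
        intro W hW
        rcases hW with rfl | hW
        · exact hU
        · rw [mem_singleton_iff.mp hW]; exact hV) (by simp)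
      rw [← compl_union, nonempty_compl]
      simpa using this
  obtain ⟨k, hk⟩ := h1
  have : k ∈ ⋃₀ P := by rw [hcov]; trivial
  obtain ⟨U, hU, hkU⟩ := this
  exact hk _ ⟨U, hU, rfl⟩ hkU

instance : T2Space (K J) := by
  constructor
  intro k k' hne
  by_cases hx : ∃ j, k.x j ≠ k'.x j
  · obtain ⟨j, hj⟩ := hx
    rcases lt_or_gt_of_ne hj with h | h
    · obtain ⟨a, h1, h2⟩ := exists_between h
      exact ⟨_, _, isOpen_lt j a, isOpen_gt j a, h1, h2,
        disjoint_left.mpr fun q (hq : q.x j < a) (hq' : a < q.x j) => lt_asymm hq hq'⟩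
    · obtain ⟨a, h1, h2⟩ := exists_between h
      exact ⟨_, _, isOpen_gt j a, isOpen_lt j a, h2, h1,
        disjoint_left.mpr fun q (hq : a < q.x j) (hq' : q.x j < a) => lt_asymm hq hq'⟩
  · push Not at hx
    have hz : ∃ i j, k.z i j ≠ k'.z i j := by
      by_contra hcon
      push Not at hcon
      exact hne (K.ext (funext hx) (funext fun i => funext fun j => hcon i j))
    obtain ⟨i, j, hij⟩ := hz
    rcases h1 : k.z i j with _ | r
    · rcases h2 : k'.z i j with _ | r
      · rw [h1, h2] at hij; exact absurd rfl hij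
      · refine ⟨_, _, isOpen_ne i j r, isOpen_eq i j r, ?_, h2,
          disjoint_left.mpr fun q hq hq' => hq hq'⟩
        change k.z i j ≠ some r
        rw [h1]; simp
    · refine ⟨_, _, isOpen_eq i j r, isOpen_ne i j r, h1, ?_,
        disjoint_left.mpr fun q hq hq' => hq' hq⟩
      change k'.z i j ≠ some r
      rw [← h1]; exact hij.symm

/-- Points that get uniformly close have the same limit. -/
theorem tendsto_of_close {l : Filter ℕ} (hl : l ≤ atTop) {u v : ℕ → K J} {k : K J}
    (hu : Tendsto u l (𝓝 k)) (hx : ∀ n j, |(v n).x j - (u n).x j| ≤ 1 / ((n : ℝ) + 1))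
    (hz : ∀ n, (v n).z = (u n).z) : Tendsto v l (𝓝 k) := by
  have hsmall : ∀ ε : ℝ, 0 < ε → ∀ᶠ n : ℕ in l, 1 / ((n : ℝ) + 1) < ε := by
    intro ε hε
    exact hl (tendsto_one_div_add_atTop_nhds_zero_nat.eventually (gt_mem_nhds hε))
  have hgt : ∀ j a, a < k.x j → ∀ᶠ n in l, a < (v n).x j := by
    intro j a ha
    obtain ⟨b, hb1, hb2⟩ := exists_between ha
    filter_upwards [hu.eventually ((isOpen_gt j b).mem_nhds hb2), hsmall (b - a) (by linarith)]
      with n h1 h2
    have h3 := (abs_le.mp (hx n j)).1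
    have h4 : b < (u n).x j := h1
    linarith
  have hlt : ∀ j a, k.x j < a → ∀ᶠ n in l, (v n).x j < a := by
    intro j a ha
    obtain ⟨b, hb1, hb2⟩ := exists_between ha
    filter_upwards [hu.eventually ((isOpen_lt j b).mem_nhds hb1), hsmall (a - b) (by linarith)]
      with n h1 h2
    have h3 := (abs_le.mp (hx n j)).2
    have h4 : (u n).x j < b := h1
    linarith
  have hne : ∀ i j r, k.z i j ≠ some r → ∀ᶠ n in l, (v n).z i j ≠ some r := by
    intro i j r h
    filter_upwards [hu.eventually ((isOpen_ne i j r).mem_nhds h)] with n h1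
    rw [hz n]; exact h1
  have heq : ∀ i j r, k.z i j = some r → ∀ᶠ n in l, (v n).z i j = some r := by
    intro i j r h
    filter_upwards [hu.eventually ((isOpen_eq i j r).mem_nhds h)] with n h1
    rw [hz n]; exact h1
  rw [TopologicalSpace.tendsto_nhds_generateFrom_iff]
  intro V hV hkV
  have hV' : SB Vᶜ := hV
  generalize hA : Vᶜ = A at hV'
  have hVA : V = Aᶜ := by rw [← hA, compl_compl]
  subst hVA
  cases hV' with
  | le j a =>
    filter_upwards [hgt j a (not_le.mp hkV)] with n h1
    exact not_le.mpr h1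
  | ge j a =>
    filter_upwards [hlt j a (not_le.mp hkV)] with n h1
    exact not_le.mpr h1
  | l i j r =>
    by_cases h : k.z i j = some r
    · have h2 : r < k.x i := not_le.mp fun h' => hkV ⟨h, h'⟩
      filter_upwards [hgt i r h2] with n h1
      exact fun h' => not_le.mpr h1 h'.2
    · filter_upwards [hne i j r h] with n h1
      exact fun h' => h1 h'.1
  | r i j r =>
    by_cases h : k.z i j = some r
    · have h2 : r < k.x j := not_le.mp fun h' => hkV ⟨h, h'⟩
      filter_upwards [hgt j r h2] with n h1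
      exact fun h' => not_le.mpr h1 h'.2
    · filter_upwards [hne i j r h] with n h1
      exact fun h' => h1 h'.1
  | n i j r =>
    have h : k.z i j = some r := by
      by_contra h
      exact hkV h
    filter_upwards [heq i j r h] with n h1
    exact fun h' => h' h1

/-- Open sets depend locally on finitely many coordinates. -/
theorem finite_support {U : Set (K J)} (hU : IsOpen U) : ∀ k ∈ U, ∃ s : Set J, s.Finite ∧
    ∀ k' : K J, (∀ j ∈ s, k'.x j = k.x j) → (∀ i ∈ s, ∀ j ∈ s, k'.z i j = k.z i j) → k' ∈ U := by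
  have hU' : GenerateOpen {U : Set (K J) | SB Uᶜ} U := hU
  induction hU' with
  | basic V hV =>
    intro k hkV
    have hV' : SB Vᶜ := hV
    generalize hA : Vᶜ = A at hV'
    have hVA : V = Aᶜ := by rw [← hA, compl_compl]
    subst hVA
    cases hV' with
    | le j a =>
      refine ⟨{j}, finite_singleton _, fun k' h1 _ h => hkV ?_⟩
      have h' : k'.x j ≤ a := h
      rw [h1 j rfl] at h'
      exact h'
    | ge j a =>
      refine ⟨{j}, finite_singleton _, fun k' h1 _ h => hkV ?_⟩
      have h' : a ≤ k'.x j := h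
      rw [h1 j rfl] at h'
      exact h'
    | l i j r =>
      refine ⟨{i, j}, by simp, fun k' h1 h2 h => hkV ?_⟩
      have h' : k'.z i j = some r ∧ k'.x i ≤ r := h
      rw [h1 i (by simp), h2 i (by simp) j (by simp)] at h'
      exact h'
    | r i j r =>
      refine ⟨{i, j}, by simp, fun k' h1 h2 h => hkV ?_⟩
      have h' : k'.z i j = some r ∧ k'.x j ≤ r := h
      rw [h1 j (by simp), h2 i (by simp) j (by simp)] at h'
      exact h'
    | n i j r =>
      refine ⟨{i, j}, by simp, fun k' h1 h2 h => hkV ?_⟩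
      have h' : k'.z i j ≠ some r := h
      rw [h2 i (by simp) j (by simp)] at h'
      exact h'
  | univ =>
    intro k _
    exact ⟨∅, finite_empty, fun k' _ _ => trivial⟩
  | inter V W hV hW ihV ihW =>
    intro k hk
    obtain ⟨s, hs, h1⟩ := ihV hV k hk.1
    obtain ⟨t, ht, h2⟩ := ihW hW k hk.2
    refine ⟨s ∪ t, hs.union ht, fun k' h3 h4 => ⟨h1 k' (fun j hj => h3 j (Or.inl hj))
      (fun i hi j hj => h4 i (Or.inl hi) j (Or.inl hj)), h2 k' (fun j hj => h3 j (Or.inr hj))
      (fun i hi j hj => h4 i (Or.inr hi) j (Or.inr hj))⟩⟩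
  | sUnion 𝒰 h𝒰 ih =>
    intro k hk
    obtain ⟨V, hV, hkV⟩ := hk
    obtain ⟨s, hs, h1⟩ := ih V hV (h𝒰 V hV) k hkV
    exact ⟨s, hs, fun k' h3 h4 => ⟨V, hV, h1 k' h3 h4⟩⟩

/-! ### Separation by members of the ring -/

theorem exists_sep {X : Type} [t : TopologicalSpace X] [CompactSpace X] {P' S : Set (Set X)}
    (hP' : t = generateFrom {U : Set X | Uᶜ ∈ P'}) (hPS : P' ⊆ S)
    (hun : ∀ B ∈ S, ∀ C ∈ S, B ∪ C ∈ S) (hint : ∀ B ∈ S, ∀ C ∈ S, B ∩ C ∈ S)
    {C D : Set X} (hC : IsClosed C) (hCne : C.Nonempty) (hD : IsClosed D) (hDne : D.Nonempty)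
    (hCD : ∀ y ∈ D, y ∉ C) : ∃ F ∈ S, C ⊆ F ∧ ∀ y ∈ D, y ∉ F := by
  classical
  -- finite unions
  have hfin : ∀ f : Set (Set X), f.Finite → f.Nonempty → (∀ U ∈ f, Uᶜ ∈ P') → (⋂₀ f)ᶜ ∈ S := by
    intro f hf
    induction f, hf using Set.Finite.induction_on with
    | empty => intro h; exact absurd h not_nonempty_empty
    | @insert a f _ _ ih =>
      intro _ h
      rw [sInter_insert, compl_inter]
      rcases f.eq_empty_or_nonempty with rfl | hne
      · simp only [sInter_empty, compl_univ, union_empty]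
        exact hPS (h a (mem_insert _ _))
      · exact hun _ (hPS (h a (mem_insert _ _))) _ (ih hne fun U hU => h U (mem_insert_of_mem _ hU))
  have hbasis := isTopologicalBasis_of_subbasis hP'
  have hpt : ∀ y ∈ D, ∃ F ∈ S, C ⊆ F ∧ IsClosed F ∧ y ∉ F := by
    intro y hy
    obtain ⟨_, ⟨f, ⟨hf1, hf2⟩, rfl⟩, hyf, hfC⟩ :=
      hbasis.exists_subset_of_mem_open (show y ∈ Cᶜ from hCD y hy) hC.isOpen_compl
    have hne : f.Nonempty := by
      rw [nonempty_iff_ne_empty]
      rintro rfl
      obtain ⟨c, hc⟩ := hCne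
      exact hfC (by simp) hc
    refine ⟨(⋂₀ f)ᶜ, hfin f hf1 hne fun U hU => hf2 hU, ?_, ?_, fun h => h hyf⟩
    · intro c hc hcf
      exact hfC hcf hc
    · rw [isClosed_compl_iff]
      exact hbasis.isOpen ⟨f, ⟨hf1, hf2⟩, rfl⟩
  have hDc : IsCompact D := hD.isCompact
  have := hDc.induction_on (p := fun s => ∃ F ∈ S, C ⊆ F ∧ ∀ y ∈ s, y ∉ F) ?_ ?_ ?_ ?_
  · exact this
  · obtain ⟨y, hy⟩ := hDne
    obtain ⟨F, h1, h2, _, _⟩ := hpt y hy
    exact ⟨F, h1, h2, fun y hy => absurd hy (Set.notMem_empty y)⟩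
  · rintro s s' hss ⟨F, h1, h2, h3⟩
    exact ⟨F, h1, h2, fun y hy => h3 y (hss hy)⟩
  · rintro s s' ⟨F, h1, h2, h3⟩ ⟨F', h1', h2', h3'⟩
    refine ⟨F ∩ F', hint _ h1 _ h1', subset_inter h2 h2', ?_⟩
    rintro y (hy | hy) ⟨hy1, hy2⟩
    · exact h3 y hy hy1
    · exact h3' y hy hy2
  · intro y hy
    obtain ⟨F, h1, h2, h3, h4⟩ := hpt y hy
    exact ⟨Fᶜ, mem_nhdsWithin_of_mem_nhds (h3.isOpen_compl.mem_nhds h4), F, h1, h2, fun y hy => hy⟩

/-! ### The main argument -/

theorem card_data : #((ℕ → ℕ → ℝ) × (ℕ → ℕ → ℕ → Option ℝ) × ℝ) ≤ 𝔠 := by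
  have h1 : #(Option ℝ) ≤ 𝔠 := by
    rw [mk_option, mk_real]
    calc 𝔠 + 1 ≤ 𝔠 + 𝔠 := by
          gcongr
          exact (nat_lt_continuum 1).le.trans' (by simp)
      _ = 𝔠 := continuum_add_self
  have h2 : ∀ Y : Type, #Y ≤ 𝔠 → #(ℕ → Y) ≤ 𝔠 := by
    intro Y hY
    simp only [← Cardinal.power_def, mk_nat]
    calc #Y ^ ℵ₀ ≤ 𝔠 ^ ℵ₀ := Cardinal.power_le_power_right hY
      _ = 𝔠 := continuum_power_aleph0
  have h3 : ∀ Y Z : Type, #Y ≤ 𝔠 → #Z ≤ 𝔠 → #(Y × Z) ≤ 𝔠 := by
    intro Y Z hY hZ
    rw [mk_prod, lift_id, lift_id]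
    calc #Y * #Z ≤ 𝔠 * 𝔠 := by gcongr
      _ = 𝔠 := continuum_mul_self
  exact h3 _ _ (h2 _ (h2 _ mk_real.le)) (h3 _ _ (h2 _ (h2 _ (h2 _ h1))) mk_real.le)

/-- The point all of whose coordinates are `1` and without active selectors. -/
def one : K J := ⟨fun _ => 1, fun _ _ => none, fun _ => zero_le_one, fun _ => le_rfl,
  fun _ _ _ h => absurd h (by simp)⟩

def zero : K J := ⟨fun _ => 0, fun _ _ => none, fun _ => le_rfl, fun _ => zero_le_one,
  fun _ _ _ h => absurd h (by simp)⟩

theorem no_regular (hJ : 𝔠 < #J) (P' S : Set (Set (K J)))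
    (hP' : (inferInstance : TopologicalSpace (K J)) = generateFrom {U : Set (K J) | Uᶜ ∈ P'})
    (hPS : P' ⊆ S) (hun : ∀ B ∈ S, ∀ C ∈ S, B ∪ C ∈ S) (hint : ∀ B ∈ S, ∀ C ∈ S, B ∩ C ∈ S)
    (hreg : ∀ A ∈ S, closure (interior A) = A) : False := by
  classical
  -- the members of the ring that we use
  have hF : ∀ a : J, ∃ F ∈ S, sGe a (2 / 3) ⊆ F ∧ ∀ y ∈ sLe a (1 / 3), y ∉ F := by
    intro a
    apply exists_sep hP' hPS hun hint (isClosed_of_SB (SB.ge a _)) ?_ (isClosed_of_SB (SB.le a _))
    · refine ⟨zero, ?_⟩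
      change (0 : ℝ) ≤ 1 / 3
      norm_num
    · intro y hy hy'
      have h1 : y.x a ≤ 1 / 3 := hy
      have h2 : 2 / 3 ≤ y.x a := hy'
      linarith
    · refine ⟨one, ?_⟩
      change (2 / 3 : ℝ) ≤ 1
      norm_num
  choose F hFS hF1 hF2 using hF
  have hFcl : ∀ a, IsClosed (F a) := fun a => by
    rw [← hreg _ (hFS a)]; exact isClosed_closure
  have hFne : ∀ a, ((fun k : K J => k.x a) '' F a).Nonempty := by
    intro a
    refine ⟨_, mem_image_of_mem _ (hF1 a (show one ∈ sGe a (2 / 3) from ?_))⟩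
    change (2 / 3 : ℝ) ≤ 1
    norm_num
  have hFb : ∀ a, BddBelow ((fun k : K J => k.x a) '' F a) := by
    intro a
    refine ⟨0, ?_⟩
    rintro _ ⟨k, _, rfl⟩
    exact k.x0 a
  let r : J → ℝ := fun a => sInf ((fun k : K J => k.x a) '' F a)
  have hr : ∀ a, ∀ k ∈ F a, r a ≤ k.x a := fun a k hk => csInf_le (hFb a) (mem_image_of_mem _ hk)
  have hr0 : ∀ a, 1 / 3 ≤ r a := by
    intro a
    apply le_csInf (hFne a)
    rintro _ ⟨k, hk, rfl⟩
    by_contra h
    push Not at h
    exact hF2 a k (show k.x a ≤ 1 / 3 from h.le) hk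
  have hr1 : ∀ a, r a ≤ 1 := by
    intro a
    obtain ⟨_, k, hk, rfl⟩ := hFne a
    exact (hr a k hk).trans (k.x1 a)
  -- approximating interior points of finite support
  have happ : ∀ (a : J) (n : ℕ), ∃ k : K J, k.x a ≤ r a + 1 / ((n : ℝ) + 1) ∧ r a ≤ k.x a ∧
      ∃ s : Set J, s.Finite ∧ ∀ k' : K J, (∀ j ∈ s, k'.x j = k.x j) →
        (∀ i ∈ s, ∀ j ∈ s, k'.z i j = k.z i j) → k' ∈ F a := by
    intro a n
    have hpos : 0 < 1 / ((n : ℝ) + 1) := Nat.one_div_pos_of_nat
    obtain ⟨_, ⟨k, hk, rfl⟩, hkr⟩ := exists_lt_of_csInf_lt (hFne a) (show r a < r a + 1 / ((n : ℝ) + 1) by linarith)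
    have hk' : k ∈ closure (interior (F a)) := by rw [hreg _ (hFS a)]; exact hk
    obtain ⟨k₁, hk₁, hk₂⟩ := mem_closure_iff.mp hk' _ (isOpen_lt a (r a + 1 / ((n : ℝ) + 1))) hkr
    obtain ⟨s, hs, hs'⟩ := finite_support isOpen_interior k₁ hk₂
    have h3 : k₁.x a < r a + 1 / ((n : ℝ) + 1) := hk₁
    exact ⟨k₁, h3.le, hr a k₁ (interior_subset hk₂), s, hs,
      fun k' h1 h2 => interior_subset (hs' k' h1 h2)⟩
  choose k hk1 hk2 s hs hsF using happ
  -- enumeration of the supports
  have hen : ∀ a : J, ∃ e : ℕ → J, e 0 = a ∧ ∀ n, ∀ j ∈ s a n, ∃ m, e m = j := by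
    intro a
    have hc : (insert a (⋃ n, s a n)).Countable :=
      (countable_iUnion fun n => (hs a n).countable).insert a
    obtain ⟨f, hf⟩ := hc.exists_eq_range ⟨a, mem_insert _ _⟩
    refine ⟨fun n => match n with | 0 => a | n + 1 => f n, rfl, ?_⟩
    intro n j hj
    have : j ∈ range f := by
      rw [← hf]
      exact mem_insert_of_mem _ (mem_iUnion.mpr ⟨n, hj⟩)
    obtain ⟨m, hm⟩ := this
    exact ⟨m + 1, hm⟩
  choose e he0 hes using hen
  let dat : J → (ℕ → ℕ → ℝ) × (ℕ → ℕ → ℕ → Option ℝ) × ℝ := fun a =>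
    (fun n m => (k a n).x (e a m), fun n m m' => (k a n).z (e a m) (e a m'), r a)
  obtain ⟨a, b, hab, hdat, hcom, hba, hab'⟩ := good_pair hJ card_data e dat
  have hdx : ∀ n m, (k a n).x (e a m) = (k b n).x (e b m) := by
    intro n m
    exact congrFun (congrFun (congrArg Prod.fst hdat) n) m
  have hdz : ∀ n m m', (k a n).z (e a m) (e a m') = (k b n).z (e b m) (e b m') := by
    intro n m m'
    exact congrFun (congrFun (congrFun (congrArg (fun p => p.2.1) hdat) n) m) m'
  have hdr : r a = r b := congrArg (fun p => p.2.2) hdat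
  let A : Set J := range (e a)
  let B : Set J := range (e b)
  have haA : a ∈ A := ⟨0, he0 a⟩
  have hbB : b ∈ B := ⟨0, he0 b⟩
  have haB : a ∉ B := by rintro ⟨n, hn⟩; exact hba n hn
  have hbA : b ∉ A := by rintro ⟨n, hn⟩; exact hab' n hn
  have hsA : ∀ n, ∀ j ∈ s a n, j ∈ A := fun n j hj => hes a n j hj
  have hsB : ∀ n, ∀ j ∈ s b n, j ∈ B := fun n j hj => hes b n j hj
  have hAB : ∀ j ∈ A, j ∈ B → ∃ m, e a m = j ∧ e b m = j := by
    rintro j ⟨n, rfl⟩ ⟨m, hm⟩
    exact hcom n m hm.symm
  have hABx : ∀ n, ∀ j ∈ A, j ∈ B → (k a n).x j = (k b n).x j := by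
    intro n j hjA hjB
    obtain ⟨m, h1, h2⟩ := hAB j hjA hjB
    have := hdx n m
    rwa [h1, h2] at this
  have hABz : ∀ n, ∀ i ∈ A, i ∈ B → ∀ j ∈ A, j ∈ B → (k a n).z i j = (k b n).z i j := by
    intro n i hiA hiB j hjA hjB
    obtain ⟨m, h1, h2⟩ := hAB i hiA hiB
    obtain ⟨m', h1', h2'⟩ := hAB j hjA hjB
    have := hdz n m m'
    rwa [h1, h2, h1', h2'] at this
  -- common selector part
  let zz : ℕ → J → J → Option ℝ := fun n i j =>
    if i ∈ A ∧ j ∈ A then (k a n).z i j
    else if i ∈ B ∧ j ∈ B then (k b n).z i j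
    else if i = a ∧ j = b then some (r a) else none
  let ux : ℕ → J → ℝ := fun n j =>
    if j ∈ A then (k a n).x j else if j = b then r a else if j ∈ B then (k b n).x j else 0
  let vx : ℕ → J → ℝ := fun n j =>
    if j = a then r a else if j ∈ A then (k a n).x j else if j ∈ B then (k b n).x j else 0
  have hr00 : 0 ≤ r a := le_trans (by norm_num) (hr0 a)
  have huxA : ∀ n, ∀ j ∈ A, ux n j = (k a n).x j := fun n j hj => if_pos hj
  have huxB : ∀ n, ∀ j ∈ B, ux n j ≤ (k b n).x j := by
    intro n j hj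
    by_cases h : j ∈ A
    · rw [huxA n j h, hABx n j h hj]
    · simp only [ux, if_neg h]
      by_cases h' : j = b
      · rw [if_pos h', h', hdr]; exact hk2 b n
      · rw [if_neg h', if_pos hj]
  have hvxA : ∀ n, ∀ j ∈ A, vx n j ≤ (k a n).x j := by
    intro n j hj
    by_cases h' : j = a
    · simp only [vx, if_pos h']; rw [h']; exact hk2 a n
    · simp only [vx, if_neg h', if_pos hj]; exact le_rfl
  have hvxB : ∀ n, ∀ j ∈ B, vx n j = (k b n).x j := by
    intro n j hj
    have h' : j ≠ a := fun h => haB (h ▸ hj)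
    by_cases h : j ∈ A
    · simp only [vx, if_neg h', if_pos h]; exact hABx n j h hj
    · simp only [vx, if_neg h', if_neg h, if_pos hj]
  let u : ℕ → K J := fun n => ⟨ux n, zz n, by
      intro j
      by_cases h : j ∈ A
      · rw [huxA n j h]; exact (k a n).x0 j
      · simp only [ux, if_neg h]
        split_ifs
        · exact hr00
        · exact (k b n).x0 j
        · exact le_rfl, by
      intro j
      by_cases h : j ∈ A
      · rw [huxA n j h]; exact (k a n).x1 j
      · simp only [ux, if_neg h]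
        split_ifs
        · exact hr1 a
        · exact (k b n).x1 j
        · exact zero_le_one, by
      intro i j ρ h
      by_cases h1 : i ∈ A ∧ j ∈ A
      · simp only [zz, if_pos h1] at h
        rw [huxA n i h1.1, huxA n j h1.2]
        exact (k a n).xz i j ρ h
      · by_cases h2 : i ∈ B ∧ j ∈ B
        · simp only [zz, if_neg h1, if_pos h2] at h
          rcases (k b n).xz i j ρ h with h3 | h3
          · exact Or.inl ((huxB n i h2.1).trans h3)
          · exact Or.inr ((huxB n j h2.2).trans h3)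
        · simp only [zz, if_neg h1, if_neg h2] at h
          by_cases h3 : i = a ∧ j = b
          · rw [if_pos h3, Option.some.injEq] at h
            right
            simp only [ux, h3.2, if_neg hbA, if_true]
            exact h.le
          · rw [if_neg h3] at h
            exact absurd h (by simp)⟩
  let v : ℕ → K J := fun n => ⟨vx n, zz n, by
      intro j
      simp only [vx]
      split_ifs
      · exact hr00
      · exact (k a n).x0 j
      · exact (k b n).x0 j
      · exact le_rfl, by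
      intro j
      simp only [vx]
      split_ifs
      · exact hr1 a
      · exact (k a n).x1 j
      · exact (k b n).x1 j
      · exact zero_le_one, by
      intro i j ρ h
      by_cases h1 : i ∈ A ∧ j ∈ A
      · simp only [zz, if_pos h1] at h
        rcases (k a n).xz i j ρ h with h3 | h3
        · exact Or.inl ((hvxA n i h1.1).trans h3)
        · exact Or.inr ((hvxA n j h1.2).trans h3)
      · by_cases h2 : i ∈ B ∧ j ∈ B
        · simp only [zz, if_neg h1, if_pos h2] at h
          rw [hvxB n i h2.1, hvxB n j h2.2]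
          exact (k b n).xz i j ρ h
        · simp only [zz, if_neg h1, if_neg h2] at h
          by_cases h3 : i = a ∧ j = b
          · rw [if_pos h3, Option.some.injEq] at h
            left
            simp only [vx, h3.1, if_true]
            exact h.le
          · rw [if_neg h3] at h
            exact absurd h (by simp)⟩
  have huF : ∀ n, u n ∈ F a := by
    intro n
    apply hsF a n
    · intro j hj
      exact huxA n j (hsA n j hj)
    · intro i hi j hj
      exact if_pos ⟨hsA n i hi, hsA n j hj⟩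
  have hvF : ∀ n, v n ∈ F b := by
    intro n
    apply hsF b n
    · intro j hj
      exact hvxB n j (hsB n j hj)
    · intro i hi j hj
      have hiB := hsB n i hi
      have hjB := hsB n j hj
      change zz n i j = (k b n).z i j
      by_cases h1 : i ∈ A ∧ j ∈ A
      · simp only [zz, if_pos h1]
        exact hABz n i h1.1 hiB j h1.2 hjB
      · simp only [zz, if_neg h1, if_pos (And.intro hiB hjB)]
  have hclose : ∀ n j, |(v n).x j - (u n).x j| ≤ 1 / ((n : ℝ) + 1) := by
    intro n j
    have hpos : (0 : ℝ) ≤ 1 / ((n : ℝ) + 1) := (Nat.one_div_pos_of_nat).le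
    change |vx n j - ux n j| ≤ _
    by_cases h1 : j = a
    · have e1 : vx n j = r a := by simp only [vx, if_pos h1]
      have e2 : ux n j = (k a n).x a := by rw [h1]; exact huxA n a haA
      rw [e1, e2, abs_le]
      have := hk1 a n
      have := hk2 a n
      constructor <;> linarith
    · by_cases h2 : j ∈ A
      · have e1 : vx n j = (k a n).x j := by simp only [vx, if_neg h1, if_pos h2]
        rw [e1, huxA n j h2, sub_self, abs_zero]
        exact hpos
      · by_cases h3 : j = b
        · have e1 : vx n j = (k b n).x b := by rw [h3]; exact hvxB n b hbB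
          have e2 : ux n j = r a := by simp only [ux, if_neg h2, if_pos h3]
          rw [e1, e2, abs_le]
          have := hk1 b n
          have := hk2 b n
          constructor <;> linarith
        · have e1 : vx n j = ux n j := by simp only [vx, ux, if_neg h1, if_neg h2, if_neg h3]
          rw [e1, sub_self, abs_zero]
          exact hpos
  -- the limit point
  let 𝒰 : Ultrafilter ℕ := Filter.hyperfilter ℕ
  have h𝒰 : (𝒰 : Filter ℕ) ≤ atTop := by
    rw [← Nat.cofinite_eq_atTop]
    exact Filter.hyperfilter_le_cofinite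
  obtain ⟨q, _, hq⟩ := isCompact_univ.ultrafilter_le_nhds (𝒰.map u) (by simp)
  have hqu : Tendsto u 𝒰 (𝓝 q) := hq
  have hqv : Tendsto v 𝒰 (𝓝 q) := tendsto_of_close h𝒰 hqu hclose (fun n => rfl)
  have hqa : q ∈ F a := (hFcl a).mem_of_tendsto hqu (Eventually.of_forall huF)
  have hqb : q ∈ F b := (hFcl b).mem_of_tendsto hqv (Eventually.of_forall hvF)
  have hzab : ∀ n, zz n a b = some (r a) := by
    intro n
    have h1 : ¬ (a ∈ A ∧ b ∈ A) := fun h => hbA h.2
    have h2 : ¬ (a ∈ B ∧ b ∈ B) := fun h => haB h.1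
    simp only [zz, if_neg h1, if_neg h2, and_self, if_true]
  have hqz : q.z a b = some (r a) := by
    by_contra h
    have := hqu.eventually ((isOpen_ne a b (r a)).mem_nhds h)
    obtain ⟨n, hn⟩ := this.exists
    exact hn (hzab n)
  -- an interior point of the intersection
  have hH := hreg _ (hint _ (hFS a) _ (hFS b))
  have hqH : q ∈ closure (interior (F a ∩ F b)) := by rw [hH]; exact ⟨hqa, hqb⟩
  obtain ⟨p, hp1, hp2⟩ := mem_closure_iff.mp hqH _ (isOpen_eq a b (r a)) hqz
  have hpF := interior_subset hp2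
  -- lowering one coordinate
  have hlow : ∀ c : J, p.x c ≤ r c → p ∈ F c → interior (F a ∩ F b) ⊆ F c → False := by
    intro c hc hpc hsub
    have hpc' : p.x c = r c := le_antisymm hc (hr c p hpc)
    let w : ℕ → K J := fun n => ⟨fun j => if j = c then max 0 (p.x c - 1 / ((n : ℝ) + 1)) else p.x j,
      p.z, by
        intro j
        split_ifs
        · exact le_max_left _ _
        · exact p.x0 j, by
        intro j
        split_ifs
        · have h1 := p.x1 c
          have h2 : (0 : ℝ) ≤ 1 / ((n : ℝ) + 1) := (Nat.one_div_pos_of_nat).le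
          exact max_le zero_le_one (by linarith)
        · exact p.x1 j, by
        have hle : ∀ j, (if j = c then max 0 (p.x c - 1 / ((n : ℝ) + 1)) else p.x j) ≤ p.x j := by
          intro j
          split_ifs with h
          · rw [h]
            have h2 : (0 : ℝ) ≤ 1 / ((n : ℝ) + 1) := (Nat.one_div_pos_of_nat).le
            exact max_le (p.x0 c) (by linarith)
          · exact le_rfl
        intro i j ρ h
        rcases p.xz i j ρ h with h' | h'
        · exact Or.inl ((hle i).trans h')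
        · exact Or.inr ((hle j).trans h')⟩
    have hw : Tendsto w atTop (𝓝 p) := by
      apply tendsto_of_close le_rfl (tendsto_const_nhds (x := p))
      · intro n j
        have h2 : (0 : ℝ) ≤ 1 / ((n : ℝ) + 1) := (Nat.one_div_pos_of_nat).le
        change |(if j = c then max 0 (p.x c - 1 / ((n : ℝ) + 1)) else p.x j) - p.x j| ≤ _
        split_ifs with h
        · rw [h, abs_le]
          constructor
          · have := le_max_right 0 (p.x c - 1 / ((n : ℝ) + 1))
            linarith
          · have : max 0 (p.x c - 1 / ((n : ℝ) + 1)) ≤ p.x c := max_le (p.x0 c) (by linarith)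
            linarith
        · rw [sub_self, abs_zero]; exact h2
      · intro n; rfl
    obtain ⟨n, hn⟩ := (hw.eventually (isOpen_interior.mem_nhds hp2)).exists
    have h3 := hr c (w n) (hsub hn)
    have h4 : (w n).x c = max 0 (p.x c - 1 / ((n : ℝ) + 1)) := if_pos rfl
    rw [h4, hpc'] at h3
    have h5 : (0 : ℝ) < 1 / ((n : ℝ) + 1) := Nat.one_div_pos_of_nat
    have h6 := hr0 c
    rcases max_choice 0 (r c - 1 / ((n : ℝ) + 1)) with h7 | h7 <;> rw [h7] at h3 <;> linarith
  rcases p.xz a b (r a) hp1 with h | h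
  · exact hlow a h hpF.1 (interior_subset.trans inter_subset_left)
  · rw [hdr] at h
    exact hlow b h hpF.2 (interior_subset.trans inter_subset_right)

theorem card_setReal : 𝔠 < #(Set ℝ) := by
  rw [mk_set, mk_real]
  exact cantor 𝔠

end Pool.Agent.Helper614.SC
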